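import Pool.Agent.Helper93_Trace.General4

open MvPolynomial

set_option linter.unusedSectionVars false

namespace Pool.Agent.Helper93Trace

section
variable {N : ℕ} {κ : Type} [Fintype κ] [DecidableEq κ] {R : Type} [CommRing R]

/-- The value of a word at a tuple of matrices. -/
def wv (x : Fin N → Matrix κ κ R) (w : List (Fin N)) : Matrix κ κ R := (w.map x).prod

lemma wv_nil (x : Fin N → Matrix κ κ R) : wv x [] = 1 := rfl

lemma wv_cons (x : Fin N → Matrix κ κ R) (a : Fin N) (w : List (Fin N)) :
    wv x (a :: w) = x a * wv x w := by simp [wv]

lemma wv_append (x : Fin N → Matrix κ κ R) (u v : List (Fin N)) :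
    wv x (u ++ v) = wv x u * wv x v := by simp [wv]

/-- The derivative of a word in the direction `ξ`. -/
def dl (x ξ : Fin N → Matrix κ κ R) : List (Fin N) → Matrix κ κ R
  | [] => 0
  | a :: w => ξ a * wv x w + x a * dl x ξ w

lemma dl_append (x ξ : Fin N → Matrix κ κ R) (u v : List (Fin N)) :
    dl x ξ (u ++ v) = dl x ξ u * wv x v + wv x u * dl x ξ v := by
  induction u with
  | nil => simp [dl, wv_nil]
  | cons a u ih =>
    rw [List.cons_append, dl, ih, dl, wv_append, wv_cons]
    noncomm_ring

/-- The cyclic derivative of a word, as a list of words. -/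
def cycAux (α : Fin N) : List (Fin N) → List (Fin N) → List (List (Fin N))
  | _, [] => []
  | p, a :: q => (if a = α then [q ++ p] else []) ++ cycAux α (p ++ [a]) q

/-- The cyclic derivative of a word: all `q ++ p` with `P = p ++ α :: q`. -/
def cyc (α : Fin N) (P : List (Fin N)) : List (List (Fin N)) := cycAux α [] P

lemma cycAux_length (α : Fin N) (p q : List (Fin N)) :
    ∀ w ∈ cycAux α p q, w.length + 1 = p.length + q.length := by
  induction q generalizing p with
  | nil => simp [cycAux]
  | cons a q ih =>
    intro w hw
    rw [cycAux, List.mem_append] at hw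
    rcases hw with hw | hw
    · split_ifs at hw
      · rw [List.mem_singleton] at hw
        subst hw
        simp
        omega
      · simp at hw
    · have := ih _ w hw
      rw [List.length_append, List.length_singleton] at this
      rw [List.length_cons]
      omega

lemma cyc_length (α : Fin N) (P : List (Fin N)) : ∀ w ∈ cyc α P, w.length + 1 = P.length := by
  intro w hw
  have := cycAux_length α [] P w hw
  simpa using this

/-- The cyclic gradient of a word at a tuple of matrices. -/
def grad (x : Fin N → Matrix κ κ R) (P : List (Fin N)) (α : Fin N) : Matrix κ κ R :=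
  ((cyc α P).map (wv x)).sum

lemma trace_dl_aux (x ξ : Fin N → Matrix κ κ R) (p q : List (Fin N)) :
    Matrix.trace (wv x p * dl x ξ q) =
      ∑ α, Matrix.trace (((cycAux α p q).map (wv x)).sum * ξ α) := by
  induction q generalizing p with
  | nil => simp [dl, cycAux]
  | cons a q ih =>
    simp only [dl, cycAux, List.map_append, List.sum_append, add_mul, Matrix.trace_add,
      Finset.sum_add_distrib, mul_add]
    rw [← ih, wv_append]
    have h1 : wv x [a] = x a := by simp [wv]
    rw [h1, mul_assoc]
    congr 1
    rw [Finset.sum_eq_single a]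
    · simp only [if_true, List.map_cons, List.map_nil, List.sum_cons, List.sum_nil, add_zero,
        wv_append]
      rw [← mul_assoc, Matrix.trace_mul_comm, ← mul_assoc]
    · intro b _ hb
      rw [if_neg hb.symm]
      simp
    · simp

lemma trace_dl (x ξ : Fin N → Matrix κ κ R) (P : List (Fin N)) :
    Matrix.trace (dl x ξ P) = ∑ α, Matrix.trace (grad x P α * ξ α) := by
  have := trace_dl_aux x ξ [] P
  rwa [wv_nil, one_mul] at this

end

end Pool.Agent.Helper93Trace
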