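import Pool.Agent.Helper93_Trace.Sym

open MvPolynomial

set_option linter.unusedSectionVars false

namespace Pool.Agent.Helper93Trace

/-! ### The double centralizer theorem for a finite group -/

section
variable {G W : Type} [Group G] [Fintype G] [AddCommGroup W] [Module ℂ W] [FiniteDimensional ℂ W]

theorem double_centralizer (ρ : Representation ℂ G W) (c : W →ₗ[ℂ] W)
    (hc : ∀ h : W →ₗ[ℂ] W, (∀ g, h ∘ₗ ρ g = ρ g ∘ₗ h) → h ∘ₗ c = c ∘ₗ h) :
    ∃ r : G → ℂ, ∀ w, c w = ∑ g, r g • ρ g w := by
  classical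
  have : NeZero (Nat.card G : ℂ) := ⟨by
    have : 0 < Nat.card G := Nat.card_pos
    exact_mod_cast this.ne'⟩
  have : IsSemisimpleModule (MonoidAlgebra ℂ G) ρ.asModule := inferInstance
  -- an `R`-linear endomorphism gives an equivariant linear map
  let toW : (ρ.asModule →ₗ[MonoidAlgebra ℂ G] ρ.asModule) → (W →ₗ[ℂ] W) := fun h =>
    { toFun := fun w => ρ.asModuleEquiv (h (ρ.asModuleEquiv.symm w))
      map_add' := fun x y => by rw [map_add, map_add, map_add]
      map_smul' := fun r x => by
        rw [RingHom.id_apply, Representation.asModuleEquiv_symm_map_smul, map_smul,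
          Representation.asModuleEquiv_map_smul, AlgHom.commutes]
        rfl }
  have htoW : ∀ h g, toW h ∘ₗ ρ g = ρ g ∘ₗ toW h := by
    intro h g
    ext w
    change ρ.asModuleEquiv (h (ρ.asModuleEquiv.symm (ρ g w))) =
      ρ g (ρ.asModuleEquiv (h (ρ.asModuleEquiv.symm w)))
    rw [Representation.asModuleEquiv_symm_map_rho, map_smul, Representation.asModuleEquiv_map_smul,
      Representation.asAlgebraHom_of]
  let f : Module.End (Module.End (MonoidAlgebra ℂ G) ρ.asModule) ρ.asModule :=
    { toFun := fun x => ρ.asModuleEquiv.symm (c (ρ.asModuleEquiv x))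
      map_add' := fun x y => by rw [map_add, map_add, map_add]
      map_smul' := fun h x => by
        rw [RingHom.id_apply, Module.End.smul_def, Module.End.smul_def]
        have h1 := congrArg (fun φ => φ (ρ.asModuleEquiv x)) (hc (toW h) (htoW h))
        change ρ.asModuleEquiv (h (ρ.asModuleEquiv.symm (c (ρ.asModuleEquiv x)))) =
          c (ρ.asModuleEquiv (h (ρ.asModuleEquiv.symm (ρ.asModuleEquiv x)))) at h1
        rw [LinearEquiv.symm_apply_apply] at h1
        rw [← h1, LinearEquiv.symm_apply_apply] }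
  let b := Module.finBasis ℂ W
  obtain ⟨r, hr⟩ := jacobson_density f
    (Finset.univ.image fun i => ρ.asModuleEquiv.symm (b i))
  refine ⟨fun g => r.coeff g, ?_⟩
  have h1 : ∀ i, c (b i) = (∑ g, r.coeff g • (ρ g : W →ₗ[ℂ] W)) (b i) := by
    intro i
    have h2 := hr (ρ.asModuleEquiv.symm (b i)) (Finset.mem_image_of_mem _ (Finset.mem_univ i))
    have h3 := congrArg ρ.asModuleEquiv h2
    rw [Representation.asModuleEquiv_map_smul] at h3
    change c (ρ.asModuleEquiv (ρ.asModuleEquiv.symm (b i))) = _ at h3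
    rw [LinearEquiv.apply_symm_apply] at h3
    rw [h3, Representation.asAlgebraHom_def, MonoidAlgebra.lift_apply, Finsupp.sum_fintype]
    intro g
    exact zero_smul ℂ _
  intro w
  have h2 : c = ∑ g, r.coeff g • (ρ g : W →ₗ[ℂ] W) := b.ext h1
  conv_lhs => rw [h2]
  simp

end

/-! ### The commutant of `g^{⊗n}` -/

section
variable {n m : ℕ}

/-- If `c` commutes with all `g^{⊗n}`, it commutes with every symmetric matrix. -/
lemma commute_symmetric (c : (Fin n → Fin m) → (Fin n → Fin m) → ℂ)
    (hc : ∀ (g : GL (Fin m) ℂ) (I J : Fin n → Fin m),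
      ∑ K : Fin n → Fin m, (∏ t, (g : Matrix (Fin m) (Fin m) ℂ) (I t) (K t)) * c K J =
      ∑ K : Fin n → Fin m, c I K * ∏ t, (g : Matrix (Fin m) (Fin m) ℂ) (K t) (J t))
    (S : (Fin n → Fin m) → (Fin n → Fin m) → ℂ)
    (hS : ∀ I J (σ : Equiv.Perm (Fin n)), S (I ∘ σ) (J ∘ σ) = S I J) (I J : Fin n → Fin m) :
    ∑ K : Fin n → Fin m, S I K * c K J = ∑ K : Fin n → Fin m, c I K * S K J := by
  classical
  -- the functional
  let φ : (Fin n → Fin m × Fin m) → ℂ := fun Q =>
    (if (fun t => (Q t).1) = I then c (fun t => (Q t).2) J else 0) -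
      (if (fun t => (Q t).2) = J then c I (fun t => (Q t).1) else 0)
  let e : ((Fin n → Fin m) × (Fin n → Fin m)) ≃ (Fin n → Fin m × Fin m) :=
    (Equiv.arrowProdEquivProdArrow (Fin n) (fun _ => Fin m) (fun _ => Fin m)).symm
  have hφ : ∀ T : (Fin n → Fin m) → (Fin n → Fin m) → ℂ,
      ∑ Q, φ Q * T (fun t => (Q t).1) (fun t => (Q t).2) =
        ∑ K, T I K * c K J - ∑ K, c I K * T K J := by
    intro T
    have h1 : ∀ Q, φ Q * T (fun t => (Q t).1) (fun t => (Q t).2) =
        (if (fun t => (Q t).1) = I then c (fun t => (Q t).2) J else 0) *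
          T (fun t => (Q t).1) (fun t => (Q t).2) -
        (if (fun t => (Q t).2) = J then c I (fun t => (Q t).1) else 0) *
          T (fun t => (Q t).1) (fun t => (Q t).2) := fun Q => sub_mul _ _ _
    rw [Finset.sum_congr rfl (fun Q _ => h1 Q), Finset.sum_sub_distrib]
    congr 1
    · rw [← e.sum_comp, Fintype.sum_prod_type]
      rw [Finset.sum_eq_single I]
      · refine Finset.sum_congr rfl fun K _ => ?_
        change (if I = I then c K J else 0) * T I K = _
        rw [if_pos rfl, mul_comm]
      · intro b _ hb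
        apply Finset.sum_eq_zero
        intro K _
        change (if b = I then c K J else 0) * T b K = _
        rw [if_neg hb, zero_mul]
      · simp
    · rw [← e.sum_comp, Fintype.sum_prod_type]
      refine Finset.sum_congr rfl fun K _ => ?_
      rw [Finset.sum_eq_single J]
      · change (if J = J then c I K else 0) * T K J = _
        rw [if_pos rfl]
      · intro b _ hb
        change (if b = J then c I K else 0) * T K b = _
        rw [if_neg hb, zero_mul]
      · simp
  have hΦ : (∑ Q : Fin n → Fin m × Fin m, C (φ Q) * ∏ t, X (Q t) :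
      MvPolynomial (Fin m × Fin m) ℂ) = 0 := by
    apply MvPolynomial.eq_of_eval_eq_on_gl
    intro g
    rw [map_zero, map_sum]
    simp only [map_mul, eval_C, map_prod, eval_X]
    have := hφ (fun I K => ∏ t, (g : Matrix (Fin m) (Fin m) ℂ) (I t) (K t))
    rw [this, hc, sub_self]
  have hcoef : ∀ d, ∑ Q ∈ Finset.univ.filter (fun Q : Fin n → Fin m × Fin m => typ Q = d),
      φ Q = 0 := by
    intro d
    rw [← coeff_sum_words, hΦ, coeff_zero]
  have hsum : ∑ Q, φ Q * S (fun t => (Q t).1) (fun t => (Q t).2) = 0 := by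
    rw [← Finset.sum_fiberwise_of_maps_to (s := Finset.univ) (t := Finset.univ.image typ)
      (g := fun Q : Fin n → Fin m × Fin m => typ Q) (fun Q _ => Finset.mem_image_of_mem _
        (Finset.mem_univ Q))]
    apply Finset.sum_eq_zero
    intro d hd
    obtain ⟨Q₀, -, hQ₀⟩ := Finset.mem_image.mp hd
    have h1 : ∀ Q ∈ Finset.univ.filter (fun Q : Fin n → Fin m × Fin m => typ Q = d),
        φ Q * S (fun t => (Q t).1) (fun t => (Q t).2) =
        φ Q * S (fun t => (Q₀ t).1) (fun t => (Q₀ t).2) := by
      intro Q hQ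
      congr 1
      have h2 : typ Q = typ Q₀ := (Finset.mem_filter.mp hQ).2.trans hQ₀.symm
      obtain ⟨σ, hσ⟩ := exists_perm_of_typ_eq h2
      rw [← hσ]
      exact hS (fun t => (Q₀ t).1) (fun t => (Q₀ t).2) σ
    rw [Finset.sum_congr rfl h1, ← Finset.sum_mul, hcoef, zero_mul]
  rw [hφ S] at hsum
  exact sub_eq_zero.mp hsum

/-- The permutation representation on functions of multi-indices. -/
noncomputable def permRep (n m : ℕ) : Representation ℂ (Equiv.Perm (Fin n))
    ((Fin n → Fin m) → ℂ) where
  toFun σ := LinearMap.funLeft ℂ ℂ (fun I : Fin n → Fin m => I ∘ σ)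
  map_one' := by
    ext f
    rfl
  map_mul' σ τ := by
    ext f
    rfl

lemma permRep_apply (σ : Equiv.Perm (Fin n)) (f : (Fin n → Fin m) → ℂ) (I : Fin n → Fin m) :
    permRep n m σ f I = f (I ∘ σ) := rfl

/-- Schur–Weyl duality in matrix form: a matrix commuting with all `g^{⊗n}` is a combination of
permutation matrices. -/
theorem span_perm (c : (Fin n → Fin m) → (Fin n → Fin m) → ℂ)
    (hc : ∀ (g : GL (Fin m) ℂ) (I J : Fin n → Fin m),
      ∑ K : Fin n → Fin m, (∏ t, (g : Matrix (Fin m) (Fin m) ℂ) (I t) (K t)) * c K J =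
      ∑ K : Fin n → Fin m, c I K * ∏ t, (g : Matrix (Fin m) (Fin m) ℂ) (K t) (J t)) :
    ∃ r : Equiv.Perm (Fin n) → ℂ, ∀ I J, c I J = ∑ σ, r σ * (if I ∘ σ = J then 1 else 0) := by
  classical
  have hsym := commute_symmetric c hc
  let cL : ((Fin n → Fin m) → ℂ) →ₗ[ℂ] ((Fin n → Fin m) → ℂ) := Matrix.toLin' (Matrix.of c)
  have hcL : ∀ f I, cL f I = ∑ K, c I K * f K := by
    intro f I
    simp [cL, Matrix.toLin'_apply, Matrix.mulVec, dotProduct]
  obtain ⟨r, hr⟩ := double_centralizer (permRep n m) cL (by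
    intro h hh
    -- the matrix of `h`
    let S : (Fin n → Fin m) → (Fin n → Fin m) → ℂ := fun I K => h (Pi.single K 1) I
    have hS : ∀ I K (σ : Equiv.Perm (Fin n)), S (I ∘ σ) (K ∘ σ) = S I K := by
      intro I K σ
      have h1 := congrArg (fun φ => φ (Pi.single (K ∘ σ) (1 : ℂ)) I) (hh σ)
      simp only [LinearMap.comp_apply, permRep_apply] at h1
      have h2 : permRep n m σ (Pi.single (K ∘ σ) (1 : ℂ)) = Pi.single K 1 := by
        funext L
        rw [permRep_apply]
        by_cases hL : L = K
        · subst hL; simp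
        · rw [Pi.single_eq_of_ne, Pi.single_eq_of_ne hL]
          intro h3
          apply hL
          funext t
          have := congrFun h3 (σ.symm t)
          simpa using this
      rw [h2] at h1
      exact h1.symm
    have hSh : ∀ f I, h f I = ∑ K, S I K * f K := by
      intro f I
      have : f = ∑ K, f K • Pi.single K (1 : ℂ) := by
        funext L
        simp [Finset.sum_apply, Pi.single_apply]
      conv_lhs => rw [this]
      rw [map_sum, Finset.sum_apply]
      refine Finset.sum_congr rfl fun K _ => ?_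
      rw [map_smul, Pi.smul_apply, smul_eq_mul, mul_comm]
    apply LinearMap.ext
    intro f
    funext I
    rw [LinearMap.comp_apply, LinearMap.comp_apply, hSh, hcL]
    simp only [hcL, hSh, Finset.mul_sum]
    rw [Finset.sum_comm, Finset.sum_comm (f := fun K L => c I K * (S K L * f L))]
    refine Finset.sum_congr rfl fun L _ => ?_
    have := hsym S hS I L
    calc ∑ K, S I K * (c K L * f L) = (∑ K, S I K * c K L) * f L := by
          rw [Finset.sum_mul]; exact Finset.sum_congr rfl fun K _ => by ring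
      _ = (∑ K, c I K * S K L) * f L := by rw [this]
      _ = ∑ K, c I K * (S K L * f L) := by
          rw [Finset.sum_mul]; exact Finset.sum_congr rfl fun K _ => by ring)
  refine ⟨r, fun I J => ?_⟩
  have h1 := congrFun (hr (Pi.single J 1)) I
  rw [hcL] at h1
  have h2 : ∑ K, c I K * (Pi.single J (1 : ℂ) : (Fin n → Fin m) → ℂ) K = c I J := by
    simp [Pi.single_apply]
  rw [h2] at h1
  rw [h1, Finset.sum_apply]
  refine Finset.sum_congr rfl fun σ _ => ?_
  rw [Pi.smul_apply, permRep_apply, smul_eq_mul, Pi.single_apply]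

end

end Pool.Agent.Helper93Trace
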