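import Mathlib

namespace Pool.Agent.Helper93Trace

/-! ### Contractions of matrices along a permutation -/

section
variable {m : ℕ} {R : Type} [CommRing R] {A : Type}

/-- The matrix of a word. -/
def mw (mat : A → Matrix (Fin m) (Fin m) R) (w : List A) : Matrix (Fin m) (Fin m) R :=
  (w.map mat).prod

lemma mw_append (mat : A → Matrix (Fin m) (Fin m) R) (w w' : List A) :
    mw mat (w ++ w') = mw mat w * mw mat w' := by
  simp [mw]

/-- Contraction of matrices along a permutation. -/
def ctr {ι : Type} [Fintype ι] [DecidableEq ι] (σ : Equiv.Perm ι)
    (M : ι → Matrix (Fin m) (Fin m) R) : R :=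
  ∑ P : ι → Fin m, ∏ t, M t (P t) (P (σ t))

/-- The product of the traces of a list of words. -/
def trProd (mat : A → Matrix (Fin m) (Fin m) R) (T : List (List A)) : R :=
  (T.map fun w => Matrix.trace (mw mat w)).prod

lemma sum_option_fun {ι : Type} [Fintype ι] [DecidableEq ι] (F : (Option ι → Fin m) → R) :
    ∑ P : Option ι → Fin m, F P = ∑ P : ι → Fin m, ∑ q : Fin m, F (fun o => o.elim q P) := by
  let e : ((ι → Fin m) × Fin m) ≃ (Option ι → Fin m) :=
    { toFun := fun p o => o.elim p.2 p.1
      invFun := fun P => (fun i => P (some i), P none)
      left_inv := fun p => rfl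
      right_inv := fun P => by
        funext o
        cases o <;> rfl }
  rw [← e.sum_comp, Fintype.sum_prod_type]
  rfl

lemma ctr_option_none {ι : Type} [Fintype ι] [DecidableEq ι] (σ : Equiv.Perm (Option ι))
    (hσ : σ none = none) (M : Option ι → Matrix (Fin m) (Fin m) R) :
    ctr σ M = Matrix.trace (M none) * ctr (Equiv.removeNone σ) (fun i => M (some i)) := by
  unfold ctr
  rw [sum_option_fun, Finset.mul_sum]
  refine Finset.sum_congr rfl fun P _ => ?_
  rw [Matrix.trace, Finset.sum_mul]
  refine Finset.sum_congr rfl fun q _ => ?_
  rw [Fintype.prod_option, hσ]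
  congr 1
  refine Finset.prod_congr rfl fun i _ => ?_
  have h1 : some (Equiv.removeNone σ i) = σ (some i) := by
    apply Equiv.removeNone_some
    rcases h : σ (some i) with _ | j
    · rw [← hσ] at h
      exact absurd (σ.injective h) (by simp)
    · exact ⟨j, rfl⟩
  rw [← h1]
  rfl

lemma ctr_option_some {ι : Type} [Fintype ι] [DecidableEq ι] (σ : Equiv.Perm (Option ι))
    (b s : ι) (hb : σ none = some b) (hs : σ (some s) = none)
    (M : Option ι → Matrix (Fin m) (Fin m) R) :
    ctr σ M = ctr (Equiv.removeNone σ)
      (Function.update (fun i => M (some i)) s (M (some s) * M none)) := by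
  unfold ctr
  rw [sum_option_fun]
  refine Finset.sum_congr rfl fun P _ => ?_
  have hτs : Equiv.removeNone σ s = b := by
    have := Equiv.removeNone_none σ hs
    rw [hb] at this
    exact Option.some_injective _ this
  have hτ : ∀ i, i ≠ s → some (Equiv.removeNone σ i) = σ (some i) := by
    intro i hi
    apply Equiv.removeNone_some
    rcases h : σ (some i) with _ | j
    · rw [← hs] at h
      exact absurd (Option.some_injective _ (σ.injective h)) hi
    · exact ⟨j, rfl⟩
  rw [← Finset.mul_prod_erase Finset.univ _ (Finset.mem_univ s), Function.update_self, hτs,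
    Matrix.mul_apply, Finset.sum_mul]
  refine Finset.sum_congr rfl fun q _ => ?_
  rw [Fintype.prod_option, hb, ← Finset.mul_prod_erase Finset.univ _ (Finset.mem_univ s), hs]
  have h2 : ∏ x ∈ Finset.univ.erase s, M (some x) ((some x).elim q P) ((σ (some x)).elim q P) =
      ∏ x ∈ Finset.univ.erase s, Function.update (fun i => M (some i)) s (M (some s) * M none) x
        (P x) (P (Equiv.removeNone σ x)) := by
    refine Finset.prod_congr rfl fun i hi => ?_
    have hi' : i ≠ s := Finset.ne_of_mem_erase hi
    rw [Function.update_of_ne hi', ← hτ i hi']
    rfl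
  rw [h2]
  simp only [Option.elim]
  ring

lemma ctr_equiv {ι κ : Type} [Fintype ι] [DecidableEq ι] [Fintype κ] [DecidableEq κ] (e : ι ≃ κ)
    (σ : Equiv.Perm κ) (M : κ → Matrix (Fin m) (Fin m) R) :
    ctr σ M = ctr ((e.trans σ).trans e.symm) (fun i => M (e i)) := by
  unfold ctr
  rw [← (Equiv.arrowCongr e (Equiv.refl (Fin m))).sum_comp]
  refine Finset.sum_congr rfl fun P _ => ?_
  rw [← e.prod_comp]
  refine Finset.prod_congr rfl fun i _ => ?_
  simp [Equiv.arrowCongr]

/-- The statement that contractions of words indexed by `ι` are products of traces of words. -/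
def CtrStmt (A : Type) (ι : Type) : Prop :=
  ∀ [Fintype ι] [DecidableEq ι] (w : ι → List A) (σ : Equiv.Perm ι),
    (∀ t, w t ≠ []) → ∃ T : List (List A), (∀ v ∈ T, v ≠ []) ∧
      (T.flatten : Multiset A) = ∑ t, (w t : Multiset A) ∧
      ∀ (m : ℕ) (R : Type) [CommRing R] (mat : A → Matrix (Fin m) (Fin m) R),
        ctr σ (fun t => mw mat (w t)) = trProd mat T

lemma ctrStmt_all (A : Type) (ι : Type) [Finite ι] : CtrStmt A ι := by
  classical
  induction ι using Finite.induction_empty_option with
  | of_equiv e h =>
    rename_i α β
    intro _ _ w σ hw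
    have : Fintype α := Fintype.ofEquiv β e.symm
    obtain ⟨T, h1, h2, h3⟩ := h (fun i => w (e i)) ((e.trans σ).trans e.symm) (fun t => hw _)
    refine ⟨T, h1, ?_, ?_⟩
    · rw [h2]
      exact e.sum_comp (fun t => (w t : Multiset A))
    · intro m R _ mat
      rw [ctr_equiv e, h3]
  | h_empty =>
    intro _ _ w σ hw
    refine ⟨[], by simp, by simp, ?_⟩
    intro m R _ mat
    simp [ctr, trProd]
  | h_option h =>
    rename_i α _
    intro inst1 inst2 w σ hw
    have hinst : inst1 = instFintypeOption := Subsingleton.elim _ _
    subst hinst
    have hinst2 : inst2 = Option.instDecidableEq := Subsingleton.elim _ _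
    subst hinst2
    rcases hσ : σ none with _ | b
    · obtain ⟨T, h1, h2, h3⟩ := h (fun i => w (some i)) (Equiv.removeNone σ) (fun t => hw _)
      refine ⟨w none :: T, ?_, ?_, ?_⟩
      · intro v hv
        rcases List.mem_cons.mp hv with rfl | hv
        · exact hw none
        · exact h1 v hv
      · rw [Fintype.sum_option, ← h2, List.flatten_cons]
        rfl
      · intro m R _ mat
        have := ctr_option_none σ hσ (fun t => mw mat (w t))
        have h4 := h3 m R mat
        have h5 : trProd mat (w none :: T) = Matrix.trace (mw mat (w none)) * trProd mat T := by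
          simp [trProd]
        rw [h5, ← h4]
        exact this
    · obtain ⟨o, ho⟩ := σ.surjective none
      rcases o with _ | s
      · rw [hσ] at ho
        exact absurd ho (by simp)
      · obtain ⟨T, h1, h2, h3⟩ := h (Function.update (fun i => w (some i)) s
          (w (some s) ++ w none)) (Equiv.removeNone σ) (by
            intro t
            by_cases ht : t = s
            · subst ht
              rw [Function.update_self]
              simp [hw]
            · rw [Function.update_of_ne ht]
              exact hw _)
        refine ⟨T, h1, ?_, ?_⟩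
        · rw [h2, Fintype.sum_option, ← Finset.add_sum_erase Finset.univ _ (Finset.mem_univ s),
            ← Finset.add_sum_erase Finset.univ (fun t => (w (some t) : Multiset A))
              (Finset.mem_univ s), Function.update_self]
          have : ∑ x ∈ Finset.univ.erase s, ((Function.update (fun i => w (some i)) s
              (w (some s) ++ w none) x : List A) : Multiset A) =
              ∑ x ∈ Finset.univ.erase s, (w (some x) : Multiset A) := by
            refine Finset.sum_congr rfl fun x hx => ?_
            rw [Function.update_of_ne (Finset.ne_of_mem_erase hx)]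
          rw [this, ← Multiset.coe_add, ← add_assoc, add_comm (w none : Multiset A)]
        · intro m R _ mat
          have h4 := ctr_option_some σ b s hσ ho (fun t => mw mat (w t))
          have h5 := h3 m R mat
          have h6 : (fun t => mw mat (Function.update (fun i => w (some i)) s
              (w (some s) ++ w none) t)) = Function.update (fun i => mw mat (w (some i))) s
                (mw mat (w (some s)) * mw mat (w none)) := by
            funext t
            by_cases ht : t = s
            · subst ht
              rw [Function.update_self, Function.update_self, mw_append]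
            · rw [Function.update_of_ne ht, Function.update_of_ne ht]
          rw [h6] at h5
          rw [← h5]
          exact h4

/-- The contraction of words along a permutation is a product of traces of words. -/
theorem ctr_words {A : Type} {n : ℕ} (w : Fin n → List A) (σ : Equiv.Perm (Fin n))
    (hw : ∀ t, w t ≠ []) : ∃ T : List (List A), (∀ v ∈ T, v ≠ []) ∧
      (T.flatten : Multiset A) = ∑ t, (w t : Multiset A) ∧
      ∀ (m : ℕ) (R : Type) [CommRing R] (mat : A → Matrix (Fin m) (Fin m) R),
        ctr σ (fun t => mw mat (w t)) = trProd mat T :=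
  ctrStmt_all A (Fin n) w σ hw

end

end Pool.Agent.Helper93Trace
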