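import Mathlib

open MvPolynomial

set_option linter.unusedSectionVars false

namespace Pool.Agent.Helper93Trace

/-! ### Symmetric coefficients of homogeneous polynomials -/

section
variable {ι : Type*} [Fintype ι] [DecidableEq ι] {k : ℕ}

/-- The exponent of the monomial `∏ X (Q t)`. -/
noncomputable def typ (Q : Fin k → ι) : ι →₀ ℕ := ∑ t, Finsupp.single (Q t) 1

lemma prod_X_eq (Q : Fin k → ι) : (∏ t, X (Q t) : MvPolynomial ι ℂ) = monomial (typ Q) 1 := by
  rw [typ, monomial_sum_one]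
  rfl

lemma typ_comp (Q : Fin k → ι) (σ : Equiv.Perm (Fin k)) : typ (Q ∘ σ) = typ Q := by
  unfold typ
  exact Equiv.sum_comp σ (fun t => Finsupp.single (Q t) 1)

lemma typ_apply (Q : Fin k → ι) (i : ι) :
    typ Q i = (Finset.univ.filter fun t => Q t = i).card := by
  unfold typ
  rw [Finsupp.finsetSum_apply]
  simp [Finsupp.single_apply]

/-- Two index functions of the same type differ by a permutation. -/
lemma exists_perm_of_typ_eq {Q Q' : Fin k → ι} (h : typ Q = typ Q') :
    ∃ σ : Equiv.Perm (Fin k), Q' ∘ σ = Q := by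
  have h1 : ∀ i, (Finset.univ.filter fun t => Q t = i).card =
      (Finset.univ.filter fun t => Q' t = i).card := by
    intro i
    rw [← typ_apply, ← typ_apply, h]
  have h2 : ∀ i, Nonempty ({t // Q t = i} ≃ {t // Q' t = i}) := by
    intro i
    refine ⟨Fintype.equivOfCardEq ?_⟩
    rw [Fintype.card_subtype, Fintype.card_subtype]
    exact h1 i
  have e : ∀ i, ({t // Q t = i} ≃ {t // Q' t = i}) := fun i => (h2 i).some
  let F : Fin k ≃ Fin k := (Equiv.sigmaFiberEquiv Q).symm.trans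
    ((Equiv.sigmaCongrRight e).trans (Equiv.sigmaFiberEquiv Q'))
  refine ⟨F, ?_⟩
  funext t
  simp only [Function.comp_apply, F, Equiv.trans_apply]
  exact (e (Q t) ⟨t, rfl⟩).2

lemma exists_typ_eq (d : ι →₀ ℕ) (hd : d.degree = k) : ∃ Q : Fin k → ι, typ Q = d := by
  have hlen : (Finsupp.toMultiset d).toList.length = k := by
    rw [Multiset.length_toList, Finsupp.card_toMultiset, ← hd]
    rfl
  refine ⟨fun t => (Finsupp.toMultiset d).toList.get (t.cast hlen.symm), ?_⟩
  unfold typ
  have h1 : ∑ t : Fin k, Finsupp.single ((Finsupp.toMultiset d).toList.get (t.cast hlen.symm)) 1 =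
      ∑ t : Fin (Finsupp.toMultiset d).toList.length,
        Finsupp.single ((Finsupp.toMultiset d).toList.get t) 1 :=
    Fintype.sum_equiv (finCongr hlen.symm) _ _ (fun t => rfl)
  rw [h1]
  have h2 : ∀ l : List ι, ∑ t : Fin l.length, Finsupp.single (l.get t) (1 : ℕ) =
      Multiset.toFinsupp (l : Multiset ι) := by
    intro l
    induction l with
    | nil => simp
    | cons a l ih =>
      have h3 : ∑ t : Fin (a :: l).length, Finsupp.single ((a :: l).get t) (1 : ℕ) =
          Finsupp.single a 1 + ∑ t : Fin l.length, Finsupp.single (l.get t) (1 : ℕ) :=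
        Fin.sum_univ_succ (n := l.length) (fun t => Finsupp.single ((a :: l).get t) (1 : ℕ))
      have : ((a :: l : List ι) : Multiset ι) = {a} + (l : Multiset ι) := rfl
      rw [this, map_add, Multiset.toFinsupp_singleton, ← ih, h3]
  rw [h2, Multiset.coe_toList, Finsupp.toMultiset_toFinsupp]

/-- The symmetric coefficient of `p`. -/
noncomputable def symCoeff (p : MvPolynomial ι ℂ) (Q : Fin k → ι) : ℂ :=
  coeff (typ Q) p / ((Finset.univ.filter fun Q' : Fin k → ι => typ Q' = typ Q).card : ℂ)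

lemma symCoeff_comp (p : MvPolynomial ι ℂ) (Q : Fin k → ι) (σ : Equiv.Perm (Fin k)) :
    symCoeff p (Q ∘ σ) = symCoeff p Q := by
  rw [symCoeff, symCoeff, typ_comp]

lemma coeff_sum_words (s : (Fin k → ι) → ℂ) (d : ι →₀ ℕ) :
    coeff d (∑ Q : Fin k → ι, C (s Q) * ∏ t, X (Q t)) =
      ∑ Q ∈ Finset.univ.filter (fun Q : Fin k → ι => typ Q = d), s Q := by
  rw [coeff_sum, Finset.sum_filter]
  refine Finset.sum_congr rfl fun Q _ => ?_
  rw [coeff_C_mul, prod_X_eq, coeff_monomial]
  simp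

lemma eq_sum_symCoeff (p : MvPolynomial ι ℂ) (hp : p.IsHomogeneous k) :
    p = ∑ Q : Fin k → ι, C (symCoeff p Q) * ∏ t, X (Q t) := by
  ext d
  rw [coeff_sum_words]
  by_cases hd : d.degree = k
  · obtain ⟨Q₀, hQ₀⟩ := exists_typ_eq d hd
    have h1 : ∀ Q ∈ Finset.univ.filter (fun Q : Fin k → ι => typ Q = d),
        symCoeff p Q = coeff d p /
          ((Finset.univ.filter fun Q' : Fin k → ι => typ Q' = d).card : ℂ) := by
      intro Q hQ
      rw [symCoeff, (Finset.mem_filter.mp hQ).2]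
    rw [Finset.sum_congr rfl h1, Finset.sum_const, nsmul_eq_mul, mul_div_cancel₀]
    have : 0 < (Finset.univ.filter fun Q' : Fin k → ι => typ Q' = d).card :=
      Finset.card_pos.mpr ⟨Q₀, by simp [hQ₀]⟩
    exact_mod_cast this.ne'
  · have h0 : coeff d p = 0 := by
      by_contra h
      exact hd (by
        have h2 := hp h
        rw [Finsupp.degree_eq_weight_one]
        exact h2)
    rw [h0, Finset.sum_eq_zero]
    intro Q hQ
    rw [symCoeff, (Finset.mem_filter.mp hQ).2, h0, zero_div]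

/-- Symmetric coefficients are unique. -/
lemma sym_unique (s s' : (Fin k → ι) → ℂ) (hs : ∀ Q (σ : Equiv.Perm (Fin k)), s (Q ∘ σ) = s Q)
    (hs' : ∀ Q (σ : Equiv.Perm (Fin k)), s' (Q ∘ σ) = s' Q)
    (h : (∑ Q : Fin k → ι, C (s Q) * ∏ t, X (Q t) : MvPolynomial ι ℂ) =
      ∑ Q : Fin k → ι, C (s' Q) * ∏ t, X (Q t)) : s = s' := by
  funext Q
  have h1 := congrArg (coeff (typ Q)) h
  rw [coeff_sum_words, coeff_sum_words] at h1
  have h2 : ∀ s : (Fin k → ι) → ℂ, (∀ Q (σ : Equiv.Perm (Fin k)), s (Q ∘ σ) = s Q) →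
      ∑ Q' ∈ Finset.univ.filter (fun Q' : Fin k → ι => typ Q' = typ Q), s Q' =
        ((Finset.univ.filter (fun Q' : Fin k → ι => typ Q' = typ Q)).card : ℂ) * s Q := by
    intro s hs
    rw [← nsmul_eq_mul, ← Finset.sum_const]
    refine Finset.sum_congr rfl fun Q' hQ' => ?_
    obtain ⟨σ, hσ⟩ := exists_perm_of_typ_eq (Finset.mem_filter.mp hQ').2
    rw [← hσ, hs]
  rw [h2 s hs, h2 s' hs'] at h1
  have : 0 < (Finset.univ.filter fun Q' : Fin k → ι => typ Q' = typ Q).card :=
    Finset.card_pos.mpr ⟨Q, by simp⟩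
  exact mul_left_cancel₀ (by exact_mod_cast this.ne') h1

end

end Pool.Agent.Helper93Trace
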