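import Pool.Agent.Helper93_Trace.Counter
import Pool.Agent.Helper93_Trace.Sym

open MvPolynomial

namespace Pool.Agent.Helper93Trace

variable {m N : ℕ}

/-! ### Equivariance in coordinates -/

/-- Entries of `g` and `g⁻¹`. -/
abbrev gE (g : GL (Fin m) ℂ) (i j : Fin m) : ℂ := (g : Matrix (Fin m) (Fin m) ℂ) i j
abbrev gI (g : GL (Fin m) ℂ) (i j : Fin m) : ℂ :=
  ((g⁻¹ : GL (Fin m) ℂ) : Matrix (Fin m) (Fin m) ℂ) i j

lemma conj_X_sum (g : GL (Fin m) ℂ) (α : Fin N) (i j : Fin m) :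
    conj g (X (α, i, j) : PolyFun m N) =
      ∑ a, ∑ b, (gE g i a * gI g b j) • X (α, a, b) := by
  rw [conj_X, Matrix.mul_assoc, Matrix.mul_apply]
  refine Finset.sum_congr rfl fun a _ => ?_
  rw [Matrix.mul_apply, Finset.mul_sum]
  refine Finset.sum_congr rfl fun b _ => ?_
  simp only [constMat, Matrix.map_apply, matVar, Matrix.of_apply, MvPolynomial.algebraMap_eq,
    MvPolynomial.smul_eq_C_mul, C_mul]
  ring

lemma conj_br (B : PoissonBracket m N)
    (hB : ∀ (g : GL (Fin m) ℂ) (f h : PolyFun m N), B.br (conj g f) (conj g h) = conj g (B.br f h))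
    (g : GL (Fin m) ℂ) (α β : Fin N) (i j i' j' : Fin m) :
    conj g (B.br (X (α, i, j)) (X (β, i', j'))) =
      ∑ a, ∑ b, ∑ a', ∑ b', (gE g i a * gI g b j * (gE g i' a' * gI g b' j')) •
        B.br (X (α, a, b)) (X (β, a', b')) := by
  rw [← hB, conj_X_sum g α]
  have h1 : ∀ Y : PolyFun m N, B.br (∑ a, ∑ b, (gE g i a * gI g b j) • X (α, a, b)) Y =
      ∑ a, ∑ b, (gE g i a * gI g b j) • B.br (X (α, a, b)) Y := by
    intro Y
    simp only [map_sum, LinearMap.sum_apply, map_smul, LinearMap.smul_apply]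
  rw [h1]
  refine Finset.sum_congr rfl fun a _ => Finset.sum_congr rfl fun b _ => ?_
  rw [conj_X_sum]
  simp only [map_sum, map_smul, Finset.smul_sum, smul_smul]

/-- The tuple of matrices `g x g⁻¹`. -/
noncomputable def conjPt (g : GL (Fin m) ℂ) (x : Fin N × Fin m × Fin m → ℂ) :
    Fin N × Fin m × Fin m → ℂ := fun p =>
  ((g : Matrix (Fin m) (Fin m) ℂ) * (Matrix.of fun i j => x (p.1, i, j)) *
    ((g⁻¹ : GL (Fin m) ℂ) : Matrix (Fin m) (Fin m) ℂ)) p.2.1 p.2.2

lemma eval_conj (g : GL (Fin m) ℂ) (x : Fin N × Fin m × Fin m → ℂ) (f : PolyFun m N) :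
    eval x (conj g f) = eval (conjPt g x) f := by
  have : (aeval x).comp (conj g) = aeval (conjPt g x) := by
    apply MvPolynomial.algHom_ext
    intro p
    rw [AlgHom.comp_apply, conj_X, aeval_X]
    simp only [conjPt, constMat, Matrix.mul_apply, Matrix.map_apply, map_sum, map_mul,
      AlgHom.commutes, matVar, Matrix.of_apply, aeval_X]
    rfl
  have h2 := congrArg (fun φ => φ f) this
  simpa [MvPolynomial.coe_aeval_eq_eval] using h2

end Pool.Agent.Helper93Trace
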