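import Pool.Agent.Helper93_Trace.Defs

open MvPolynomial

namespace Pool.Agent.Helper93Trace

variable {m N : ℕ}

/-! ### Poisson brackets from two commuting derivations -/

/-- `{f, g} = D₁ f · D₂ g - D₂ f · D₁ g` for commuting derivations. -/
noncomputable def commBracket (D₁ D₂ : Derivation ℂ (PolyFun m N) (PolyFun m N))
    (h : ∀ f, D₁ (D₂ f) = D₂ (D₁ f)) : PoissonBracket m N where
  br := (LinearMap.mul ℂ (PolyFun m N)).compl₁₂ (D₁ : PolyFun m N →ₗ[ℂ] PolyFun m N)
      (D₂ : PolyFun m N →ₗ[ℂ] PolyFun m N) -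
    (LinearMap.mul ℂ (PolyFun m N)).compl₁₂ (D₂ : PolyFun m N →ₗ[ℂ] PolyFun m N)
      (D₁ : PolyFun m N →ₗ[ℂ] PolyFun m N)
  skew f g := by simp; ring
  leibniz f g h := by simp; ring
  jacobi f g k := by
    simp only [LinearMap.sub_apply, LinearMap.compl₁₂_apply, LinearMap.mul_apply', map_sub,
      Derivation.coeFn_coe, Derivation.leibniz, smul_eq_mul, h]
    ring

lemma commBracket_apply (D₁ D₂ : Derivation ℂ (PolyFun m N) (PolyFun m N)) (h) (f g) :
    (commBracket D₁ D₂ h).br f g = D₁ f * D₂ g - D₂ f * D₁ g := by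
  simp [commBracket]

lemma deriv_comm_of_X (D₁ D₂ : Derivation ℂ (PolyFun m N) (PolyFun m N))
    (h : ∀ i, D₁ (D₂ (X i)) = D₂ (D₁ (X i))) (f) : D₁ (D₂ f) = D₂ (D₁ f) := by
  have : ⁅D₁, D₂⁆ = 0 := by
    apply MvPolynomial.derivation_ext
    intro i
    rw [Derivation.commutator_apply, h]
    simp
  have h2 := congrArg (fun D => D f) this
  simp only [Derivation.commutator_apply, Derivation.zero_apply] at h2
  exact sub_eq_zero.mp h2

lemma algHom_comm_of_X (φ : PolyFun m N →ₐ[ℂ] PolyFun m N)
    (D : Derivation ℂ (PolyFun m N) (PolyFun m N))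
    (h : ∀ i, φ (D (X i)) = D (φ (X i))) (f) : φ (D f) = D (φ f) := by
  induction f using MvPolynomial.induction_on with
  | C a =>
    rw [← MvPolynomial.algebraMap_eq, Derivation.map_algebraMap, map_zero, AlgHom.commutes,
      Derivation.map_algebraMap]
  | add p q hp hq => simp only [map_add, hp, hq]
  | mul_X p i hp =>
    simp only [Derivation.leibniz, map_mul, map_add, smul_eq_mul, hp, h]

/-! ### Matrices over the polynomial ring -/

abbrev MatR (m N : ℕ) := Matrix (Fin m) (Fin m) (PolyFun m N)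

/-- Constant matrices. -/
noncomputable def constMat (g : Matrix (Fin m) (Fin m) ℂ) : MatR m N :=
  g.map (algebraMap ℂ (PolyFun m N))

lemma constMat_mul (g h : Matrix (Fin m) (Fin m) ℂ) :
    (constMat (g * h) : MatR m N) = constMat g * constMat h := by
  simp only [constMat]
  exact Matrix.map_mul

lemma constMat_one : (constMat (1 : Matrix (Fin m) (Fin m) ℂ) : MatR m N) = 1 :=
  Matrix.map_one _ (map_zero _) (map_one _)

lemma constMat_mul_inv (g : GL (Fin m) ℂ) :
    (constMat (g : Matrix (Fin m) (Fin m) ℂ) : MatR m N) *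
      constMat ((g⁻¹ : GL (Fin m) ℂ) : Matrix (Fin m) (Fin m) ℂ) = 1 := by
  rw [← constMat_mul, ← constMat_one, ← Units.val_mul, mul_inv_cancel, Units.val_one]

lemma constMat_inv_mul (g : GL (Fin m) ℂ) :
    (constMat ((g⁻¹ : GL (Fin m) ℂ) : Matrix (Fin m) (Fin m) ℂ) : MatR m N) *
      constMat (g : Matrix (Fin m) (Fin m) ℂ) = 1 := by
  rw [← constMat_mul, ← constMat_one, ← Units.val_mul, inv_mul_cancel, Units.val_one]

lemma conj_X (g : GL (Fin m) ℂ) (p : Fin N × Fin m × Fin m) :
    conj g (X p : PolyFun m N) =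
      (constMat (g : Matrix (Fin m) (Fin m) ℂ) * matVar p.1 *
        constMat ((g⁻¹ : GL (Fin m) ℂ) : Matrix (Fin m) (Fin m) ℂ) : MatR m N) p.2.1 p.2.2 := by
  simp [conj, constMat]

/-- Entrywise application of `conj g` to a matrix. -/
noncomputable def conjMat (g : GL (Fin m) ℂ) : MatR m N →ₐ[ℂ] MatR m N := (conj g).mapMatrix

lemma conjMat_apply (g : GL (Fin m) ℂ) (A : MatR m N) (i j) :
    conjMat g A i j = conj g (A i j) := rfl

lemma conjMat_matVar (g : GL (Fin m) ℂ) (α : Fin N) :
    conjMat g (matVar α : MatR m N) = constMat (g : Matrix (Fin m) (Fin m) ℂ) * matVar α *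
      constMat ((g⁻¹ : GL (Fin m) ℂ) : Matrix (Fin m) (Fin m) ℂ) := by
  ext1 i j
  rw [conjMat_apply]
  exact conj_X g (α, i, j)

lemma conj_pow {A : Type*} [Monoid A] {G G' x : A} (h : G' * G = 1) (h' : G * G' = 1) (n : ℕ) :
    (G * x * G') ^ n = G * x ^ n * G' := by
  induction n with
  | zero => simp [h']
  | succ n ih =>
    rw [pow_succ, ih, pow_succ]
    calc G * x ^ n * G' * (G * x * G') = G * x ^ n * (G' * G) * x * G' := by
          simp only [mul_assoc]
      _ = G * (x ^ n * x) * G' := by rw [h]; simp only [mul_assoc, one_mul]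

/-- Entrywise application of a derivation to a matrix. -/
noncomputable def dMat (D : Derivation ℂ (PolyFun m N) (PolyFun m N)) (A : MatR m N) :
    MatR m N := A.map D

lemma dMat_apply (D : Derivation ℂ (PolyFun m N) (PolyFun m N)) (A : MatR m N) (i j) :
    dMat D A i j = D (A i j) := rfl

lemma dMat_mul (D : Derivation ℂ (PolyFun m N) (PolyFun m N)) (A B : MatR m N) :
    dMat D (A * B) = dMat D A * B + A * dMat D B := by
  ext1 i j
  simp only [dMat_apply, Matrix.mul_apply, Matrix.add_apply, map_sum, Derivation.leibniz,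
    smul_eq_mul]
  rw [← Finset.sum_add_distrib]
  exact Finset.sum_congr rfl fun l _ => by ring

lemma dMat_add (D : Derivation ℂ (PolyFun m N) (PolyFun m N)) (A B : MatR m N) :
    dMat D (A + B) = dMat D A + dMat D B := by
  ext1 i j; simp [dMat_apply]

lemma dMat_sub (D : Derivation ℂ (PolyFun m N) (PolyFun m N)) (A B : MatR m N) :
    dMat D (A - B) = dMat D A - dMat D B := by
  ext1 i j; simp [dMat_apply]

lemma dMat_const (D : Derivation ℂ (PolyFun m N) (PolyFun m N)) (g : Matrix (Fin m) (Fin m) ℂ) :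
    dMat D (constMat g) = 0 := by
  ext1 i j
  simp only [dMat_apply, constMat, Matrix.map_apply, Matrix.zero_apply]
  exact D.map_algebraMap _

lemma dMat_one (D : Derivation ℂ (PolyFun m N) (PolyFun m N)) :
    dMat D (1 : MatR m N) = 0 := by
  rw [← constMat_one, dMat_const]

lemma dMat_pow_zero (D : Derivation ℂ (PolyFun m N) (PolyFun m N)) (A : MatR m N)
    (h : dMat D A = 0) (n : ℕ) : dMat D (A ^ n) = 0 := by
  induction n with
  | zero => simp [dMat_one]
  | succ n ih => rw [pow_succ, dMat_mul, ih, h]; simp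

lemma trace_dMat (D : Derivation ℂ (PolyFun m N) (PolyFun m N)) (A : MatR m N) :
    D (Matrix.trace A) = Matrix.trace (dMat D A) := by
  simp [Matrix.trace, dMat_apply]

/-! ### The two derivations -/

/-- The derivation with `x_α ↦ [x_α, M]`. -/
noncomputable def adDer (M : MatR m N) : Derivation ℂ (PolyFun m N) (PolyFun m N) :=
  mkDerivation ℂ fun p => (matVar p.1 * M - M * matVar p.1 : MatR m N) p.2.1 p.2.2

lemma adDer_matVar (M : MatR m N) (α : Fin N) :
    dMat (adDer M) (matVar α) = matVar α * M - M * matVar α := by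
  ext1 i j
  simp only [dMat_apply, matVar, Matrix.of_apply, adDer, mkDerivation_X]

/-- The derivation with `x_β ↦ 1` and `x_α ↦ 0` for `α ≠ β`. -/
noncomputable def shiftDer (β : Fin N) : Derivation ℂ (PolyFun m N) (PolyFun m N) :=
  mkDerivation ℂ fun p => if p.1 = β then (1 : MatR m N) p.2.1 p.2.2 else 0

lemma shiftDer_matVar (β α : Fin N) :
    dMat (shiftDer β) (matVar α : MatR m N) = if α = β then 1 else 0 := by
  ext1 i j
  simp only [dMat_apply, matVar, Matrix.of_apply, shiftDer, mkDerivation_X]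
  split_ifs <;> simp

/-- `adDer M` acts on matrix polynomials as the commutator with `M`. -/
lemma adDer_matPoly (M : MatR m N) (P : FreeAlgebra ℂ (Fin N)) :
    dMat (adDer M) (matPoly P) = matPoly P * M - M * matPoly P := by
  induction P using FreeAlgebra.induction with
  | grade0 r =>
    rw [AlgHom.commutes]
    have h : dMat (adDer M) (algebraMap ℂ (MatR m N) r) = 0 := by
      ext1 i j
      rw [dMat_apply, Matrix.algebraMap_matrix_apply]
      split_ifs
      · rw [Derivation.map_algebraMap]; rfl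
      · rw [map_zero]; rfl
    rw [h, Algebra.commutes, sub_self]
  | grade1 α =>
    have : (matPoly (FreeAlgebra.ι ℂ α) : MatR m N) = matVar α := by simp [matPoly]
    rw [this, adDer_matVar]
  | mul a b ha hb =>
    rw [map_mul, dMat_mul, ha, hb]
    noncomm_ring
  | add a b ha hb =>
    rw [map_add, dMat_add, ha, hb]
    noncomm_ring

lemma adDer_trace (M : MatR m N) (P : FreeAlgebra ℂ (Fin N)) :
    adDer M (Matrix.trace (matPoly P)) = 0 := by
  rw [trace_dMat, adDer_matPoly, Matrix.trace_sub, Matrix.trace_mul_comm, sub_self]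

lemma conj_comm_of_mat (g : GL (Fin m) ℂ) (D : Derivation ℂ (PolyFun m N) (PolyFun m N))
    (h : ∀ α, conjMat g (dMat D (matVar α)) = dMat D (conjMat g (matVar α))) (f) :
    conj g (D f) = D (conj g f) := by
  apply algHom_comm_of_X
  rintro ⟨α, i, j⟩
  have := congrFun (congrFun (h α) i) j
  simpa [conjMat_apply, dMat_apply, matVar] using this

/-! ### The counterexample -/

section
variable {n m' : ℕ}

/-- The matrix `x_1 ^ (k-1)`. -/
noncomputable def powMat (m n k : ℕ) : MatR m (n + 2) := matVar 0 ^ (k - 1)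

lemma shift_powMat (m n k : ℕ) : dMat (shiftDer (1 : Fin (n + 2))) (powMat m n k) = 0 := by
  apply dMat_pow_zero
  rw [shiftDer_matVar]
  simp

lemma commute_ad_shift (m n k : ℕ) (f : PolyFun m (n + 2)) :
    adDer (powMat m n k) (shiftDer 1 f) = shiftDer 1 (adDer (powMat m n k) f) := by
  apply deriv_comm_of_X
  rintro ⟨α, i, j⟩
  have h1 : dMat (adDer (powMat m n k)) (dMat (shiftDer (1 : Fin (n + 2))) (matVar α)) = 0 := by
    rw [shiftDer_matVar]
    split_ifs
    · exact dMat_one _
    · ext i j; simp [dMat_apply]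
  have h2 : dMat (shiftDer (1 : Fin (n + 2))) (dMat (adDer (powMat m n k)) (matVar α)) = 0 := by
    rw [adDer_matVar, dMat_sub, dMat_mul, dMat_mul, shift_powMat, shiftDer_matVar]
    split_ifs <;> simp
  have h := congrFun (congrFun (h1.trans h2.symm) i) j
  simpa [dMat_apply, matVar] using h

/-- The bracket `{x_2 ⊗ x_2} = [x_2, x_1^{k-1}] ⊗ 1 - 1 ⊗ [x_2, x_1^{k-1}]`, all other brackets of
matrix variables being determined by the two commuting derivations. -/
noncomputable def cBracket (m n k : ℕ) : PoissonBracket m (n + 2) :=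
  commBracket (adDer (powMat m n k)) (shiftDer 1) (commute_ad_shift m n k)

lemma conj_adDer (g : GL (Fin m) ℂ) (k : ℕ) (f : PolyFun m (n + 2)) :
    conj g (adDer (powMat m n k) f) = adDer (powMat m n k) (conj g f) := by
  apply conj_comm_of_mat
  intro α
  have hM : conjMat g (powMat m n k) = constMat (g : Matrix (Fin m) (Fin m) ℂ) * powMat m n k *
      constMat ((g⁻¹ : GL (Fin m) ℂ) : Matrix (Fin m) (Fin m) ℂ) := by
    rw [powMat, map_pow, conjMat_matVar, conj_pow (constMat_inv_mul g) (constMat_mul_inv g)]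
  rw [adDer_matVar, map_sub, map_mul, map_mul, hM, conjMat_matVar, dMat_mul, dMat_mul, dMat_const,
    dMat_const, adDer_matVar]
  set G : MatR m (n + 2) := constMat (g : Matrix (Fin m) (Fin m) ℂ)
  set G' : MatR m (n + 2) := constMat ((g⁻¹ : GL (Fin m) ℂ) : Matrix (Fin m) (Fin m) ℂ)
  have h : G' * G = 1 := constMat_inv_mul g
  set M := powMat m n k
  set x : MatR m (n + 2) := matVar α
  have e1 : G * x * G' * (G * M * G') = G * x * (G' * G) * M * G' := by simp only [mul_assoc]
  have e2 : G * M * G' * (G * x * G') = G * M * (G' * G) * x * G' := by simp only [mul_assoc]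
  rw [e1, e2, h]
  noncomm_ring

lemma conj_shiftDer (g : GL (Fin m) ℂ) (β : Fin N) (f : PolyFun m N) :
    conj g (shiftDer β f) = shiftDer β (conj g f) := by
  apply conj_comm_of_mat
  intro α
  rw [shiftDer_matVar, conjMat_matVar, dMat_mul, dMat_mul, dMat_const, dMat_const,
    shiftDer_matVar]
  split_ifs
  · rw [map_one, mul_one, zero_mul, mul_zero, zero_add, add_zero]
    exact (constMat_mul_inv g).symm
  · simp

lemma cBracket_isTrace (m n k : ℕ) : IsTraceBracket (cBracket m n k) := by
  refine ⟨?_, ?_⟩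
  · intro g f h
    simp only [cBracket, commBracket_apply, map_sub, map_mul, conj_adDer, conj_shiftDer]
  · intro P₁ P₂
    refine ⟨0, ?_⟩
    simp only [cBracket, commBracket_apply, adDer_trace]
    simp

lemma matVar_mul_homog {A : MatR m N} {d : ℕ} (hA : ∀ i j, (A i j).IsHomogeneous d) (α : Fin N)
    (i j) : ((matVar α * A : MatR m N) i j).IsHomogeneous (d + 1) := by
  rw [Matrix.mul_apply]
  apply MvPolynomial.IsHomogeneous.sum
  intro l _
  rw [add_comm]
  exact (isHomogeneous_X _ _).mul (hA _ _)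

lemma mul_matVar_homog {A : MatR m N} {d : ℕ} (hA : ∀ i j, (A i j).IsHomogeneous d) (α : Fin N)
    (i j) : ((A * matVar α : MatR m N) i j).IsHomogeneous (d + 1) := by
  rw [Matrix.mul_apply]
  apply MvPolynomial.IsHomogeneous.sum
  intro l _
  exact (hA _ _).mul (isHomogeneous_X _ _)

lemma powMat_homog (m n k : ℕ) (i j) : (powMat m n k i j).IsHomogeneous (k - 1) := by
  unfold powMat
  generalize k - 1 = d
  induction d generalizing i j with
  | zero =>
    rw [pow_zero, Matrix.one_apply]
    split_ifs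
    · exact isHomogeneous_one _ _
    · exact isHomogeneous_zero _ _ _
  | succ d ih => rw [pow_succ]; exact mul_matVar_homog ih 0 i j

lemma cBracket_homog (m n k : ℕ) (hk : 1 ≤ k) : IsHomogeneousBracket (cBracket m n k) k := by
  have h1 : ∀ a, (adDer (powMat m n k) (X a)).IsHomogeneous k := by
    rintro ⟨α, i, j⟩
    simp only [adDer, mkDerivation_X, Matrix.sub_apply]
    have e : k - 1 + 1 = k := by omega
    apply IsHomogeneous.sub
    · have := matVar_mul_homog (powMat_homog m n k) α i j
      rwa [e] at this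
    · have := mul_matVar_homog (powMat_homog m n k) α i j
      rwa [e] at this
  have h2 : ∀ a, (shiftDer (m := m) (1 : Fin (n + 2)) (X a)).IsHomogeneous 0 := by
    rintro ⟨α, i, j⟩
    simp only [shiftDer, mkDerivation_X]
    split_ifs
    · rw [Matrix.one_apply]
      split_ifs
      · exact isHomogeneous_one _ _
      · exact isHomogeneous_zero _ _ _
    · exact isHomogeneous_zero _ _ _
  intro a b
  simp only [cBracket, commBracket_apply]
  apply IsHomogeneous.sub
  · exact (h1 a).mul (h2 b)
  · have := (h2 a).mul (h1 b)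
    rwa [zero_add] at this

/-- Evaluation point: `x_1 = E_{00}`, `x_2 = E_{01}`, all other matrices zero. -/
def pt (m' n : ℕ) : Fin (n + 2) × Fin (m' + 3) × Fin (m' + 3) → ℂ := fun p =>
  if p.2.1 = 0 ∧ ((p.1 = 0 ∧ p.2.2 = 0) ∨ (p.1 = 1 ∧ p.2.2 = 1)) then 1 else 0

lemma fin_two_val (m' : ℕ) : ((2 : Fin (m' + 3)) : ℕ) = 2 := by
  change 2 % (m' + 3) = 2
  exact Nat.mod_eq_of_lt (by omega)

lemma fin_two_ne_zero (m' : ℕ) : (2 : Fin (m' + 3)) ≠ 0 := by
  intro h
  have := congrArg Fin.val h
  rw [fin_two_val] at this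
  simp at this

lemma fin_two_ne_one (m' : ℕ) : (2 : Fin (m' + 3)) ≠ 1 := by
  intro h
  have := congrArg Fin.val h
  rw [fin_two_val] at this
  simp at this

lemma eval_word_zero (m' n : ℕ) (w : List (Fin (n + 2))) :
    eval (pt m' n) ((wordMat w : MatR (m' + 3) (n + 2)) 0 2) = 0 := by
  induction w using List.reverseRecOn with
  | nil =>
    simp only [wordMat, List.map_nil, List.prod_nil]
    rw [Matrix.one_apply_ne (fin_two_ne_zero m').symm, map_zero]
  | append_singleton w α _ =>
    have : (wordMat (w ++ [α]) : MatR (m' + 3) (n + 2)) = wordMat w * matVar α := by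
      simp [wordMat]
    rw [this, Matrix.mul_apply, map_sum]
    apply Finset.sum_eq_zero
    intro l _
    rw [map_mul]
    have h2 : eval (pt m' n) ((matVar α : MatR (m' + 3) (n + 2)) l 2) = 0 := by
      simp only [matVar, Matrix.of_apply, eval_X, pt]
      rw [if_neg]
      rintro ⟨-, h | h⟩
      · exact fin_two_ne_zero m' h.2
      · exact fin_two_ne_one m' h.2
    rw [h2, mul_zero]

/-- The matrices at the evaluation point. -/
lemma eval_powMat (m' n k : ℕ) (hk : 2 ≤ k) (i j) :
    eval (pt m' n) (powMat (m' + 3) n k i j) = if i = 0 ∧ j = 0 then 1 else 0 := by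
  unfold powMat
  obtain ⟨d, hd⟩ : ∃ d, k - 1 = d + 1 := ⟨k - 2, by omega⟩
  rw [hd]
  clear hd
  have h0 : ∀ i j, eval (pt m' n) ((matVar 0 : MatR (m' + 3) (n + 2)) i j) =
      if i = 0 ∧ j = 0 then 1 else 0 := by
    intro i j
    simp only [matVar, Matrix.of_apply, eval_X, pt]
    congr 1
    simp
  induction d generalizing i j with
  | zero => rw [zero_add, pow_one, h0]
  | succ d ih =>
    rw [pow_succ, Matrix.mul_apply, map_sum]
    simp only [map_mul, ih, h0]
    rw [Finset.sum_eq_single 0]
    · by_cases hi : i = 0 <;> by_cases hj : j = 0 <;> simp [hi, hj]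
    · intro b _ hb
      simp [hb]
    · simp

lemma cBracket_not_star (m' n k : ℕ) (hk : 2 ≤ k) :
    ¬ IsFormStar (cBracket (m' + 3) n k) k := by
  rintro ⟨c, hc⟩
  have h := hc 1 1 0 1 2 2
  have h' := congrArg (eval (pt m' n)) h
  have hr : eval (pt m' n) (∑ a : Fin (k + 1), ∑ u : Fin a → Fin (n + 2),
      ∑ v : Fin (k - a) → Fin (n + 2), C (c 1 1 (List.ofFn u) (List.ofFn v)) *
        ((wordMat (List.ofFn u) : MatR (m' + 3) (n + 2)) 0 2 *
          (wordMat (List.ofFn v) : MatR (m' + 3) (n + 2)) 2 1)) = 0 := by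
    rw [map_sum]
    apply Finset.sum_eq_zero
    intro a _
    rw [map_sum]
    apply Finset.sum_eq_zero
    intro u _
    rw [map_sum]
    apply Finset.sum_eq_zero
    intro v _
    rw [map_mul, map_mul, eval_word_zero]
    ring
  rw [hr] at h'
  simp only [cBracket, commBracket_apply, adDer, shiftDer, mkDerivation_X, if_true, map_sub,
    map_mul, Matrix.one_apply_eq, mul_one, Matrix.sub_apply, Matrix.mul_apply, map_sum] at h'
  rw [Matrix.one_apply_ne (by simp : (0 : Fin (m' + 3)) ≠ 1)] at h'
  simp only [map_zero, zero_mul, sub_zero, eval_powMat m' n k hk] at h'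
  have h1 : ∀ l : Fin (m' + 3), eval (pt m' n) ((matVar 1 : MatR (m' + 3) (n + 2)) l 1) =
      if l = 0 then 1 else 0 := by
    intro l
    simp only [matVar, Matrix.of_apply, eval_X, pt]
    congr 1
    simp
  simp only [h1] at h'
  simp at h'

end

end Pool.Agent.Helper93Trace
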