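import Mathlib

/-!
# Trace Poisson brackets on matrix variables

Definitions for problem MP_9bafdc_mp.
-/

open MvPolynomial

namespace Pool.Agent.Helper93Trace

/-- Polynomial functions (over `ℂ`) of the entries of `N` matrices of size `m × m`.  The variable
`X (α, i, j)` is the entry of `x_α` in row `i`, column `j` (written `x^j_{i,α}` in the
problem). -/
abbrev PolyFun (m N : ℕ) : Type := MvPolynomial (Fin N × Fin m × Fin m) ℂ

/-- The matrix variable `x_α`, as a matrix over the ring of polynomial functions. -/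
noncomputable def matVar {m N : ℕ} (α : Fin N) : Matrix (Fin m) (Fin m) (PolyFun m N) :=
  Matrix.of fun i j => X (α, i, j)

/-- A Poisson bracket on polynomial functions of the entries: bilinear, antisymmetric,
a derivation in each argument, and satisfying the Jacobi identity. -/
structure PoissonBracket (m N : ℕ) where
  /-- the bracket `{f, g}` -/
  br : PolyFun m N →ₗ[ℂ] PolyFun m N →ₗ[ℂ] PolyFun m N
  skew : ∀ f g, br f g = - br g f
  leibniz : ∀ f g h, br f (g * h) = br f g * h + g * br f h
  jacobi : ∀ f g h, br f (br g h) + br g (br h f) + br h (br f g) = 0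

/-- Simultaneous conjugation `x_α ↦ g x_α g⁻¹`, as an automorphism of the algebra of polynomial
functions of the entries. -/
noncomputable def conj {m N : ℕ} (g : GL (Fin m) ℂ) : PolyFun m N →ₐ[ℂ] PolyFun m N :=
  aeval fun p : Fin N × Fin m × Fin m =>
    ((g : Matrix (Fin m) (Fin m) ℂ).map (algebraMap ℂ (PolyFun m N)) * matVar p.1 *
      ((g⁻¹ : GL (Fin m) ℂ) : Matrix (Fin m) (Fin m) ℂ).map (algebraMap ℂ (PolyFun m N)) :
        Matrix (Fin m) (Fin m) (PolyFun m N)) p.2.1 p.2.2

/-- The value of a noncommutative polynomial (an element of the free algebra on `x_1, …, x_N`) at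
the matrix variables. -/
noncomputable def matPoly {m N : ℕ} :
    FreeAlgebra ℂ (Fin N) →ₐ[ℂ] Matrix (Fin m) (Fin m) (PolyFun m N) :=
  FreeAlgebra.lift ℂ matVar

/-- Invariance of the bracket under simultaneous conjugation by `GL_m`. -/
def IsConjInvariant {m N : ℕ} (B : PoissonBracket m N) : Prop :=
  ∀ (g : GL (Fin m) ℂ) (f h : PolyFun m N), B.br (conj g f) (conj g h) = conj g (B.br f h)

/-- Trace brackets: (1) invariance under simultaneous conjugation by `GL_m`; (2) the bracket of
two traces of matrix polynomials is the trace of a matrix polynomial. -/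
def IsTraceBracket {m N : ℕ} (B : PoissonBracket m N) : Prop :=
  IsConjInvariant B ∧
  ∀ P₁ P₂ : FreeAlgebra ℂ (Fin N), ∃ P₃ : FreeAlgebra ℂ (Fin N),
    B.br (Matrix.trace (matPoly P₁)) (Matrix.trace (matPoly P₂)) = Matrix.trace (matPoly P₃)

/-- The bracket is homogeneous of degree `k`: the bracket of any two entries is a homogeneous
polynomial of degree `k` in the entries. -/
def IsHomogeneousBracket {m N : ℕ} (B : PoissonBracket m N) (k : ℕ) : Prop :=
  ∀ a b : Fin N × Fin m × Fin m, (B.br (X a) (X b)).IsHomogeneous k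

/-- The matrix `x_{w_1} x_{w_2} ⋯ x_{w_l}` of a word `w` (the identity matrix for the empty
word). -/
noncomputable def wordMat {m N : ℕ} (w : List (Fin N)) :
    Matrix (Fin m) (Fin m) (PolyFun m N) :=
  (w.map matVar).prod

/-- The bracket is of form (*) in degree `k`: there are constants `c^{u,v}_{αβ}` with
`{x^j_{i,α}, x^{j'}_{i',β}} = ∑_{|u|+|v|=k} c^{u,v}_{αβ} (u)^{j'}_i (v)^j_{i'}`. -/
def IsFormStar {m N : ℕ} (B : PoissonBracket m N) (k : ℕ) : Prop :=
  ∃ c : Fin N → Fin N → List (Fin N) → List (Fin N) → ℂ,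
    ∀ (α β : Fin N) (i j i' j' : Fin m),
      B.br (X (α, i, j)) (X (β, i', j')) =
        ∑ a : Fin (k + 1), ∑ u : Fin a → Fin N, ∑ v : Fin (k - a) → Fin N,
          C (c α β (List.ofFn u) (List.ofFn v)) *
            (wordMat (List.ofFn u) i j' * wordMat (List.ofFn v) i' j)

end Pool.Agent.Helper93Trace
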