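import Pool.Agent.Helper93_Trace.Formal

open MvPolynomial

set_option linter.unusedSectionVars false

namespace Pool.Agent.Helper93Trace

section
variable {N : ℕ} {κ : Type} [Fintype κ] [DecidableEq κ]

lemma exists_word_basis (x : Fin N → Matrix κ κ ℂ) (l : ℕ) (hx : wordSpan x l = ⊤) :
    ∃ w : κ × κ → List (Fin N), (∀ p, 1 ≤ (w p).length ∧ (w p).length ≤ l) ∧
      LinearIndependent ℂ (fun p => wv x (w p)) := by
  set S : Set (Matrix κ κ ℂ) := {A | ∃ w : List (Fin N), 1 ≤ w.length ∧ w.length ≤ l ∧ A = wv x w}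
  have hS : ⊤ ≤ Submodule.span ℂ S := le_of_eq hx.symm
  let b₀ := Module.Basis.ofSpan hS
  have hb₀ : ∀ i, b₀ i ∈ S := fun i => Module.Basis.ofSpan_subset hS ⟨i, rfl⟩
  let e := b₀.indexEquiv (Matrix.stdBasis ℂ κ κ)
  let b := b₀.reindex e
  have hb : ∀ p, b p ∈ S := by
    intro p
    rw [Module.Basis.reindex_apply]
    exact hb₀ _
  choose w h1 h2 h3 using hb
  refine ⟨w, fun p => ⟨h1 p, h2 p⟩, ?_⟩
  have : (fun p => wv x (w p)) = b := funext fun p => (h3 p).symm
  rw [this]
  exact b.linearIndependent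

/-- The entries of a matrix as a vector. -/
def vecE (κ : Type) : Matrix κ κ ℂ ≃ₗ[ℂ] (κ × κ → ℂ) where
  toFun A p := A p.1 p.2
  invFun f := Matrix.of fun i j => f (i, j)
  map_add' _ _ := rfl
  map_smul' _ _ := rfl
  left_inv _ := rfl
  right_inv _ := rfl

lemma wordSpan_of_det (x : Fin N → Matrix κ κ ℂ) (l : ℕ) (w : κ × κ → List (Fin N))
    (hw : ∀ p, 1 ≤ (w p).length ∧ (w p).length ≤ l)
    (hdet : (Matrix.of fun p q : κ × κ => wv x (w p) q.1 q.2).det ≠ 0) : wordSpan x l = ⊤ := by
  have h1 : LinearIndependent ℂ (Matrix.of fun p q : κ × κ => wv x (w p) q.1 q.2).row :=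
    Matrix.linearIndependent_rows_of_det_ne_zero hdet
  have h2 : LinearIndependent ℂ (fun p => wv x (w p)) := by
    rw [← LinearMap.linearIndependent_iff (vecE κ).toLinearMap (by
      rw [LinearMap.ker_eq_bot]; exact (vecE κ).injective)]
    exact h1
  have h3 : Submodule.span ℂ (Set.range fun p => wv x (w p)) = ⊤ := by
    apply h2.span_eq_top_of_card_eq_finrank'
    rw [Module.finrank_matrix, Module.finrank_self, mul_one, Fintype.card_prod]
  rw [eq_top_iff, ← h3]
  apply Submodule.span_mono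
  rintro _ ⟨p, rfl⟩
  exact ⟨w p, (hw p).1, (hw p).2, rfl⟩

lemma det_ne_zero_of_indep (x : Fin N → Matrix κ κ ℂ) (w : κ × κ → List (Fin N))
    (h : LinearIndependent ℂ (fun p => wv x (w p))) :
    (Matrix.of fun p q : κ × κ => wv x (w p) q.1 q.2).det ≠ 0 := by
  have h1 : LinearIndependent ℂ (Matrix.of fun p q : κ × κ => wv x (w p) q.1 q.2).row := by
    have := (LinearMap.linearIndependent_iff (vecE κ).toLinearMap (by
      rw [LinearMap.ker_eq_bot]; exact (vecE κ).injective)).mpr h
    exact this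
  have h2 := Matrix.linearIndependent_rows_iff_isUnit.mp h1
  rw [Matrix.isUnit_iff_isUnit_det] at h2
  exact h2.ne_zero

/-- A function which is polynomial along lines and vanishes at all points where the words of
length at most `l` span is zero, provided there is one such point. -/
theorem density (x₀ : Fin N → Matrix κ κ ℂ) (l : ℕ) (hx₀ : wordSpan x₀ l = ⊤)
    (f₀ : (Fin N → Matrix κ κ ℂ) → ℂ)
    (f₁ : (Fin N → Matrix κ κ (Polynomial ℂ)) → Polynomial ℂ)
    (hnat : ∀ (t : ℂ) (y : Fin N → Matrix κ κ (Polynomial ℂ)),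
      f₀ (mapT (Polynomial.aeval t) y) = Polynomial.aeval t (f₁ y))
    (hz : ∀ x, wordSpan x l = ⊤ → f₀ x = 0) (x : Fin N → Matrix κ κ ℂ) : f₀ x = 0 := by
  obtain ⟨w, hw, hind⟩ := exists_word_basis x₀ l hx₀
  let y : Fin N → Matrix κ κ (Polynomial ℂ) := fun α => Matrix.of fun i j =>
    Polynomial.C (x₀ α i j) + Polynomial.X * Polynomial.C (x α i j - x₀ α i j)
  have hy0 : mapT (Polynomial.aeval (0 : ℂ)) y = x₀ := by
    funext α
    ext i j
    simp [mapT, y]
  have hy1 : mapT (Polynomial.aeval (1 : ℂ)) y = x := by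
    funext α
    ext i j
    simp [mapT, y]
  let D : Polynomial ℂ := (Matrix.of fun p q : κ × κ => wv y (w p) q.1 q.2).det
  have hD : ∀ t : ℂ, Polynomial.aeval t D =
      (Matrix.of fun p q : κ × κ => wv (mapT (Polynomial.aeval t) y) (w p) q.1 q.2).det := by
    intro t
    rw [AlgHom.map_det]
    congr 1
    ext p q
    simp only [AlgHom.mapMatrix_apply, Matrix.map_apply, Matrix.of_apply, wv_mapT]
  have hD0 : D ≠ 0 := by
    intro h
    have := hD 0
    rw [h, map_zero, hy0] at this
    exact det_ne_zero_of_indep x₀ w hind this.symm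
  have hfD : f₁ y * D = 0 := by
    apply Polynomial.funext
    intro t
    rw [Polynomial.eval_mul, Polynomial.eval_zero]
    by_cases ht : Polynomial.aeval t D = 0
    · rw [Polynomial.coe_aeval_eq_eval] at ht
      rw [ht, mul_zero]
    · have h1 : wordSpan (mapT (Polynomial.aeval t) y) l = ⊤ :=
        wordSpan_of_det _ l w hw (by rw [← hD]; exact ht)
      have h2 := hz _ h1
      rw [hnat, Polynomial.coe_aeval_eq_eval] at h2
      rw [h2, zero_mul]
  have hf : f₁ y = 0 := (mul_eq_zero.mp hfD).resolve_right hD0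
  have := hnat 1 y
  rw [hy1, hf, map_zero] at this
  exact this

end

end Pool.Agent.Helper93Trace
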