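import Pool.Agent.Helper93_Trace.Defs
import Pool.Agent.Helper93_Trace.Sym

open MvPolynomial

namespace Pool.Agent.Helper93Trace

variable {N : ℕ}

/-! ### `m = 1`: every homogeneous Poisson bracket is of form (*) -/

lemma wordMat_one_entry {k : ℕ} (v : Fin k → Fin N) :
    (wordMat (List.ofFn v) : Matrix (Fin 1) (Fin 1) (PolyFun 1 N)) 0 0 =
      ∏ t, X (v t, (0 : Fin 1), (0 : Fin 1)) := by
  induction k with
  | zero => simp [wordMat]
  | succ k ih =>
    have h : (wordMat (List.ofFn v) : Matrix (Fin 1) (Fin 1) (PolyFun 1 N)) =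
        matVar (v 0) * wordMat (List.ofFn fun t => v t.succ) := by
      simp [wordMat, List.ofFn_succ]
    rw [h, Matrix.mul_apply, Fin.prod_univ_succ]
    simp only [Finset.univ_unique, Finset.sum_singleton]
    have := ih (fun t => v t.succ)
    rw [← this]
    rfl

lemma isFormStar_of_m_eq_one (B : PoissonBracket 1 N) (k : ℕ) (hB : IsHomogeneousBracket B k) :
    IsFormStar B k := by
  classical
  let s : Fin N → Fin N → List (Fin N) → ℂ := fun α β v =>
    if h : v.length = k then
      symCoeff (B.br (X (α, 0, 0)) (X (β, 0, 0))) (fun t : Fin k => (v.get (t.cast h.symm),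
        (0 : Fin 1), (0 : Fin 1))) else 0
  refine ⟨fun α β u v => if u = [] then s α β v else 0, ?_⟩
  intro α β i j i' j'
  have hi : i = 0 := Subsingleton.elim _ _
  have hj : j = 0 := Subsingleton.elim _ _
  have hi' : i' = 0 := Subsingleton.elim _ _
  have hj' : j' = 0 := Subsingleton.elim _ _
  subst hi hj hi' hj'
  rw [Fin.sum_univ_succ, Finset.sum_eq_zero (s := Finset.univ) (f := fun a : Fin k =>
    ∑ u : Fin a.succ → Fin N, ∑ v : Fin (k - a.succ) → Fin N,
      C (if List.ofFn u = [] then s α β (List.ofFn v) else 0) *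
        ((wordMat (List.ofFn u) : Matrix (Fin 1) (Fin 1) (PolyFun 1 N)) 0 0 *
        (wordMat (List.ofFn v) : Matrix (Fin 1) (Fin 1) (PolyFun 1 N)) 0 0))]
  · rw [add_zero]
    change _ = ∑ u : Fin 0 → Fin N, ∑ v : Fin k → Fin N,
      C (if List.ofFn u = [] then s α β (List.ofFn v) else 0) *
        ((wordMat (List.ofFn u) : Matrix (Fin 1) (Fin 1) (PolyFun 1 N)) 0 0 *
        (wordMat (List.ofFn v) : Matrix (Fin 1) (Fin 1) (PolyFun 1 N)) 0 0)
    rw [Fintype.sum_unique]
    simp only [List.ofFn_zero, if_true, wordMat_one_entry]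
    have h1 : (wordMat ([] : List (Fin N)) : Matrix (Fin 1) (Fin 1) (PolyFun 1 N)) 0 0 = 1 := by
      simp [wordMat]
    have h2 := eq_sum_symCoeff (k := k) (B.br (X (α, 0, 0)) (X (β, 0, 0))) (hB _ _)
    rw [h2]
    rw [h1]
    let e : (Fin k → Fin N × Fin 1 × Fin 1) ≃ (Fin k → Fin N) :=
      { toFun := fun Q t => (Q t).1
        invFun := fun v t => (v t, 0, 0)
        left_inv := fun Q => by
          funext t
          rw [Prod.ext_iff]
          exact ⟨rfl, Subsingleton.elim _ _⟩
        right_inv := fun v => rfl }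
    apply Fintype.sum_equiv e
    intro Q
    have hQ : ∀ t, Q t = (e Q t, (0 : Fin 1), (0 : Fin 1)) := by
      intro t
      rw [Prod.ext_iff]
      exact ⟨rfl, Subsingleton.elim _ _⟩
    have h3 : s α β (List.ofFn (e Q)) = symCoeff (B.br (X (α, 0, 0)) (X (β, 0, 0))) Q := by
      simp only [s]
      rw [dif_pos (List.length_ofFn)]
      congr 1
      funext t
      rw [hQ t]
      simp
    rw [h3, one_mul]
    congr 1
    refine Finset.prod_congr rfl fun t _ => ?_
    rw [hQ t]
  · intro a _
    apply Finset.sum_eq_zero; intro u _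
    apply Finset.sum_eq_zero; intro v _
    rw [if_neg (by simp [List.ofFn_succ])]
    simp

end Pool.Agent.Helper93Trace
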