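import Pool.Agent.Helper93_Trace.LiePoisson

open MvPolynomial

namespace Pool.Agent.Helper93Trace

variable {m N : ℕ}

/-! ### Equivariance of a Poisson bracket can be checked on variables -/

lemma equiv_aux (B : PoissonBracket m N) (φ : PolyFun m N →ₐ[ℂ] PolyFun m N) (h u : PolyFun m N)
    (hX : ∀ b, φ (B.br h (X b)) = B.br u (φ (X b))) (g : PolyFun m N) :
    φ (B.br h g) = B.br u (φ g) := by
  have hC : ∀ (f : PolyFun m N) (a : ℂ), B.br f (C a) = 0 := by
    intro f a
    have h1 : B.br f 1 = 0 := by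
      have := B.leibniz f 1 1
      rw [mul_one, mul_one, one_mul] at this
      exact left_eq_add.mp this
    have : (C a : PolyFun m N) = a • 1 := by rw [MvPolynomial.smul_eq_C_mul, mul_one]
    rw [this, map_smul, h1, smul_zero]
  induction g using MvPolynomial.induction_on with
  | C a =>
    have : φ (C a) = C a := by
      rw [← MvPolynomial.algebraMap_eq]; exact φ.commutes a
    rw [this, hC, hC, map_zero]
  | add p q hp hq => simp only [map_add, hp, hq]
  | mul_X p i hp => rw [B.leibniz, map_add, map_mul, map_mul, map_mul, hp, hX, B.leibniz]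

lemma equivariant_of_X (B : PoissonBracket m N) (φ : PolyFun m N →ₐ[ℂ] PolyFun m N)
    (hX : ∀ a b, B.br (φ (X a)) (φ (X b)) = φ (B.br (X a) (X b))) (f g : PolyFun m N) :
    B.br (φ f) (φ g) = φ (B.br f g) := by
  have h1 : ∀ a g, φ (B.br (X a) g) = B.br (φ (X a)) (φ g) := fun a g =>
    equiv_aux B φ (X a) (φ (X a)) (fun b => (hX a b).symm) g
  have h2 : ∀ b, φ (B.br g (X b)) = B.br (φ g) (φ (X b)) := by
    intro b
    rw [B.skew, map_neg, h1, B.skew (φ g)]
  have h3 := equiv_aux B φ g (φ g) h2 f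
  rw [B.skew, ← h3, ← map_neg, ← B.skew]

lemma single_sandwich {R : Type*} [CommRing R] (A B : Matrix (Fin m) (Fin m) R) (s r i j : Fin m) :
    (A * Matrix.single s r 1 * B : Matrix (Fin m) (Fin m) R) i j = A i s * B r j := by
  rw [Matrix.mul_assoc, Matrix.mul_apply, Finset.sum_eq_single s]
  · congr 1
    rw [Matrix.mul_apply, Finset.sum_eq_single r]
    · simp
    · intro b _ hb; simp [hb.symm]
    · simp
  · intro b _ hb
    rw [Matrix.mul_apply]
    rw [Finset.sum_eq_zero, mul_zero]
    intro c _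
    simp [hb.symm]
  · simp

/-- The generic conjugate `g x g⁻¹`. -/
noncomputable def cMat (g : GL (Fin m) ℂ) : MatR m 1 :=
  constMat (g : Matrix (Fin m) (Fin m) ℂ) * matVar 0 *
    constMat ((g⁻¹ : GL (Fin m) ℂ) : Matrix (Fin m) (Fin m) ℂ)

lemma dMat_cMat (D : Derivation ℂ (PolyFun m 1) (PolyFun m 1)) (g : GL (Fin m) ℂ) :
    dMat D (cMat g) = constMat (g : Matrix (Fin m) (Fin m) ℂ) * dMat D (matVar 0) *
      constMat ((g⁻¹ : GL (Fin m) ℂ) : Matrix (Fin m) (Fin m) ℂ) := by
  rw [cMat, dMat_mul, dMat_mul, dMat_const, dMat_const]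
  simp

lemma lp_X_cMat (g : GL (Fin m) ℂ) (r s i j : Fin m) :
    (lpBracket m).br (X (0, r, s)) (cMat g i j) =
      (constMat (g : Matrix (Fin m) (Fin m) ℂ) : MatR m 1) i s *
        (matVar 0 * constMat ((g⁻¹ : GL (Fin m) ℂ) : Matrix (Fin m) (Fin m) ℂ) : MatR m 1) r j -
      (constMat (g : Matrix (Fin m) (Fin m) ℂ) * matVar 0 : MatR m 1) i s *
        (constMat ((g⁻¹ : GL (Fin m) ℂ) : Matrix (Fin m) (Fin m) ℂ) : MatR m 1) r j := by
  rw [← hamDer_apply, ← dMat_apply, dMat_cMat, lp_hamDer_X]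
  set G : MatR m 1 := constMat (g : Matrix (Fin m) (Fin m) ℂ)
  set G' : MatR m 1 := constMat ((g⁻¹ : GL (Fin m) ℂ) : Matrix (Fin m) (Fin m) ℂ)
  have e : G * (matVar 0 * -Matrix.single s r 1 - -Matrix.single s r 1 * matVar 0) * G' =
      G * Matrix.single s r 1 * (matVar 0 * G') - (G * matVar 0) * Matrix.single s r 1 * G' := by
    noncomm_ring
  rw [e, Matrix.sub_apply, single_sandwich, single_sandwich]

lemma lp_cMat_dMat (g : GL (Fin m) ℂ) (i j : Fin m) :
    dMat (hamDer (lpBracket m) (cMat g i j)) (matVar 0) =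
      constMat ((g⁻¹ : GL (Fin m) ℂ) : Matrix (Fin m) (Fin m) ℂ) * Matrix.single j i 1 *
        (constMat (g : Matrix (Fin m) (Fin m) ℂ) * matVar 0) -
      (matVar 0 * constMat ((g⁻¹ : GL (Fin m) ℂ) : Matrix (Fin m) (Fin m) ℂ)) *
        Matrix.single j i 1 * constMat (g : Matrix (Fin m) (Fin m) ℂ) := by
  ext1 r s
  rw [dMat_apply, hamDer_apply, (lpBracket m).skew, Matrix.sub_apply, single_sandwich,
    single_sandwich]
  have : (matVar 0 : MatR m 1) r s = X (0, r, s) := rfl
  rw [this, lp_X_cMat]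
  ring

lemma lp_equivariant (g : GL (Fin m) ℂ) (f h : PolyFun m 1) :
    (lpBracket m).br (conj g f) (conj g h) = conj g ((lpBracket m).br f h) := by
  apply equivariant_of_X
  rintro ⟨α, i, j⟩ ⟨β, k, l⟩
  have hα : α = 0 := Subsingleton.elim _ _
  have hβ : β = 0 := Subsingleton.elim _ _
  subst hα hβ
  have hX : ∀ i j, conj g (X ((0 : Fin 1), i, j) : PolyFun m 1) = cMat g i j := by
    intro i j
    exact conj_X g (0, i, j)
  rw [hX, hX, ← hamDer_apply, ← dMat_apply, dMat_cMat, lp_cMat_dMat]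
  set G : MatR m 1 := constMat (g : Matrix (Fin m) (Fin m) ℂ) with hG
  set G' : MatR m 1 := constMat ((g⁻¹ : GL (Fin m) ℂ) : Matrix (Fin m) (Fin m) ℂ) with hG'
  have hGG : G * G' = 1 := constMat_mul_inv g
  have e : G * (G' * Matrix.single j i 1 * (G * matVar 0) -
      matVar 0 * G' * Matrix.single j i 1 * G) * G' =
      (G * G') * Matrix.single j i 1 * (G * matVar 0 * G') -
        (G * matVar 0 * G') * Matrix.single j i 1 * (G * G') := by
    noncomm_ring
  rw [e, hGG, Matrix.sub_apply, single_sandwich, single_sandwich]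
  have h1 : (lpBracket m).br (X (0, i, j)) (X (0, k, l)) =
      X (0, i, l) * (1 : MatR m 1) k j - X (0, k, j) * (1 : MatR m 1) i l := by
    simp only [lpBracket, biDer_X, lpCoef]
  have h2 : ∀ a b, conj g ((1 : MatR m 1) a b) = (1 : MatR m 1) a b := by
    intro a b
    rw [Matrix.one_apply]
    split_ifs <;> simp
  rw [h1, map_sub, map_mul, map_mul, hX, hX, h2, h2]
  change _ * cMat g i l - cMat g k j * _ = _
  ring

/-- The trace of the matrix variable. -/
noncomputable def trx (m : ℕ) : PolyFun m 1 := Matrix.trace (matVar 0)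

lemma br_pow_zero (B : PoissonBracket m N) (f c : PolyFun m N) (h : B.br f c = 0) (n : ℕ) :
    B.br f (c ^ n) = 0 := by
  induction n with
  | zero =>
    have := B.leibniz f 1 1
    rw [mul_one, mul_one, one_mul] at this
    rw [pow_zero]
    exact left_eq_add.mp this
  | succ n ih => rw [pow_succ, B.leibniz, ih, h]; ring

lemma lp_trx (m : ℕ) (f : PolyFun m 1) : (lpBracket m).br f (trx m) = 0 := by
  have := lp_trace_casimir m f (FreeAlgebra.ι ℂ 0)
  simpa [matPoly, trx] using this

/-- The bracket `tr(x)^{k-1} {·,·}_{LP}` in one matrix variable. -/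
noncomputable def oneBracket (m k : ℕ) : PoissonBracket m 1 :=
  casimirMul (lpBracket m) (trx m ^ (k - 1)) (fun f => br_pow_zero _ _ _ (lp_trx m f) _)

lemma oneBracket_apply (m k : ℕ) (f g) :
    (oneBracket m k).br f g = trx m ^ (k - 1) * (lpBracket m).br f g := rfl

lemma conj_trx (g : GL (Fin m) ℂ) : conj g (trx m) = trx m := by
  have : conj g (trx m) = Matrix.trace (conjMat g (matVar 0)) := by
    simp [trx, Matrix.trace, conjMat_apply]
  rw [this, conjMat_matVar, Matrix.trace_mul_comm, ← mul_assoc, constMat_inv_mul, one_mul, trx]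

lemma oneBracket_isTrace (m k : ℕ) : IsTraceBracket (oneBracket m k) := by
  refine ⟨?_, ?_⟩
  · intro g f h
    rw [oneBracket_apply, oneBracket_apply, lp_equivariant, map_mul, map_pow, conj_trx]
  · intro P₁ P₂
    refine ⟨0, ?_⟩
    rw [oneBracket_apply, lp_trace_casimir]
    simp

lemma one_homog (i j : Fin m) : ((1 : MatR m N) i j).IsHomogeneous 0 := by
  rw [Matrix.one_apply]
  split_ifs
  · exact isHomogeneous_one _ _
  · exact isHomogeneous_zero _ _ _

lemma oneBracket_homog (m k : ℕ) (hk : 1 ≤ k) : IsHomogeneousBracket (oneBracket m k) k := by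
  intro a b
  rw [oneBracket_apply]
  have h1 : (trx m).IsHomogeneous 1 := by
    unfold trx Matrix.trace
    exact IsHomogeneous.sum _ _ _ fun i _ => isHomogeneous_X _ _
  have h2 : ((lpBracket m).br (X a) (X b)).IsHomogeneous 1 := by
    simp only [lpBracket, biDer_X, lpCoef]
    exact ((isHomogeneous_X _ _).mul (one_homog _ _)).sub
      ((isHomogeneous_X _ _).mul (one_homog _ _))
  have h3 := (h1.pow (k - 1)).mul h2
  have e : 1 * (k - 1) + 1 = k := by omega
  rwa [e] at h3

/-- Evaluation point `diag(1, 0, s, 0, …)`. -/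
def ptS (m' : ℕ) (s : ℂ) : Fin 1 × Fin (m' + 3) × Fin (m' + 3) → ℂ := fun p =>
  if p.2.1 = p.2.2 then (if p.2.1 = 0 then 1 else if p.2.1 = 2 then s else 0) else 0

lemma ptS_word (m' : ℕ) (s : ℂ) (w : List (Fin 1)) :
    eval (ptS m' s) ((wordMat w : MatR (m' + 3) 1) 0 0) = 1 ∧
    eval (ptS m' s) ((wordMat w : MatR (m' + 3) 1) 1 1) = if w = [] then 1 else 0 := by
  induction w using List.reverseRecOn with
  | nil => simp [wordMat]
  | append_singleton w α ih =>
    have hα : α = 0 := Subsingleton.elim _ _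
    subst hα
    have hw : (wordMat (w ++ [0]) : MatR (m' + 3) 1) = wordMat w * matVar 0 := by
      simp [wordMat]
    rw [hw]
    constructor
    · rw [Matrix.mul_apply, map_sum, Finset.sum_eq_single 0]
      · rw [map_mul, ih.1]
        simp [matVar, ptS]
      · intro b _ hb
        simp [matVar, ptS, hb]
      · simp
    · rw [Matrix.mul_apply, map_sum]
      rw [if_neg (by simp)]
      apply Finset.sum_eq_zero
      intro b _
      rw [map_mul]
      have : eval (ptS m' s) ((matVar 0 : MatR (m' + 3) 1) b 1) = 0 := by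
        simp only [matVar, Matrix.of_apply, eval_X, ptS]
        split_ifs with h1 h2 h3
        · rw [h1] at h2; simp at h2
        · rw [h1] at h3; exact absurd h3.symm (fin_two_ne_one m')
        · rfl
        · rfl
      rw [this, mul_zero]

lemma oneBracket_not_star (m' k : ℕ) (hk : 2 ≤ k) : ¬ IsFormStar (oneBracket (m' + 3) k) k := by
  rintro ⟨c, hc⟩
  have h := hc 0 0 0 1 1 0
  have hval : ∀ s : ℂ, eval (ptS m' s) ((oneBracket (m' + 3) k).br (X (0, 0, 1)) (X (0, 1, 0))) =
      (1 + s) ^ (k - 1) := by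
    intro s
    rw [oneBracket_apply, map_mul, map_pow]
    have h1 : eval (ptS m' s) (trx (m' + 3)) = 1 + s := by
      rw [trx, Matrix.trace, map_sum]
      have : ∀ i : Fin (m' + 3), eval (ptS m' s) (Matrix.diag (matVar (0 : Fin 1)) i) =
          (if i = 0 then 1 else 0) + (if i = 2 then s else 0) := by
        intro i
        simp only [Matrix.diag, matVar, Matrix.of_apply, eval_X, ptS, if_true]
        by_cases h0 : i = 0
        · have : ¬ i = 2 := by rw [h0]; exact (fin_two_ne_zero m').symm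
          simp [h0, this, (fin_two_ne_zero m').symm]
        · by_cases h2 : i = 2 <;> simp [h0, h2, fin_two_ne_zero]
      simp only [this, Finset.sum_add_distrib, Finset.sum_ite_eq', Finset.mem_univ, if_true]
    have h2 : eval (ptS m' s) ((lpBracket (m' + 3)).br (X (0, 0, 1)) (X (0, 1, 0))) = 1 := by
      simp only [lpBracket, biDer_X, lpCoef, Matrix.one_apply_eq, map_sub, map_mul, eval_X, ptS,
        map_one]
      simp [(fin_two_ne_one m').symm]
    rw [h1, h2, mul_one]
  have hrhs : ∀ s : ℂ, eval (ptS m' s) (∑ a : Fin (k + 1), ∑ u : Fin a → Fin 1,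
      ∑ v : Fin (k - a) → Fin 1, C (c 0 0 (List.ofFn u) (List.ofFn v)) *
        ((wordMat (List.ofFn u) : MatR (m' + 3) 1) 0 0 *
          (wordMat (List.ofFn v) : MatR (m' + 3) 1) 1 1)) =
      ∑ a : Fin (k + 1), ∑ u : Fin a → Fin 1, ∑ v : Fin (k - a) → Fin 1,
        c 0 0 (List.ofFn u) (List.ofFn v) * (1 * if List.ofFn v = [] then 1 else 0) := by
    intro s
    simp only [map_sum, map_mul, eval_C, (ptS_word m' s _).1, (ptS_word m' s _).2]
  have h0 := congrArg (eval (ptS m' 0)) h
  have h1 := congrArg (eval (ptS m' 1)) h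
  rw [hval, hrhs] at h0 h1
  rw [← h0] at h1
  rw [add_zero, one_pow] at h1
  have h2 : (1 + 1 : ℂ) ^ (k - 1) = ((2 ^ (k - 1) : ℕ) : ℂ) := by push_cast; norm_num
  rw [h2] at h1
  have h3 : 2 ^ (k - 1) = 1 := by exact_mod_cast h1
  have h4 : 1 < 2 ^ (k - 1) := Nat.one_lt_two_pow (by omega)
  omega

end Pool.Agent.Helper93Trace
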