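import Pool.Agent.Helper93_Trace.Coord

open MvPolynomial

namespace Pool.Agent.Helper93Trace

/-! ### `m = 2`, `N = 1`: every homogeneous trace Poisson bracket is of form (*) -/

/-- A diagonal matrix, as an evaluation point in one matrix variable. -/
def dPt {m : ℕ} (lam : Fin m → ℂ) : Fin 1 × Fin m × Fin m → ℂ := fun p =>
  if p.2.1 = p.2.2 then lam p.2.1 else 0

lemma eval_matPoly_dPt {m : ℕ} (P : FreeAlgebra ℂ (Fin 1)) : ∃ q : Polynomial ℂ,
    ∀ (lam : Fin m → ℂ) (i j : Fin m), eval (dPt lam) ((matPoly P : MatR m 1) i j) =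
      if i = j then q.eval (lam i) else 0 := by
  induction P using FreeAlgebra.induction with
  | grade0 r =>
    refine ⟨Polynomial.C r, fun lam i j => ?_⟩
    rw [AlgHom.commutes, Matrix.algebraMap_matrix_apply]
    split_ifs <;> simp
  | grade1 α =>
    refine ⟨Polynomial.X, fun lam i j => ?_⟩
    simp [matPoly, matVar, dPt]
  | mul p q hp hq =>
    obtain ⟨p', hp'⟩ := hp
    obtain ⟨q', hq'⟩ := hq
    refine ⟨p' * q', fun lam i j => ?_⟩
    rw [map_mul, Matrix.mul_apply, map_sum]
    simp only [map_mul, hp', hq']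
    rw [Finset.sum_eq_single i]
    · by_cases h : i = j
      · subst h; simp
      · simp [h]
    · intro b _ hb
      simp [hb.symm]
    · simp
  | add p q hp hq =>
    obtain ⟨p', hp'⟩ := hp
    obtain ⟨q', hq'⟩ := hq
    refine ⟨p' + q', fun lam i j => ?_⟩
    rw [map_add, Matrix.add_apply, map_add, hp', hq']
    split_ifs <;> simp

lemma eval_trace_dPt {m : ℕ} (P : FreeAlgebra ℂ (Fin 1)) : ∃ q : Polynomial ℂ,
    ∀ (lam : Fin m → ℂ), eval (dPt lam) (Matrix.trace (matPoly P : MatR m 1)) =
      ∑ i, q.eval (lam i) := by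
  obtain ⟨q, hq⟩ := eval_matPoly_dPt (m := m) P
  refine ⟨q, fun lam => ?_⟩
  rw [Matrix.trace, map_sum]
  exact Finset.sum_congr rfl fun i _ => by rw [Matrix.diag_apply, hq]; simp

/-- Density of the diagonalizable matrices for `m = 2`. -/
lemma eq_zero_of_diag (p : PolyFun 2 1)
    (h : ∀ (g : GL (Fin 2) ℂ) (a b : ℂ), a ≠ b → eval (conjPt g (dPt ![a, b])) p = 0) : p = 0 := by
  let x01 : PolyFun 2 1 := X (0, 0, 1)
  let disc : PolyFun 2 1 := (X (0, 0, 0) - X (0, 1, 1)) ^ 2 + 4 * X (0, 0, 1) * X (0, 1, 0)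
  have hne : x01 * disc ≠ 0 := by
    intro h0
    have := congrArg (eval (fun q : Fin 1 × Fin 2 × Fin 2 =>
      if q = (0, 0, 1) then (1 : ℂ) else if q = (0, 0, 0) then 1 else 0)) h0
    simp [x01, disc] at this
  have hz : p * (x01 * disc) = 0 := by
    apply MvPolynomial.funext
    intro x
    rw [map_mul, map_zero]
    by_cases hx : eval x (x01 * disc) = 0
    · rw [hx, mul_zero]
    · have hxx : x (0, 0, 1) * ((x (0, 0, 0) - x (0, 1, 1)) ^ 2 + 4 * x (0, 0, 1) * x (0, 1, 0)) ≠
          0 := by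
        simpa [x01, disc] using hx
      set P := x (0, 0, 0) with hP
      set Q := x (0, 0, 1) with hQ
      set R := x (0, 1, 0) with hR
      set S := x (0, 1, 1) with hS
      have hQ0 : Q ≠ 0 := left_ne_zero_of_mul hxx
      have hd0 : (P - S) ^ 2 + 4 * Q * R ≠ 0 := right_ne_zero_of_mul hxx
      obtain ⟨s, hs⟩ := IsAlgClosed.exists_pow_nat_eq ((P - S) ^ 2 + 4 * Q * R) (n := 2) (by norm_num)
      have hs0 : s ≠ 0 := by
        rintro rfl
        apply hd0
        rw [← hs]; ring
      set a := (P + S + s) / 2 with ha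
      set b := (P + S - s) / 2 with hb
      have hab : a ≠ b := by
        intro h
        apply hs0
        have : s = a - b := by rw [ha, hb]; ring
        rw [this, h, sub_self]
      let G : Matrix (Fin 2) (Fin 2) ℂ := !![Q, Q; a - P, b - P]
      have hdet : G.det ≠ 0 := by
        rw [Matrix.det_fin_two_of]
        have : Q * (b - P) - Q * (a - P) = Q * (b - a) := by ring
        rw [this]
        exact mul_ne_zero hQ0 (sub_ne_zero.mpr hab.symm)
      let g : GL (Fin 2) ℂ := Matrix.GeneralLinearGroup.mkOfDetNeZero G hdet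
      have hgG : (g : Matrix (Fin 2) (Fin 2) ℂ) = G := rfl
      have hxG : (Matrix.of fun i j => x (0, i, j)) * G =
          G * (Matrix.of fun i j => dPt ![a, b] ((0 : Fin 1), i, j)) := by
        ext i j
        fin_cases i <;> fin_cases j <;>
          simp [Matrix.mul_apply, Fin.sum_univ_two, G, dPt, ← hP, ← hQ, ← hR, ← hS]
        · ring
        · ring
        · have : 4 * (R * Q + S * (a - P)) = 4 * ((a - P) * a) := by
            rw [ha]
            linear_combination (-1 : ℂ) * hs
          linear_combination this / 4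
        · have : 4 * (R * Q + S * (b - P)) = 4 * ((b - P) * b) := by
            rw [hb]
            linear_combination (-1 : ℂ) * hs
          linear_combination this / 4
      have hx' : x = conjPt g (dPt ![a, b]) := by
        funext q
        obtain ⟨α, i, j⟩ := q
        have hα : α = 0 := Subsingleton.elim _ _
        subst hα
        have h1 : (Matrix.of fun i j => x (0, i, j)) = (g : Matrix (Fin 2) (Fin 2) ℂ) *
            (Matrix.of fun i j => dPt ![a, b] ((0 : Fin 1), i, j)) *
            ((g⁻¹ : GL (Fin 2) ℂ) : Matrix (Fin 2) (Fin 2) ℂ) := by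
          rw [hgG, ← hxG, ← hgG, mul_assoc, ← Units.val_mul, mul_inv_cancel, Units.val_one,
            mul_one]
        have h2 := congrFun (congrFun h1 i) j
        exact h2
      rw [hx', h g a b hab, zero_mul]
  exact (mul_eq_zero.mp hz).resolve_right hne

/-- The values of the bracket of two entries at a diagonal matrix. -/
noncomputable def fD {m : ℕ} (B : PoissonBracket m 1) (lam : Fin m → ℂ) (i j i' j' : Fin m) : ℂ :=
  eval (dPt lam) (B.br (X (0, i, j)) (X (0, i', j')))

lemma fD_skew {m : ℕ} (B : PoissonBracket m 1) (lam : Fin m → ℂ) (i j i' j' : Fin m) :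
    fD B lam i j i' j' = - fD B lam i' j' i j := by
  rw [fD, fD, B.skew, map_neg]

lemma fD_self {m : ℕ} (B : PoissonBracket m 1) (lam : Fin m → ℂ) (i j : Fin m) :
    fD B lam i j i j = 0 := by
  have := fD_skew B lam i j i j
  linear_combination this / 2

/-- A polynomial of degree `k` at a diagonal `2 × 2` matrix. -/
lemma eval_homog_dPt (p : PolyFun 2 1) (k : ℕ) (hp : p.IsHomogeneous k) :
    ∃ c : ℕ → ℂ, ∀ a b : ℂ, eval (dPt ![a, b]) p = ∑ r ∈ Finset.range (k + 1), c r * (a ^ r *
      b ^ (k - r)) := by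
  classical
  have hword : ∀ Q : Fin k → Fin 1 × Fin 2 × Fin 2, ∃ c : ℕ → ℂ, ∀ a b : ℂ,
      ∏ t, dPt ![a, b] (Q t) = ∑ r ∈ Finset.range (k + 1), c r * (a ^ r * b ^ (k - r)) := by
    clear hp p
    induction k with
    | zero => intro Q; exact ⟨fun _ => 1, fun a b => by simp⟩
    | succ k ih =>
      intro Q
      obtain ⟨c, hc⟩ := ih (fun t => Q t.succ)
      by_cases h0 : (Q 0).2.1 = (Q 0).2.2
      · by_cases h1 : (Q 0).2.1 = 0
        · refine ⟨fun r => if r = 0 then 0 else c (r - 1), fun a b => ?_⟩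
          rw [Fin.prod_univ_succ, hc, Finset.sum_range_succ' _ (k + 1)]
          have : dPt ![a, b] (Q 0) = a := by
            rw [dPt, if_pos h0, h1]; rfl
          rw [this, Finset.mul_sum]
          simp only [Nat.succ_ne_zero, if_false, if_true, zero_mul, add_zero]
          refine Finset.sum_congr rfl fun r _ => ?_
          rw [Nat.add_sub_cancel, Nat.add_sub_add_right]
          ring
        · refine ⟨fun r => if r = k + 1 then 0 else c r, fun a b => ?_⟩
          rw [Fin.prod_univ_succ, hc, Finset.sum_range_succ _ (k + 1)]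
          have h1' : (Q 0).2.1 = 1 := by
            have := Fin.exists_fin_two.mp ⟨(Q 0).2.1, rfl⟩
            rcases this with h | h
            · exact absurd h h1
            · exact h
          have : dPt ![a, b] (Q 0) = b := by
            rw [dPt, if_pos h0, h1']; rfl
          rw [this, Finset.mul_sum]
          simp only [if_true, zero_mul, add_zero]
          refine Finset.sum_congr rfl fun r hr => ?_
          rw [Finset.mem_range] at hr
          rw [if_neg (by omega), Nat.succ_sub (by omega), pow_succ]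
          ring
      · refine ⟨fun _ => 0, fun a b => ?_⟩
        rw [Fin.prod_univ_succ]
        simp [dPt, h0]
  choose c hc using hword
  refine ⟨fun r => ∑ Q : Fin k → Fin 1 × Fin 2 × Fin 2, symCoeff p Q * c Q r, fun a b => ?_⟩
  conv_lhs => rw [eq_sum_symCoeff p hp]
  rw [map_sum]
  simp only [map_mul, eval_C, map_prod, eval_X, hc, Finset.mul_sum, Finset.sum_mul]
  rw [Finset.sum_comm]
  refine Finset.sum_congr rfl fun r _ => Finset.sum_congr rfl fun Q _ => ?_
  ring

section
variable (B : PoissonBracket 2 1) (k : ℕ)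

/-- The group element `diag(2,1)`. -/
noncomputable def gTor : GL (Fin 2) ℂ :=
  Matrix.GeneralLinearGroup.mkOfDetNeZero !![2, 0; 0, 1] (by simp [Matrix.det_fin_two_of])

lemma gTor_coe : ((gTor : GL (Fin 2) ℂ) : Matrix (Fin 2) (Fin 2) ℂ) = !![2, 0; 0, 1] := rfl

lemma gTor_inv_coe : ((gTor⁻¹ : GL (Fin 2) ℂ) : Matrix (Fin 2) (Fin 2) ℂ) = !![1/2, 0; 0, 1] := by
  have : (gTor : GL (Fin 2) ℂ) * Matrix.GeneralLinearGroup.mkOfDetNeZero !![1/2, 0; 0, 1]
      (by simp [Matrix.det_fin_two_of]) = 1 := by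
    apply Units.ext
    rw [Units.val_mul, gTor_coe]
    change !![(2 : ℂ), 0; 0, 1] * !![1/2, 0; 0, 1] = 1
    ext i j
    fin_cases i <;> fin_cases j <;> simp [Matrix.mul_apply, Fin.sum_univ_two]
  rw [inv_eq_of_mul_eq_one_right this]
  rfl

/-- The permutation matrix. -/
noncomputable def gSw : GL (Fin 2) ℂ :=
  Matrix.GeneralLinearGroup.mkOfDetNeZero !![0, 1; 1, 0] (by simp [Matrix.det_fin_two_of])

lemma gSw_coe : ((gSw : GL (Fin 2) ℂ) : Matrix (Fin 2) (Fin 2) ℂ) = !![0, 1; 1, 0] := rfl

lemma gSw_inv_coe : ((gSw⁻¹ : GL (Fin 2) ℂ) : Matrix (Fin 2) (Fin 2) ℂ) = !![0, 1; 1, 0] := by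
  have : (gSw : GL (Fin 2) ℂ) * gSw = 1 := by
    apply Units.ext
    rw [Units.val_mul, gSw_coe]
    ext i j
    fin_cases i <;> fin_cases j <;> simp [Matrix.mul_apply, Fin.sum_univ_two]
  rw [inv_eq_of_mul_eq_one_right this]
  rfl

lemma conjPt_tor (a b : ℂ) : conjPt gTor (dPt ![a, b]) = dPt ![a, b] := by
  funext p
  obtain ⟨α, i, j⟩ := p
  simp only [conjPt, gTor_coe, gTor_inv_coe]
  fin_cases i <;> fin_cases j <;> simp [Matrix.mul_apply, Fin.sum_univ_two, dPt, Matrix.vecHead,
    Matrix.vecTail]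
  ring

lemma conjPt_sw (a b : ℂ) : conjPt gSw (dPt ![a, b]) = dPt ![b, a] := by
  funext p
  obtain ⟨α, i, j⟩ := p
  simp only [conjPt, gSw_coe, gSw_inv_coe]
  fin_cases i <;> fin_cases j <;> simp [Matrix.mul_apply, Fin.sum_univ_two, dPt, Matrix.vecHead,
    Matrix.vecTail]

variable {B} in
lemma fD_tor (hB : IsTraceBracket B) (a b : ℂ) (i j i' j' : Fin 2) :
    fD B ![a, b] i j i' j' = gE gTor i i * gI gTor j j * (gE gTor i' i' * gI gTor j' j') *
      fD B ![a, b] i j i' j' := by
  have h := congrArg (eval (dPt ![a, b])) (conj_br B hB.1 gTor 0 0 i j i' j')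
  rw [eval_conj, conjPt_tor] at h
  simp only [gE, gI, gTor_coe, gTor_inv_coe, map_sum, smul_eval, Fin.sum_univ_two] at h ⊢
  simp only [fD]
  fin_cases i <;> fin_cases j <;> fin_cases i' <;> fin_cases j' <;> simpa using h

variable {B} in
lemma fD_sw (hB : IsTraceBracket B) (a b : ℂ) :
    fD B ![b, a] 0 1 1 0 = fD B ![a, b] 1 0 0 1 := by
  have h := congrArg (eval (dPt ![a, b])) (conj_br B hB.1 gSw 0 0 0 1 1 0)
  rw [eval_conj, conjPt_sw] at h
  simp only [gE, gI, gSw_coe, gSw_inv_coe, map_sum, smul_eval, Fin.sum_univ_two] at h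
  simp only [fD]
  simpa using h

/-- `{x_00, x_11}` vanishes at diagonal matrices with distinct eigenvalues. -/
lemma fD_h (hB : IsTraceBracket B) (a b : ℂ) (hab : a ≠ b) : fD B ![a, b] 0 0 1 1 = 0 := by
  obtain ⟨P₃, hP₃⟩ := hB.2 (FreeAlgebra.ι ℂ 0) (FreeAlgebra.ι ℂ 0 * FreeAlgebra.ι ℂ 0)
  obtain ⟨q, hq⟩ := eval_trace_dPt (m := 2) P₃
  have key : ∀ a b : ℂ, 2 * (b - a) * fD B ![a, b] 0 0 1 1 = q.eval a + q.eval b := by
    intro a b
    have h := congrArg (eval (dPt ![a, b])) hP₃
    rw [hq] at h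
    have h1 : (matPoly (FreeAlgebra.ι ℂ 0) : MatR 2 1) = matVar 0 := by simp [matPoly]
    rw [map_mul, h1, Matrix.trace_fin_two, Matrix.trace_fin_two, Matrix.mul_apply,
      Matrix.mul_apply] at h
    simp only [Fin.sum_univ_two, matVar, Matrix.of_apply, map_add, LinearMap.add_apply,
      B.leibniz, map_mul, eval_X] at h
    have e1 := fD_self B ![a, b] 0 0
    have e2 := fD_self B ![a, b] 1 1
    have e3 := fD_skew B ![a, b] 1 1 0 0
    have d00 : dPt ![a, b] ((0 : Fin 1), (0 : Fin 2), (0 : Fin 2)) = a := by simp [dPt]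
    have d01 : dPt ![a, b] ((0 : Fin 1), (0 : Fin 2), (1 : Fin 2)) = 0 := by simp [dPt]
    have d10 : dPt ![a, b] ((0 : Fin 1), (1 : Fin 2), (0 : Fin 2)) = 0 := by simp [dPt]
    have d11 : dPt ![a, b] ((0 : Fin 1), (1 : Fin 2), (1 : Fin 2)) = b := by simp [dPt]
    rw [d00, d01, d10, d11] at h
    simp only [fD] at e1 e2 e3 ⊢
    simp only [Matrix.cons_val_zero, Matrix.cons_val_one] at h
    rw [← h, e1, e2, e3]
    ring
  have hq0 : ∀ a, q.eval a = 0 := by
    intro a
    have := key a a
    rw [sub_self, mul_zero, zero_mul] at this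
    linear_combination (-1 / 2 : ℂ) * this
  have := key a b
  rw [hq0, hq0, add_zero] at this
  have h2 : (2 : ℂ) * (b - a) ≠ 0 := mul_ne_zero two_ne_zero (sub_ne_zero.mpr hab.symm)
  exact (mul_eq_zero.mp this).resolve_left h2

end

/-- The bracket of form (*) with coefficients `c`. -/
noncomputable def starT (m : ℕ) (k : ℕ) (c : ℕ → ℂ) (i j i' j' : Fin m) : PolyFun m 1 :=
  ∑ r ∈ Finset.range (k + 1), C (c r) *
    (((matVar 0 : MatR m 1) ^ r) i j' * ((matVar 0 : MatR m 1) ^ (k - r)) i' j)

lemma eval_pow_dPt {m : ℕ} (lam : Fin m → ℂ) (r : ℕ) (i j : Fin m) :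
    eval (dPt lam) (((matVar 0 : MatR m 1) ^ r) i j) = if i = j then lam i ^ r else 0 := by
  induction r generalizing i j with
  | zero => rw [pow_zero, Matrix.one_apply]; split_ifs <;> simp
  | succ r ih =>
    rw [pow_succ, Matrix.mul_apply, map_sum]
    simp only [map_mul, ih]
    rw [Finset.sum_eq_single i]
    · simp only [matVar, Matrix.of_apply, eval_X, dPt, if_true]
      split_ifs
      · rw [pow_succ]
      · rw [mul_zero]
    · intro b _ hb
      simp [hb.symm]
    · simp

lemma conj_pow_entry {m : ℕ} (g : GL (Fin m) ℂ) (r : ℕ) (i j : Fin m) :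
    conj g (((matVar 0 : MatR m 1) ^ r) i j) =
      ∑ a, ∑ b, (gE g i a * gI g b j) • ((matVar 0 : MatR m 1) ^ r) a b := by
  rw [← conjMat_apply, map_pow, conjMat_matVar, conj_pow (constMat_inv_mul g)
    (constMat_mul_inv g), Matrix.mul_assoc, Matrix.mul_apply]
  refine Finset.sum_congr rfl fun a _ => ?_
  rw [Matrix.mul_apply, Finset.mul_sum]
  refine Finset.sum_congr rfl fun b _ => ?_
  simp only [constMat, Matrix.map_apply, MvPolynomial.algebraMap_eq,
    MvPolynomial.smul_eq_C_mul, C_mul]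
  ring

lemma conj_starT {m : ℕ} (g : GL (Fin m) ℂ) (k : ℕ) (c : ℕ → ℂ) (i j i' j' : Fin m) :
    conj g (starT m k c i j i' j') =
      ∑ a, ∑ b, ∑ a', ∑ b', (gE g i a * gI g b j * (gE g i' a' * gI g b' j')) •
        starT m k c a b a' b' := by
  have h : ∀ r, conj g (C (c r) *
      (((matVar 0 : MatR m 1) ^ r) i j' * ((matVar 0 : MatR m 1) ^ (k - r)) i' j)) =
      ∑ a, ∑ b, ∑ a', ∑ b', (gE g i a * gI g b j * (gE g i' a' * gI g b' j')) •
        (C (c r) * (((matVar 0 : MatR m 1) ^ r) a b' * ((matVar 0 : MatR m 1) ^ (k - r)) a' b)) := by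
    intro r
    have hC : conj g (C (c r) : PolyFun m 1) = C (c r) := by
      rw [← MvPolynomial.algebraMap_eq]; exact (conj g).commutes _
    rw [map_mul, map_mul, hC, conj_pow_entry, conj_pow_entry]
    rw [Finset.sum_mul, Finset.mul_sum]
    refine Finset.sum_congr rfl fun a _ => ?_
    rw [Finset.sum_mul, Finset.mul_sum]
    simp only [Finset.mul_sum]
    rw [Finset.sum_comm]
    have : ∀ (F : Fin m → Fin m → Fin m → PolyFun m 1),
        ∑ a', ∑ b', ∑ b, F a' b' b = ∑ b, ∑ a', ∑ b', F a' b' b := by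
      intro F
      rw [Finset.sum_comm]
      rw [Finset.sum_congr rfl (fun b' _ => Finset.sum_comm)]
      rw [Finset.sum_comm]
      refine Finset.sum_congr rfl fun b _ => ?_
      rw [Finset.sum_comm]
    rw [Finset.sum_congr rfl (fun a' _ => Finset.sum_comm)]
    rw [Finset.sum_comm]
    refine Finset.sum_congr rfl fun b _ => ?_
    refine Finset.sum_congr rfl fun a' _ => ?_
    refine Finset.sum_congr rfl fun b' _ => ?_
    simp only [MvPolynomial.smul_eq_C_mul, C_mul]
    ring
  unfold starT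
  rw [map_sum]
  simp only [h, Finset.smul_sum]
  rw [Finset.sum_comm]
  refine Finset.sum_congr rfl fun a _ => ?_
  rw [Finset.sum_comm]
  refine Finset.sum_congr rfl fun b _ => ?_
  rw [Finset.sum_comm]
  refine Finset.sum_congr rfl fun a' _ => ?_
  rw [Finset.sum_comm]

lemma starT_formStar {m : ℕ} (B : PoissonBracket m 1) (k : ℕ) (c : ℕ → ℂ)
    (h : ∀ i j i' j', B.br (X (0, i, j)) (X (0, i', j')) = starT m k c i j i' j') :
    IsFormStar B k := by
  refine ⟨fun _ _ u _ => c u.length, ?_⟩
  intro α β i j i' j'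
  have hα : α = 0 := Subsingleton.elim _ _
  have hβ : β = 0 := Subsingleton.elim _ _
  subst hα hβ
  rw [h, starT, Finset.sum_range]
  refine Finset.sum_congr rfl fun a _ => ?_
  rw [Fintype.sum_unique, Fintype.sum_unique]
  have hw : ∀ (n : ℕ) (u : Fin n → Fin 1), (wordMat (List.ofFn u) : MatR m 1) = matVar 0 ^ n := by
    intro n u
    have : List.ofFn u = List.replicate n 0 := by
      rw [List.eq_replicate_iff]
      exact ⟨List.length_ofFn, fun b _ => Subsingleton.elim _ _⟩
    rw [this]
    simp [wordMat]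
  rw [hw, hw]
  simp only [List.length_ofFn]

theorem isFormStar_two_one (B : PoissonBracket 2 1) (k : ℕ) (hB : IsTraceBracket B)
    (hk : IsHomogeneousBracket B k) : IsFormStar B k := by
  obtain ⟨c, hc⟩ := eval_homog_dPt (B.br (X (0, 0, 1)) (X (0, 1, 0))) k (hk _ _)
  -- symmetrised coefficients
  set c' : ℕ → ℂ := fun r => (c r - c (k - r)) / 2 with hc'
  have hrev : ∀ a b : ℂ, ∑ r ∈ Finset.range (k + 1), c (k - r) * (a ^ r * b ^ (k - r)) =
      ∑ r ∈ Finset.range (k + 1), c r * (b ^ r * a ^ (k - r)) := by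
    intro a b
    rw [← Finset.sum_range_reflect]
    refine Finset.sum_congr rfl fun r hr => ?_
    rw [Finset.mem_range] at hr
    have e1 : k + 1 - 1 - r = k - r := by omega
    have e2 : k - (k - r) = r := by omega
    rw [e1, e2]
    ring
  have hf : ∀ a b : ℂ, fD B ![a, b] 0 1 1 0 = ∑ r ∈ Finset.range (k + 1), c r * (a ^ r *
      b ^ (k - r)) := hc
  have hanti : ∀ a b : ℂ, fD B ![b, a] 0 1 1 0 = - fD B ![a, b] 0 1 1 0 := by
    intro a b
    rw [fD_sw hB, fD_skew]
  have hf' : ∀ a b : ℂ, ∑ r ∈ Finset.range (k + 1), c' r * (a ^ r * b ^ (k - r)) =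
      fD B ![a, b] 0 1 1 0 := by
    intro a b
    have : ∑ r ∈ Finset.range (k + 1), c' r * (a ^ r * b ^ (k - r)) =
        (∑ r ∈ Finset.range (k + 1), c r * (a ^ r * b ^ (k - r)) -
          ∑ r ∈ Finset.range (k + 1), c (k - r) * (a ^ r * b ^ (k - r))) / 2 := by
      rw [← Finset.sum_sub_distrib, Finset.sum_div]
      refine Finset.sum_congr rfl fun r _ => ?_
      rw [hc']
      ring
    rw [this, hrev, ← hf, ← hf, hanti a b]
    ring
  apply starT_formStar B k c'
  -- the difference tensor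
  have hdiag : ∀ (a b : ℂ), a ≠ b → ∀ i j i' j', eval (dPt ![a, b])
      (B.br (X (0, i, j)) (X (0, i', j')) - starT 2 k c' i j i' j') = 0 := by
    intro a b hab i j i' j'
    rw [map_sub]
    have hs : eval (dPt ![a, b]) (starT 2 k c' i j i' j') =
        ∑ r ∈ Finset.range (k + 1), c' r * ((if i = j' then ![a, b] i ^ r else 0) *
          (if i' = j then ![a, b] i' ^ (k - r) else 0)) := by
      rw [starT, map_sum]
      refine Finset.sum_congr rfl fun r _ => ?_
      rw [map_mul, map_mul, eval_C, eval_pow_dPt, eval_pow_dPt]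
    rw [hs]
    change fD B ![a, b] i j i' j' - _ = 0
    have ht := fD_tor hB a b i j i' j'
    have h0 := fD_h B hB a b hab
    have h0' := fD_skew B ![a, b] 1 1 0 0
    rw [h0, neg_zero] at h0'
    have hs1 := hf' a b
    have hs2 := hf' b a
    rw [fD_sw hB] at hs2
    have hself1 := fD_self B ![a, b] i j
    have haa : ∀ a : ℂ, ∑ r ∈ Finset.range (k + 1), c' r * (a ^ r * a ^ (k - r)) = 0 := by
      intro a
      rw [hf' a a]
      have := hanti a a
      linear_combination this / 2
    have ha := haa a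
    have hb := haa b
    simp only [gE, gI, gTor_coe, gTor_inv_coe] at ht
    fin_cases i <;> fin_cases j <;> fin_cases i' <;> fin_cases j' <;>
      simp at ht hself1 ⊢
    all_goals first
      | linear_combination ht
      | linear_combination 2 * ht
      | linear_combination -ht
      | linear_combination -2 * ht
      | exact hself1
      | exact h0
      | exact h0'
      | rw [hself1, ha, sub_zero]
      | rw [hself1, hb, sub_zero]
      | rw [hs1, sub_self]
      | rw [hs2, sub_self]
  intro i j i' j'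
  rw [← sub_eq_zero]
  apply eq_zero_of_diag
  intro g a b hab
  rw [← eval_conj, map_sub, conj_br B hB.1, conj_starT, ← Finset.sum_sub_distrib, map_sum]
  apply Finset.sum_eq_zero; intro a₁ _
  rw [← Finset.sum_sub_distrib, map_sum]
  apply Finset.sum_eq_zero; intro b₁ _
  rw [← Finset.sum_sub_distrib, map_sum]
  apply Finset.sum_eq_zero; intro a₂ _
  rw [← Finset.sum_sub_distrib, map_sum]
  apply Finset.sum_eq_zero; intro b₂ _
  rw [← smul_sub, smul_eval, hdiag a b hab, mul_zero]

end Pool.Agent.Helper93Trace
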