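import Pool.Agent.Helper93_Trace.NotStar
import Pool.Agent.Helper93_Trace.OneVar
import Pool.Agent.Helper93_Trace.MOne
import Pool.Agent.Helper93_Trace.TwoOne

open MvPolynomial

namespace Pool.Agent.Helper93Trace

/-- For `k ≥ 2`, all homogeneous trace Poisson brackets of degree `k` are of form (*) exactly when
`m = 1` or `(m, N) = (2, 1)`. -/
theorem star_dichotomy (k m N : ℕ) (hk : 2 ≤ k) (hm : 1 ≤ m) (hN : 1 ≤ N) :
    (∀ B : PoissonBracket m N, IsTraceBracket B → IsHomogeneousBracket B k → IsFormStar B k) ↔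
      (m = 1 ∨ (m = 2 ∧ N = 1)) := by
  constructor
  · intro h
    by_contra hcon
    rcases Nat.lt_or_ge 1 N with hN2 | hN1
    · -- `N ≥ 2`, so `m ≥ 2`
      have hm2 : 2 ≤ m := by
        by_contra h1
        exact hcon (Or.inl (by omega))
      obtain ⟨m', rfl⟩ : ∃ m', m = m' + 2 := ⟨m - 2, by omega⟩
      obtain ⟨n, rfl⟩ : ∃ n, N = n + 2 := ⟨N - 2, by omega⟩
      exact cBracket_not_star' m' n k hk (h (cBracket (m' + 2) n k) (cBracket_isTrace _ _ _)
        (cBracket_homog _ _ _ (by omega)))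
    · have hN' : N = 1 := by omega
      subst hN'
      have hm3 : 3 ≤ m := by
        by_contra h1
        have : m = 1 ∨ m = 2 := by omega
        rcases this with h2 | h2
        · exact hcon (Or.inl h2)
        · exact hcon (Or.inr ⟨h2, rfl⟩)
      obtain ⟨m', rfl⟩ : ∃ m', m = m' + 3 := ⟨m - 3, by omega⟩
      exact oneBracket_not_star m' k hk (h (oneBracket (m' + 3) k) (oneBracket_isTrace _ _)
        (oneBracket_homog _ _ (by omega)))
  · rintro (rfl | ⟨rfl, rfl⟩) B hB hB'
    · exact isFormStar_of_m_eq_one B k hB'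
    · exact isFormStar_two_one B k hB hB'

end Pool.Agent.Helper93Trace
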