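import Pool.Agent.Helper93_Trace.Centralizer
import Pool.Agent.Helper93_Trace.Contract
import Pool.Agent.Helper93_Trace.Coord

open MvPolynomial

set_option linter.unusedSectionVars false

namespace Pool.Agent.Helper93Trace

section
variable {m : ℕ} {𝒜 : Type} [Fintype 𝒜] [DecidableEq 𝒜]

/-- Polynomial functions of a family of `m × m` matrices indexed by `𝒜`. -/
abbrev PF (m : ℕ) (𝒜 : Type) := MvPolynomial (𝒜 × Fin m × Fin m) ℂ

/-- The generic matrices. -/
noncomputable def gvar (a : 𝒜) : Matrix (Fin m) (Fin m) (PF m 𝒜) := Matrix.of fun i j => X (a, i, j)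

/-- The kernel of the conjugation action on matrix entries. -/
noncomputable def hker (g : GL (Fin m) ℂ) (z y : Fin m × Fin m) : ℂ := gE g z.1 y.1 * gI g y.2 z.2

/-- Simultaneous conjugation. -/
noncomputable def gconj (g : GL (Fin m) ℂ) : PF m 𝒜 →ₐ[ℂ] PF m 𝒜 :=
  aeval fun p => ∑ y : Fin m × Fin m, hker g p.2 y • X (p.1, y)

/-- The transported coefficients. -/
noncomputable def transp {n : ℕ} (g : GL (Fin m) ℂ) (s : (Fin n → 𝒜 × Fin m × Fin m) → ℂ)
    (Q : Fin n → 𝒜 × Fin m × Fin m) : ℂ :=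
  ∑ z : Fin n → Fin m × Fin m, s (fun t => ((Q t).1, z t)) * ∏ t, hker g (z t) (Q t).2

/-- Splitting index functions. -/
def splitE (n : ℕ) (𝒜 κ : Type) : ((Fin n → 𝒜) × (Fin n → κ)) ≃ (Fin n → 𝒜 × κ) :=
  (Equiv.arrowProdEquivProdArrow (Fin n) (fun _ => 𝒜) (fun _ => κ)).symm

lemma splitE_apply (n : ℕ) (𝒜 κ : Type) (p : (Fin n → 𝒜) × (Fin n → κ)) :
    splitE n 𝒜 κ p = fun t => (p.1 t, p.2 t) := rfl

lemma gconj_words {n : ℕ} (g : GL (Fin m) ℂ) (s : (Fin n → 𝒜 × Fin m × Fin m) → ℂ) :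
    gconj g (∑ Q : Fin n → 𝒜 × Fin m × Fin m, C (s Q) * ∏ t, X (Q t)) =
      ∑ Q : Fin n → 𝒜 × Fin m × Fin m, C (transp g s Q) * ∏ t, X (Q t) := by
  rw [map_sum]
  have h1 : ∀ Q : Fin n → 𝒜 × Fin m × Fin m, gconj g (C (s Q) * ∏ t, X (Q t)) =
      ∑ y : Fin n → Fin m × Fin m, C (s Q * ∏ t, hker g (Q t).2 (y t)) *
        ∏ t, X ((Q t).1, y t) := by
    intro Q
    have hC : gconj g (C (s Q) : PF m 𝒜) = C (s Q) := by
      rw [← MvPolynomial.algebraMap_eq]; exact (gconj g).commutes _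
    rw [map_mul, hC, map_prod]
    have h2 : ∀ t, gconj g (X (Q t) : PF m 𝒜) =
        ∑ y : Fin m × Fin m, hker g (Q t).2 y • X ((Q t).1, y) := by
      intro t
      rw [gconj, aeval_X]
    simp only [h2]
    rw [Finset.prod_univ_sum, Fintype.piFinset_univ, Finset.mul_sum]
    refine Finset.sum_congr rfl fun y _ => ?_
    simp only [MvPolynomial.smul_eq_C_mul, Finset.prod_mul_distrib, C_mul, map_prod]
    ring
  simp only [h1]
  rw [← (splitE n 𝒜 (Fin m × Fin m)).sum_comp, ← (splitE n 𝒜 (Fin m × Fin m)).sum_comp,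
    Fintype.sum_prod_type, Fintype.sum_prod_type]
  refine Finset.sum_congr rfl fun γ _ => ?_
  rw [Finset.sum_comm]
  refine Finset.sum_congr rfl fun y _ => ?_
  simp only [splitE_apply, transp, map_sum, Finset.sum_mul]

lemma transp_comp {n : ℕ} (g : GL (Fin m) ℂ) (s : (Fin n → 𝒜 × Fin m × Fin m) → ℂ)
    (hs : ∀ Q (σ : Equiv.Perm (Fin n)), s (Q ∘ σ) = s Q) (Q : Fin n → 𝒜 × Fin m × Fin m)
    (σ : Equiv.Perm (Fin n)) : transp g s (Q ∘ σ) = transp g s Q := by
  unfold transp
  rw [← (Equiv.arrowCongr σ.symm (Equiv.refl (Fin m × Fin m))).sum_comp]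
  refine Finset.sum_congr rfl fun z _ => ?_
  have h1 : (Equiv.arrowCongr σ.symm (Equiv.refl (Fin m × Fin m))) z = z ∘ σ := by
    funext t; simp [Equiv.arrowCongr]
  rw [h1]
  congr 1
  · exact hs (fun t => ((Q t).1, z t)) σ
  · exact Equiv.prod_comp σ (fun t => hker g (z t) (Q t).2)

/-- Matrices of `g^{⊗n}`. -/
noncomputable def tens (n : ℕ) (g : Matrix (Fin m) (Fin m) ℂ) :
    Matrix (Fin n → Fin m) (Fin n → Fin m) ℂ := Matrix.of fun I K => ∏ t, g (I t) (K t)

lemma tens_mul (n : ℕ) (g h : Matrix (Fin m) (Fin m) ℂ) : tens n g * tens n h = tens n (g * h) := by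
  ext I K
  simp only [tens, Matrix.mul_apply, Matrix.of_apply]
  rw [Finset.prod_univ_sum, Fintype.piFinset_univ]
  refine Finset.sum_congr rfl fun L _ => ?_
  rw [Finset.prod_mul_distrib]

lemma tens_one (n : ℕ) : tens n (1 : Matrix (Fin m) (Fin m) ℂ) = 1 := by
  ext I K
  simp only [tens, Matrix.of_apply, Matrix.one_apply]
  by_cases h : I = K
  · subst h; simp
  · rw [if_neg h]
    obtain ⟨t, ht⟩ := Function.ne_iff.mp h
    exact Finset.prod_eq_zero (Finset.mem_univ t) (by rw [if_neg ht])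

/-- The first fundamental theorem for `GL_m` acting on matrices by simultaneous conjugation:
homogeneous invariants are combinations of contractions along permutations. -/
theorem fft (n : ℕ) (f : PF m 𝒜) (hf : f.IsHomogeneous n) (hinv : ∀ g : GL (Fin m) ℂ, gconj g f = f) :
    ∃ r : (Fin n → 𝒜) → Equiv.Perm (Fin n) → ℂ,
      (∀ γ, (∀ p q : Fin n → Fin m, coeff (typ fun t => (γ t, p t, q t)) f = 0) → ∀ σ, r γ σ = 0) ∧
      f = ∑ γ, ∑ σ, C (r γ σ) * ctr σ (fun t => gvar (γ t)) := by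
  classical
  set s : (Fin n → 𝒜 × Fin m × Fin m) → ℂ := symCoeff f with hsdef
  have hfs : f = ∑ Q : Fin n → 𝒜 × Fin m × Fin m, C (s Q) * ∏ t, X (Q t) := eq_sum_symCoeff f hf
  have hsym : ∀ Q (σ : Equiv.Perm (Fin n)), s (Q ∘ σ) = s Q := fun Q σ => symCoeff_comp f Q σ
  have htr : ∀ g, transp g s = s := by
    intro g
    apply sym_unique _ _ (transp_comp g s hsym) hsym
    rw [← gconj_words, ← hfs, hinv]
  have hmain : ∀ γ : Fin n → 𝒜, ∃ r : Equiv.Perm (Fin n) → ℂ,
      ∀ p q : Fin n → Fin m, s (fun t => (γ t, p t, q t)) =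
        ∑ σ, r σ * (if q ∘ σ = p then 1 else 0) := by
    intro γ
    let c : Matrix (Fin n → Fin m) (Fin n → Fin m) ℂ := Matrix.of fun q p =>
      s (fun t => (γ t, p t, q t))
    have hc : ∀ g : GL (Fin m) ℂ, c = tens n ((g⁻¹ : GL (Fin m) ℂ) : Matrix (Fin m) (Fin m) ℂ) * c *
        tens n (g : Matrix (Fin m) (Fin m) ℂ) := by
      intro g
      ext b a
      have h1 := congrFun (htr g) (fun t => (γ t, a t, b t))
      rw [transp, ← (splitE n (Fin m) (Fin m)).sum_comp, Fintype.sum_prod_type] at h1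
      simp only [splitE_apply] at h1
      change s (fun t => (γ t, a t, b t)) = _
      rw [← h1]
      simp only [Matrix.mul_apply, Finset.sum_mul, c, tens, Matrix.of_apply]
      refine Finset.sum_congr rfl fun p _ => Finset.sum_congr rfl fun q _ => ?_
      simp only [hker, Finset.prod_mul_distrib]
      ring
    have hcomm : ∀ g : GL (Fin m) ℂ, tens n (g : Matrix (Fin m) (Fin m) ℂ) * c =
        c * tens n (g : Matrix (Fin m) (Fin m) ℂ) := by
      intro g
      conv_lhs => rw [hc g]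
      rw [← Matrix.mul_assoc, ← Matrix.mul_assoc, tens_mul, ← Units.val_mul, mul_inv_cancel,
        Units.val_one, tens_one, Matrix.one_mul]
    obtain ⟨r, hr⟩ := span_perm (fun I J => c I J) (by
      intro g I J
      have := congrFun (congrFun (hcomm g) I) J
      simpa only [Matrix.mul_apply, tens, Matrix.of_apply] using this)
    exact ⟨r, fun p q => hr q p⟩
  choose r₀ hr₀ using hmain
  let r : (Fin n → 𝒜) → Equiv.Perm (Fin n) → ℂ := fun γ σ =>
    if ∀ p q : Fin n → Fin m, coeff (typ fun t => (γ t, p t, q t)) f = 0 then 0 else r₀ γ σ⁻¹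
  refine ⟨r, ?_, ?_⟩
  · intro γ hγ σ
    simp only [r]
    rw [if_pos hγ]
  · conv_lhs => rw [hfs]
    rw [← (splitE n 𝒜 (Fin m × Fin m)).sum_comp, Fintype.sum_prod_type]
    refine Finset.sum_congr rfl fun γ _ => ?_
    simp only [splitE_apply]
    rw [← (splitE n (Fin m) (Fin m)).sum_comp, Fintype.sum_prod_type]
    simp only [splitE_apply]
    by_cases hγ : ∀ p q : Fin n → Fin m, coeff (typ fun t => (γ t, p t, q t)) f = 0
    · have h1 : ∀ p q : Fin n → Fin m, s (fun t => (γ t, p t, q t)) = 0 := by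
        intro p q
        rw [hsdef, symCoeff, hγ, zero_div]
      simp only [h1, r, if_pos hγ, C_0, zero_mul, Finset.sum_const_zero]
    · simp only [r, if_neg hγ]
      rw [← Equiv.sum_comp (Equiv.inv (Equiv.Perm (Fin n)))]
      simp only [Equiv.inv_apply, inv_inv]
      have h1 : ∀ σ : Equiv.Perm (Fin n), ctr σ⁻¹ (fun t => (gvar (γ t) :
          Matrix (Fin m) (Fin m) (PF m 𝒜))) =
          ∑ q : Fin n → Fin m, ∏ t, X (γ t, q (σ t), q t) := by
        intro σ
        unfold ctr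
        rw [← (Equiv.arrowCongr σ.symm (Equiv.refl (Fin m))).sum_comp]
        refine Finset.sum_congr rfl fun q _ => Finset.prod_congr rfl fun t _ => ?_
        simp [gvar, Equiv.arrowCongr]
      simp only [h1, hr₀, Finset.mul_sum, map_sum, Finset.sum_mul]
      rw [Finset.sum_comm]
      have h2 : ∀ q : Fin n → Fin m, ∑ p : Fin n → Fin m, ∑ σ : Equiv.Perm (Fin n),
          (C (r₀ γ σ * if q ∘ σ = p then 1 else 0) * ∏ t, X (γ t, p t, q t) : PF m 𝒜) =
          ∑ σ : Equiv.Perm (Fin n), C (r₀ γ σ) * ∏ t, X (γ t, q (σ t), q t) := by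
        intro q
        rw [Finset.sum_comm]
        refine Finset.sum_congr rfl fun σ _ => ?_
        rw [Finset.sum_eq_single (q ∘ σ)]
        · rw [if_pos rfl, mul_one]
          rfl
        · intro p _ hp
          rw [if_neg hp.symm, mul_zero, C_0, zero_mul]
        · simp
      simp only [h2]
      rw [Finset.sum_comm]

end

end Pool.Agent.Helper93Trace
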