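import Pool.Agent.Helper93_Trace.SpanLemma

open MvPolynomial

set_option linter.unusedSectionVars false

namespace Pool.Agent.Helper93Trace

section
variable {n : ℕ}

lemma interp (s : ℕ) (f : Fin s → ℂ) :
    ∃ c : ℕ → ℂ, ∀ i : Fin s, f i = ∑ a ∈ Finset.range s, c a * ((i : ℕ) : ℂ) ^ a := by
  classical
  let v : Fin s → ℂ := fun i => ((i : ℕ) : ℂ)
  have hv : Set.InjOn v (Finset.univ : Finset (Fin s)) := by
    intro i _ j _ h
    exact Fin.ext (Nat.cast_injective h)
  let p := Lagrange.interpolate Finset.univ v f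
  have hdeg : p.degree < (Finset.univ : Finset (Fin s)).card :=
    Lagrange.degree_interpolate_lt f hv
  refine ⟨p.coeff, fun i => ?_⟩
  have h1 : p.eval (v i) = f i := Lagrange.eval_interpolate_at_node f hv (Finset.mem_univ i)
  rw [Finset.card_univ, Fintype.card_fin] at hdeg
  by_cases hp : p = 0
  · rw [← h1, hp]; simp
  · have h2 : p.natDegree < s := (Polynomial.natDegree_lt_iff_degree_lt hp).mpr hdeg
    rw [← h1, Polynomial.eval_eq_sum_range' h2]

/-- A tuple of matrices with prescribed first two entries, the others zero. -/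
def twoPt {κ : Type} (A B : Matrix κ κ ℂ) : Fin (n + 2) → Matrix κ κ ℂ := fun α =>
  if α = 0 then A else if α = 1 then B else 0

lemma twoPt_zero {κ : Type} (A B : Matrix κ κ ℂ) : twoPt (n := n) A B 0 = A := by simp [twoPt]
lemma twoPt_one {κ : Type} (A B : Matrix κ κ ℂ) : twoPt (n := n) A B 1 = B := by simp [twoPt]

section
variable {κ : Type} [Fintype κ] [DecidableEq κ]

lemma wv_replicate {N : ℕ} (x : Fin N → Matrix κ κ ℂ) (α : Fin N) (a : ℕ) :
    wv x (List.replicate a α) = x α ^ a := by simp [wv]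

lemma wv_single {N : ℕ} (x : Fin N → Matrix κ κ ℂ) (α : Fin N) : wv x [α] = x α := by simp [wv]

lemma top_of_single (V : Submodule ℂ (Matrix κ κ ℂ))
    (h : ∀ i j, Matrix.single i j (1 : ℂ) ∈ V) : V = ⊤ := by
  rw [eq_top_iff]
  intro A _
  rw [Matrix.matrix_eq_sum_single A]
  apply Submodule.sum_mem; intro i _
  apply Submodule.sum_mem; intro j _
  have : Matrix.single i j (A i j) = A i j • Matrix.single i j (1 : ℂ) := by
    rw [Matrix.smul_single, smul_eq_mul, mul_one]
  rw [this]
  exact Submodule.smul_mem _ _ (h i j)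

end

/-- The all-ones matrix. -/
def onesM (s : ℕ) : Matrix (Fin s) (Fin s) ℂ := Matrix.of fun _ _ => 1

/-- A point at which the words span all `m × m` matrices. -/
def ptA (m : ℕ) : Fin (n + 2) → Matrix (Fin m) (Fin m) ℂ :=
  twoPt (Matrix.diagonal fun i => ((i : ℕ) : ℂ)) (onesM m)

lemma ptA_span (m : ℕ) : wordSpan (ptA (n := n) m) (2 * m + 1) = ⊤ := by
  apply top_of_single
  intro i j
  obtain ⟨c, hc⟩ := interp m (fun l => if l = i then 1 else 0)
  obtain ⟨d, hd⟩ := interp m (fun l => if l = j then 1 else 0)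
  have h1 : Matrix.single i j (1 : ℂ) = ∑ a ∈ Finset.range m, ∑ b ∈ Finset.range m,
      (c a * d b) • wv (ptA (n := n) m)
        (List.replicate a 0 ++ ([1] ++ List.replicate b 0)) := by
    ext k l
    rw [Matrix.sum_apply]
    have h2 : ∀ a b, (wv (ptA (n := n) m)
        (List.replicate a 0 ++ ([1] ++ List.replicate b 0))) k l =
        ((k : ℕ) : ℂ) ^ a * ((l : ℕ) : ℂ) ^ b := by
      intro a b
      rw [wv_append, wv_append, wv_replicate, wv_replicate, wv_single, ptA, twoPt_zero, twoPt_one,
        Matrix.diagonal_pow, Matrix.diagonal_pow, Matrix.diagonal_mul, Matrix.mul_diagonal]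
      simp [onesM]
    have h3 : ∀ a ∈ Finset.range m, (∑ b ∈ Finset.range m, (c a * d b) • wv (ptA (n := n) m)
        (List.replicate a 0 ++ ([1] ++ List.replicate b 0))) k l =
        (c a * ((k : ℕ) : ℂ) ^ a) * (if l = j then 1 else 0) := by
      intro a _
      rw [Matrix.sum_apply]
      rw [hd l, Finset.mul_sum]
      refine Finset.sum_congr rfl fun b _ => ?_
      rw [Matrix.smul_apply, h2, smul_eq_mul]
      ring
    rw [Finset.sum_congr rfl h3, ← Finset.sum_mul, ← hc k, Matrix.single_apply]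
    by_cases hk : k = i
    · by_cases hl : l = j
      · simp [hk, hl]
      · have hl' : ¬ j = l := fun h => hl h.symm
        simp [hl, hl']
    · have hk' : ¬ i = k := fun h => hk h.symm
      simp [hk, hk']
  rw [h1]
  apply Submodule.sum_mem; intro a ha
  apply Submodule.sum_mem; intro b hb
  rw [Finset.mem_range] at ha hb
  apply Submodule.smul_mem
  apply Submodule.subset_span
  refine ⟨_, ?_, ?_, rfl⟩
  · simp only [List.length_append, List.length_replicate, List.length_singleton]; omega
  · simp only [List.length_append, List.length_replicate, List.length_singleton]; omega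

/-- The matrix `1 + J`. -/
def kM (s : ℕ) : Matrix (Fin s) (Fin s) ℂ := 1 + onesM s

lemma onesM_mul (s : ℕ) : onesM s * onesM s = (s : ℂ) • onesM s := by
  ext i j
  simp [onesM, Matrix.mul_apply]

lemma kM_mul_inv (s : ℕ) : kM s * (1 - (1 / ((s : ℂ) + 1)) • onesM s) = 1 := by
  have hs : (s : ℂ) + 1 ≠ 0 := Nat.cast_add_one_ne_zero s
  rw [kM, add_mul, one_mul, mul_sub, mul_one, Matrix.mul_smul, onesM_mul, smul_smul]
  ext i j
  simp only [Matrix.add_apply, Matrix.sub_apply, Matrix.smul_apply, smul_eq_mul, onesM,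
    Matrix.of_apply]
  field_simp
  ring

lemma kM_inv_mul (s : ℕ) : (1 - (1 / ((s : ℂ) + 1)) • onesM s) * kM s = 1 := by
  have hs : (s : ℂ) + 1 ≠ 0 := Nat.cast_add_one_ne_zero s
  rw [kM, mul_add, mul_one, sub_mul, one_mul, Matrix.smul_mul, onesM_mul, smul_smul]
  ext i j
  simp only [Matrix.add_apply, Matrix.sub_apply, Matrix.smul_apply, smul_eq_mul, onesM,
    Matrix.of_apply]
  field_simp
  ring

lemma kM_apply_ne_zero (s : ℕ) (i j : Fin s) : kM s i j ≠ 0 := by
  simp only [kM, onesM, Matrix.add_apply, Matrix.of_apply, Matrix.one_apply]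
  split_ifs <;> norm_num

/-- The second matrix of the special point of size `s²`. -/
def swK (s : ℕ) : Matrix (Fin s × Fin s) (Fin s × Fin s) ℂ :=
  Matrix.of fun p q => if p.1 = q.2 then kM s p.2 q.1 else 0

/-- A point of size `s²` at which the words of length at most `4 s` span all matrices. -/
def ptB (s : ℕ) : Fin (n + 2) → Matrix (Fin s × Fin s) (Fin s × Fin s) ℂ :=
  twoPt (Matrix.diagonal fun p => ((p.1 : ℕ) : ℂ)) (swK s)

/-- The word `0^a 1 0^b 1 0^c 1 0^d 1`. -/
def wordB (a b c d : ℕ) : List (Fin (n + 2)) :=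
  (List.replicate a 0 ++ [1]) ++ ((List.replicate b 0 ++ [1]) ++
    ((List.replicate c 0 ++ [1]) ++ (List.replicate d 0 ++ [1])))

lemma wordB_length (a b c d : ℕ) : (wordB (n := n) a b c d).length = a + b + c + d + 4 := by
  simp only [wordB, List.length_append, List.length_replicate, List.length_singleton]
  ring

lemma ptB_block (s a : ℕ) (p q : Fin s × Fin s) :
    (wv (ptB (n := n) s) (List.replicate a 0 ++ [1])) p q =
      ((p.1 : ℕ) : ℂ) ^ a * (if p.1 = q.2 then kM s p.2 q.1 else 0) := by
  rw [wv_append, wv_replicate, wv_single, ptB, twoPt_zero, twoPt_one, Matrix.diagonal_pow,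
    Matrix.diagonal_mul]
  rfl

lemma ptB_two (s a b : ℕ) (p q : Fin s × Fin s) :
    (wv (ptB (n := n) s) ((List.replicate a 0 ++ [1]) ++ (List.replicate b 0 ++ [1]))) p q =
      (((p.1 : ℕ) : ℂ) ^ a * kM s p.1 q.1) * (kM s p.2 q.2 * ((q.2 : ℕ) : ℂ) ^ b) := by
  rw [wv_append, Matrix.mul_apply, Fintype.sum_prod_type]
  simp only [ptB_block]
  rw [Finset.sum_eq_single q.2, Finset.sum_eq_single p.1]
  · simp; ring
  · intro c _ hc
    rw [if_neg hc.symm]; simp
  · simp
  · intro c _ hc
    apply Finset.sum_eq_zero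
    intro d _
    rw [if_neg hc]; simp
  · simp

lemma ptB_four (s a b c d : ℕ) (p q : Fin s × Fin s) :
    (wv (ptB (n := n) s) (wordB a b c d)) p q =
      (∑ i : Fin s, ((p.1 : ℕ) : ℂ) ^ a * kM s p.1 i * ((i : ℕ) : ℂ) ^ c * kM s i q.1) *
      (∑ j : Fin s, kM s p.2 j * ((j : ℕ) : ℂ) ^ b * kM s j q.2 * ((q.2 : ℕ) : ℂ) ^ d) := by
  have h : wordB (n := n) a b c d = ((List.replicate a 0 ++ [1]) ++ (List.replicate b 0 ++ [1])) ++
      ((List.replicate c 0 ++ [1]) ++ (List.replicate d 0 ++ [1])) := by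
    simp only [wordB, List.append_assoc]
  rw [h, wv_append, Matrix.mul_apply, Fintype.sum_prod_type, Finset.sum_mul_sum]
  refine Finset.sum_congr rfl fun i _ => Finset.sum_congr rfl fun j _ => ?_
  rw [ptB_two, ptB_two]
  ring

lemma sum4_factor (s : ℕ) (ci cj ck cl : ℕ → ℂ) (F G : ℕ → ℕ → ℂ) :
    ∑ a ∈ Finset.range s, ∑ c ∈ Finset.range s, ∑ b ∈ Finset.range s,
      ∑ d ∈ Finset.range s, ci a * cj c * ck b * cl d * (F a c * G b d) =
    (∑ a ∈ Finset.range s, ∑ c ∈ Finset.range s, ci a * cj c * F a c) *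
      (∑ b ∈ Finset.range s, ∑ d ∈ Finset.range s, ck b * cl d * G b d) := by
  rw [Finset.sum_mul]
  refine Finset.sum_congr rfl fun a _ => ?_
  rw [Finset.sum_mul]
  refine Finset.sum_congr rfl fun c _ => ?_
  rw [Finset.mul_sum]
  refine Finset.sum_congr rfl fun b _ => ?_
  rw [Finset.mul_sum]
  refine Finset.sum_congr rfl fun d _ => ?_
  ring

lemma ptB_span (s : ℕ) : wordSpan (ptB (n := n) s) (4 * s) = ⊤ := by
  -- the matrices `(E_ij K) ⊗ (K E_kl)` are in the span
  have h1 : ∀ i j k l : Fin s, Matrix.kroneckerMap (· * ·)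
      (Matrix.single i j (1 : ℂ) * kM s) (kM s * Matrix.single k l (1 : ℂ)) ∈
        wordSpan (ptB (n := n) s) (4 * s) := by
    intro i j k l
    obtain ⟨ci, hci⟩ := interp s (fun x => if x = i then 1 else 0)
    obtain ⟨cj, hcj⟩ := interp s (fun x => if x = j then 1 else 0)
    obtain ⟨ck, hck⟩ := interp s (fun x => if x = k then 1 else 0)
    obtain ⟨cl, hcl⟩ := interp s (fun x => if x = l then 1 else 0)
    have h2 : (kM s i j * kM s k l) • Matrix.kroneckerMap (· * ·)
        (Matrix.single i j (1 : ℂ) * kM s) (kM s * Matrix.single k l (1 : ℂ)) =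
        ∑ a ∈ Finset.range s, ∑ c ∈ Finset.range s, ∑ b ∈ Finset.range s, ∑ d ∈ Finset.range s,
          (ci a * cj c * ck b * cl d) • wv (ptB (n := n) s) (wordB a b c d) := by
      ext p q
      simp only [Matrix.sum_apply, Matrix.smul_apply, ptB_four, smul_eq_mul]
      have hfirst : ∑ a ∈ Finset.range s, ∑ c ∈ Finset.range s, ci a * cj c *
          (∑ x : Fin s, ((p.1 : ℕ) : ℂ) ^ a * kM s p.1 x * ((x : ℕ) : ℂ) ^ c * kM s x q.1) =
          (if p.1 = i then 1 else 0) * kM s p.1 j * kM s j q.1 := by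
        have e1 : ∀ x : Fin s, (if x = j then (1 : ℂ) else 0) =
            ∑ c ∈ Finset.range s, cj c * ((x : ℕ) : ℂ) ^ c := hcj
        have e2 : (if p.1 = i then (1 : ℂ) else 0) =
            ∑ a ∈ Finset.range s, ci a * ((p.1 : ℕ) : ℂ) ^ a := hci p.1
        have e3 : kM s p.1 j * kM s j q.1 =
            ∑ x : Fin s, kM s p.1 x * (if x = j then (1 : ℂ) else 0) * kM s x q.1 := by
          rw [Finset.sum_eq_single j]
          · simp
          · intro b _ hb; simp [hb]
          · simp
        rw [mul_assoc, e3, e2, Finset.sum_mul]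
        refine Finset.sum_congr rfl fun a _ => ?_
        simp only [e1, Finset.mul_sum, Finset.sum_mul]
        rw [Finset.sum_comm]
        refine Finset.sum_congr rfl fun x _ => Finset.sum_congr rfl fun c _ => ?_
        ring
      have hsecond : ∑ b ∈ Finset.range s, ∑ d ∈ Finset.range s, ck b * cl d *
          (∑ y : Fin s, kM s p.2 y * ((y : ℕ) : ℂ) ^ b * kM s y q.2 * ((q.2 : ℕ) : ℂ) ^ d) =
          kM s p.2 k * kM s k q.2 * (if q.2 = l then 1 else 0) := by
        have e1 : ∀ x : Fin s, (if x = k then (1 : ℂ) else 0) =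
            ∑ c ∈ Finset.range s, ck c * ((x : ℕ) : ℂ) ^ c := hck
        have e2 : (if q.2 = l then (1 : ℂ) else 0) =
            ∑ a ∈ Finset.range s, cl a * ((q.2 : ℕ) : ℂ) ^ a := hcl q.2
        have e3 : kM s p.2 k * kM s k q.2 =
            ∑ x : Fin s, kM s p.2 x * (if x = k then (1 : ℂ) else 0) * kM s x q.2 := by
          rw [Finset.sum_eq_single k]
          · simp
          · intro b _ hb; simp [hb]
          · simp
        rw [e3, e2, Finset.mul_sum]
        rw [Finset.sum_comm]
        refine Finset.sum_congr rfl fun d _ => ?_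
        simp only [e1, Finset.mul_sum, Finset.sum_mul]
        rw [Finset.sum_comm]
        refine Finset.sum_congr rfl fun x _ => Finset.sum_congr rfl fun c _ => ?_
        ring
      have hprod : ∑ a ∈ Finset.range s, ∑ c ∈ Finset.range s, ∑ b ∈ Finset.range s,
          ∑ d ∈ Finset.range s, ci a * cj c * ck b * cl d *
          ((∑ x : Fin s, ((p.1 : ℕ) : ℂ) ^ a * kM s p.1 x * ((x : ℕ) : ℂ) ^ c * kM s x q.1) *
          (∑ y : Fin s, kM s p.2 y * ((y : ℕ) : ℂ) ^ b * kM s y q.2 * ((q.2 : ℕ) : ℂ) ^ d)) =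
          ((if p.1 = i then 1 else 0) * kM s p.1 j * kM s j q.1) *
            (kM s p.2 k * kM s k q.2 * (if q.2 = l then 1 else 0)) := by
        rw [← hfirst, ← hsecond]
        exact sum4_factor s ci cj ck cl
          (fun a c => ∑ x : Fin s, ((p.1 : ℕ) : ℂ) ^ a * kM s p.1 x * ((x : ℕ) : ℂ) ^ c *
            kM s x q.1)
          (fun b d => ∑ y : Fin s, kM s p.2 y * ((y : ℕ) : ℂ) ^ b * kM s y q.2 *
            ((q.2 : ℕ) : ℂ) ^ d)
      rw [hprod]
      have e4 : (Matrix.single i j (1 : ℂ) * kM s) p.1 q.1 =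
          (if p.1 = i then 1 else 0) * kM s j q.1 := by
        rw [Matrix.mul_apply, Finset.sum_eq_single j]
        · rw [Matrix.single_apply]
          by_cases h : p.1 = i
          · simp [h]
          · simp [h, Ne.symm h]
        · intro b _ hb
          rw [Matrix.single_apply]
          simp [hb.symm]
        · simp
      have e5 : (kM s * Matrix.single k l (1 : ℂ)) p.2 q.2 =
          kM s p.2 k * (if q.2 = l then 1 else 0) := by
        rw [Matrix.mul_apply, Finset.sum_eq_single k]
        · rw [Matrix.single_apply]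
          by_cases h : q.2 = l
          · simp [h]
          · simp [h, Ne.symm h]
        · intro b _ hb
          rw [Matrix.single_apply]
          simp [hb.symm]
        · simp
      rw [Matrix.kroneckerMap_apply, e4, e5]
      by_cases h : p.1 = i
      · by_cases h' : q.2 = l
        · rw [if_pos h, if_pos h', h, h']; ring
        · rw [if_neg h']; ring
      · rw [if_neg h]; ring
    have h3 : (kM s i j * kM s k l) ≠ 0 :=
      mul_ne_zero (kM_apply_ne_zero s i j) (kM_apply_ne_zero s k l)
    rw [← Submodule.smul_mem_iff _ h3, h2]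
    apply Submodule.sum_mem; intro a ha
    apply Submodule.sum_mem; intro c hc
    apply Submodule.sum_mem; intro b hb
    apply Submodule.sum_mem; intro d hd
    rw [Finset.mem_range] at ha hb hc hd
    apply Submodule.smul_mem
    apply Submodule.subset_span
    refine ⟨_, ?_, ?_, rfl⟩
    · rw [wordB_length]; omega
    · rw [wordB_length]; omega
  -- hence `(A K) ⊗ (K B)` is in the span for all `A`, `B`
  have h2 : ∀ A B : Matrix (Fin s) (Fin s) ℂ, Matrix.kroneckerMap (· * ·) (A * kM s) (kM s * B) ∈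
        wordSpan (ptB (n := n) s) (4 * s) := by
    intro A B
    have e : Matrix.kroneckerMap (· * ·) (A * kM s) (kM s * B) =
        ∑ i, ∑ j, ∑ k, ∑ l, (A i j * B k l) • Matrix.kroneckerMap (· * ·)
          (Matrix.single i j (1 : ℂ) * kM s) (kM s * Matrix.single k l (1 : ℂ)) := by
      have eA : A * kM s = ∑ i, ∑ j, A i j • (Matrix.single i j (1 : ℂ) * kM s) := by
        conv_lhs => rw [Matrix.matrix_eq_sum_single A]
        rw [Finset.sum_mul]
        refine Finset.sum_congr rfl fun i _ => ?_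
        rw [Finset.sum_mul]
        refine Finset.sum_congr rfl fun j _ => ?_
        rw [← Matrix.smul_mul, Matrix.smul_single, smul_eq_mul, mul_one]
      have eB : kM s * B = ∑ i, ∑ j, B i j • (kM s * Matrix.single i j (1 : ℂ)) := by
        conv_lhs => rw [Matrix.matrix_eq_sum_single B]
        rw [Finset.mul_sum]
        refine Finset.sum_congr rfl fun i _ => ?_
        rw [Finset.mul_sum]
        refine Finset.sum_congr rfl fun j _ => ?_
        rw [← Matrix.mul_smul, Matrix.smul_single, smul_eq_mul, mul_one]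
      ext p q
      rw [Matrix.kroneckerMap_apply, eA, eB]
      simp only [Matrix.sum_apply, Matrix.smul_apply, Matrix.kroneckerMap_apply, smul_eq_mul]
      rw [Finset.sum_mul]
      refine Finset.sum_congr rfl fun i _ => ?_
      rw [Finset.sum_mul]
      refine Finset.sum_congr rfl fun j _ => ?_
      rw [Finset.mul_sum]
      refine Finset.sum_congr rfl fun k _ => ?_
      rw [Finset.mul_sum]
      refine Finset.sum_congr rfl fun l _ => ?_
      ring
    rw [e]
    apply Submodule.sum_mem; intro i _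
    apply Submodule.sum_mem; intro j _
    apply Submodule.sum_mem; intro k _
    apply Submodule.sum_mem; intro l _
    exact Submodule.smul_mem _ _ (h1 i j k l)
  apply top_of_single
  rintro ⟨i, k⟩ ⟨j, l⟩
  have h3 := h2 (Matrix.single i j (1 : ℂ) * (1 - (1 / ((s : ℂ) + 1)) • onesM s))
    ((1 - (1 / ((s : ℂ) + 1)) • onesM s) * Matrix.single k l (1 : ℂ))
  rw [mul_assoc, kM_inv_mul, mul_one, ← mul_assoc, kM_mul_inv, one_mul] at h3
  have h4 : Matrix.kroneckerMap (· * ·) (Matrix.single i j (1 : ℂ)) (Matrix.single k l (1 : ℂ)) =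
      Matrix.single (i, k) (j, l) (1 : ℂ) := by
    ext p q
    rw [Matrix.kroneckerMap_apply]
    simp only [Matrix.single_apply, Prod.ext_iff]
    by_cases h1 : i = p.1 <;> by_cases h2 : j = q.1 <;> by_cases h3 : k = p.2 <;>
      by_cases h4 : l = q.2 <;> simp [h1, h2, h3, h4]
  rwa [h4] at h3

end

end Pool.Agent.Helper93Trace
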