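import Pool.Agent.Helper93_Trace.Stable
import Pool.Agent.Helper93_Trace.Special

open MvPolynomial

set_option linter.unusedSectionVars false

namespace Pool.Agent.Helper93Trace

section
variable {N : ℕ} {κ : Type} [Fintype κ] [DecidableEq κ]
variable {R R' : Type} [CommRing R] [Algebra ℂ R] [CommRing R'] [Algebra ℂ R']

/-- The formal product of traces. -/
noncomputable def XT (T : Multiset (List (Fin N))) : MvPolynomial (List (Fin N)) ℂ := (T.map X).prod

/-- The formal expression of the bracket of two traces of words. -/
noncomputable def fE (k : ℕ) (c d : Fin N → Fin N → Shape N → ℂ) (P Q : List (Fin N)) :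
    MvPolynomial (List (Fin N)) ℂ :=
  ∑ s ∈ shapes N k, ∑ α, ∑ β, XT s.1 *
    (C (c α β s) * ((cyc α P).map fun p => ((cyc β Q).map fun q =>
        (X (p ++ s.2.1 ++ q ++ s.2.2) : MvPolynomial (List (Fin N)) ℂ)).sum).sum +
      C (d α β s) * (((cyc α P).map fun p => (X (p ++ s.2.1) : MvPolynomial (List (Fin N)) ℂ)).sum *
        ((cyc β Q).map fun q => (X (q ++ s.2.2) : MvPolynomial (List (Fin N)) ℂ)).sum))

/-- The bilinear form on covectors at a tuple of matrices. -/
noncomputable def PhiF (k : ℕ) (c d : Fin N → Fin N → Shape N → ℂ) (x : Fin N → Matrix κ κ R)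
    (A A' : Fin N → Matrix κ κ R) : R :=
  ∑ s ∈ shapes N k, ∑ α, ∑ β, TE x (XT s.1) *
    (algebraMap ℂ R (c α β s) * Matrix.trace (A α * wv x s.2.1 * A' β * wv x s.2.2) +
      algebraMap ℂ R (d α β s) * (Matrix.trace (A α * wv x s.2.1) *
        Matrix.trace (A' β * wv x s.2.2)))

lemma list_sum_mul {A : Type} [NonUnitalNonAssocSemiring A] {ι : Type} (l : List ι) (f : ι → A)
    (a : A) : (l.map f).sum * a = (l.map fun i => f i * a).sum := by
  induction l with
  | nil => simp
  | cons i l ih => simp [add_mul, ih]

lemma list_mul_sum {A : Type} [NonUnitalNonAssocSemiring A] {ι : Type} (l : List ι) (f : ι → A)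
    (a : A) : a * (l.map f).sum = (l.map fun i => a * f i).sum := by
  induction l with
  | nil => simp
  | cons i l ih => simp [mul_add, ih]

lemma trace_list_sum {ι : Type} (l : List ι) (f : ι → Matrix κ κ R) :
    Matrix.trace (l.map f).sum = (l.map fun i => Matrix.trace (f i)).sum := by
  induction l with
  | nil => simp
  | cons i l ih => simp [Matrix.trace_add, ih]

lemma TE_X (x : Fin N → Matrix κ κ R) (w : List (Fin N)) : TE x (X w) = tw x w := by
  rw [TE, aeval_X]

lemma tw_of_ne (x : Fin N → Matrix κ κ R) {w : List (Fin N)} (h : w ≠ []) :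
    tw x w = Matrix.trace (wv x w) := by rw [tw, if_neg h]

lemma TE_fE (k : ℕ) (c d : Fin N → Fin N → Shape N → ℂ) (x : Fin N → Matrix κ κ R)
    (P Q : List (Fin N)) (hP : 2 ≤ P.length) (hQ : 2 ≤ Q.length) :
    TE x (fE k c d P Q) = PhiF k c d x (grad x P) (grad x Q) := by
  unfold fE PhiF
  rw [map_sum]
  refine Finset.sum_congr rfl fun s _ => ?_
  rw [map_sum]
  refine Finset.sum_congr rfl fun α _ => ?_
  rw [map_sum]
  refine Finset.sum_congr rfl fun β _ => ?_
  have hp : ∀ p ∈ cyc α P, p ≠ [] := by
    intro p hp h
    have := cyc_length α P p hp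
    rw [h, List.length_nil] at this
    omega
  have hq : ∀ q ∈ cyc β Q, q ≠ [] := by
    intro p hp h
    have := cyc_length β Q p hp
    rw [h, List.length_nil] at this
    omega
  rw [map_mul, map_add, map_mul, map_mul, map_mul]
  have hC : ∀ a : ℂ, TE x (C a) = algebraMap ℂ R a := by
    intro a
    rw [TE, aeval_C]
  rw [hC, hC]
  congr 1
  congr 1
  · congr 1
    rw [map_list_sum, List.map_map]
    have h1 : grad x P α * wv x s.2.1 * grad x Q β * wv x s.2.2 =
        ((cyc α P).map fun p => ((cyc β Q).map fun q => wv x (p ++ s.2.1 ++ q ++ s.2.2)).sum).sum := by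
      rw [grad, list_sum_mul, list_sum_mul, list_sum_mul]
      congr 1
      apply List.map_congr_left
      intro p _
      rw [grad, list_mul_sum, list_sum_mul]
      congr 1
      apply List.map_congr_left
      intro q _
      simp only [wv_append]
    rw [h1, trace_list_sum]
    congr 1
    apply List.map_congr_left
    intro p hp'
    rw [Function.comp_apply, map_list_sum, List.map_map, trace_list_sum]
    congr 1
    apply List.map_congr_left
    intro q _
    rw [Function.comp_apply, TE_X, tw_of_ne]
    simp [hp p hp']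
  · congr 1
    congr 1
    · rw [map_list_sum, List.map_map, grad, list_sum_mul, trace_list_sum]
      congr 1
      apply List.map_congr_left
      intro p hp'
      rw [Function.comp_apply, TE_X, tw_of_ne, wv_append]
      simp [hp p hp']
    · rw [map_list_sum, List.map_map, grad, list_sum_mul, trace_list_sum]
      congr 1
      apply List.map_congr_left
      intro q hq'
      rw [Function.comp_apply, TE_X, tw_of_ne, wv_append]
      simp [hq q hq']

/-! ### Weights -/

lemma XT_weight (T : Multiset (List (Fin N))) :
    IsWeightedHomogeneous (List.length : List (Fin N) → ℕ) (XT T) (T.map List.length).sum := by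
  induction T using Multiset.induction_on with
  | empty =>
    simp only [XT, Multiset.map_zero, Multiset.prod_zero, Multiset.sum_zero]
    exact isWeightedHomogeneous_one _ _
  | cons w T ih =>
    have : (XT (w ::ₘ T) : MvPolynomial (List (Fin N)) ℂ) = X w * XT T := by simp [XT]
    rw [this, Multiset.map_cons, Multiset.sum_cons]
    exact (isWeightedHomogeneous_X _ _ _).mul ih

lemma list_sum_weight {ι : Type} (l : List ι) (f : ι → MvPolynomial (List (Fin N)) ℂ) (n : ℕ)
    (h : ∀ i ∈ l, IsWeightedHomogeneous (List.length : List (Fin N) → ℕ) (f i) n) :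
    IsWeightedHomogeneous (List.length : List (Fin N) → ℕ) (l.map f).sum n := by
  induction l with
  | nil => simp only [List.map_nil, List.sum_nil]; exact isWeightedHomogeneous_zero _ _ _
  | cons i l ih =>
    rw [List.map_cons, List.sum_cons]
    exact (h i List.mem_cons_self).add (ih fun j hj => h j (List.mem_cons_of_mem _ hj))

lemma fE_weight (k : ℕ) (c d : Fin N → Fin N → Shape N → ℂ) (P Q : List (Fin N)) (n : ℕ)
    (hn : n + 2 = P.length + Q.length + k) :
    IsWeightedHomogeneous (List.length : List (Fin N) → ℕ) (fE k c d P Q) n := by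
  unfold fE
  apply IsWeightedHomogeneous.sum; intro s hs
  apply IsWeightedHomogeneous.sum; intro α _
  apply IsWeightedHomogeneous.sum; intro β _
  have hk := (mem_shapes.mp hs).2
  rw [Shape.length] at hk
  by_cases hne : cyc α P = [] ∨ cyc β Q = []
  · have : XT s.1 * (C (c α β s) * ((cyc α P).map fun p => ((cyc β Q).map fun q =>
        (X (p ++ s.2.1 ++ q ++ s.2.2) : MvPolynomial (List (Fin N)) ℂ)).sum).sum +
      C (d α β s) * (((cyc α P).map fun p => (X (p ++ s.2.1) : MvPolynomial (List (Fin N)) ℂ)).sum *
        ((cyc β Q).map fun q => (X (q ++ s.2.2) : MvPolynomial (List (Fin N)) ℂ)).sum)) = 0 := by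
      rcases hne with h | h
      · simp [h]
      · simp [h]
    rw [this]
    exact isWeightedHomogeneous_zero _ _ _
  · rw [not_or] at hne
    have hP1 : 1 ≤ P.length := by
      obtain ⟨p, hp⟩ := List.exists_mem_of_ne_nil _ hne.1
      have := cyc_length α P p hp
      omega
    have hQ1 : 1 ≤ Q.length := by
      obtain ⟨p, hp⟩ := List.exists_mem_of_ne_nil _ hne.2
      have := cyc_length β Q p hp
      omega
    have h1 : IsWeightedHomogeneous (List.length : List (Fin N) → ℕ)
        (C (c α β s) * ((cyc α P).map fun p => ((cyc β Q).map fun q =>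
        (X (p ++ s.2.1 ++ q ++ s.2.2) : MvPolynomial (List (Fin N)) ℂ)).sum).sum)
        ((P.length - 1) + s.2.1.length + (Q.length - 1) + s.2.2.length) := by
      apply IsWeightedHomogeneous.C_mul
      apply list_sum_weight
      intro p hp
      apply list_sum_weight
      intro q hq
      have hpl := cyc_length α P p hp
      have hql := cyc_length β Q q hq
      have := isWeightedHomogeneous_X ℂ (List.length : List (Fin N) → ℕ)
        (p ++ s.2.1 ++ q ++ s.2.2)
      have e : (p ++ s.2.1 ++ q ++ s.2.2).length =
          (P.length - 1) + s.2.1.length + (Q.length - 1) + s.2.2.length := by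
        simp only [List.length_append]; omega
      rwa [e] at this
    have h2 : IsWeightedHomogeneous (List.length : List (Fin N) → ℕ)
        (C (d α β s) * (((cyc α P).map fun p =>
          (X (p ++ s.2.1) : MvPolynomial (List (Fin N)) ℂ)).sum *
        ((cyc β Q).map fun q => (X (q ++ s.2.2) : MvPolynomial (List (Fin N)) ℂ)).sum))
        ((P.length - 1) + s.2.1.length + ((Q.length - 1) + s.2.2.length)) := by
      apply IsWeightedHomogeneous.C_mul
      apply IsWeightedHomogeneous.mul
      · apply list_sum_weight
        intro p hp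
        have hpl := cyc_length α P p hp
        have := isWeightedHomogeneous_X ℂ (List.length : List (Fin N) → ℕ) (p ++ s.2.1)
        have e : (p ++ s.2.1).length = (P.length - 1) + s.2.1.length := by
          simp only [List.length_append]; omega
        rwa [e] at this
      · apply list_sum_weight
        intro p hp
        have hpl := cyc_length β Q p hp
        have := isWeightedHomogeneous_X ℂ (List.length : List (Fin N) → ℕ) (p ++ s.2.2)
        have e : (p ++ s.2.2).length = (Q.length - 1) + s.2.2.length := by
          simp only [List.length_append]; omega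
        rwa [e] at this
    have e3 : (P.length - 1) + s.2.1.length + ((Q.length - 1) + s.2.2.length) =
        (P.length - 1) + s.2.1.length + (Q.length - 1) + s.2.2.length := by omega
    rw [e3] at h2
    have h4 := (XT_weight s.1).mul (h1.add h2)
    have e4 : (s.1.map List.length).sum +
        ((P.length - 1) + s.2.1.length + (Q.length - 1) + s.2.2.length) = n := by omega
    rwa [e4] at h4

/-! ### Bilinearity and naturality -/

lemma PhiF_zero_of_span (k : ℕ) (c d : Fin N → Fin N → Shape N → ℂ) (x : Fin N → Matrix κ κ ℂ)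
    (l : ℕ) (hs : wordSpan x l = ⊤)
    (h : ∀ P Q : List (Fin N), 2 ≤ P.length → P.length ≤ 2 * l + 1 → 2 ≤ Q.length →
      Q.length ≤ 2 * l + 1 → PhiF k c d x (grad x P) (grad x Q) = 0) (P Q : List (Fin N)) :
    PhiF k c d x (grad x P) (grad x Q) = 0 := by
  have hadd1 : ∀ A B A' : Fin N → Matrix κ κ ℂ, PhiF k c d x (A + B) A' =
      PhiF k c d x A A' + PhiF k c d x B A' := by
    intro A B A'
    unfold PhiF
    simp only [← Finset.sum_add_distrib]
    refine Finset.sum_congr rfl fun s _ => Finset.sum_congr rfl fun α _ =>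
      Finset.sum_congr rfl fun β _ => ?_
    simp only [Pi.add_apply, add_mul, Matrix.trace_add]
    ring
  have hadd2 : ∀ A B A' : Fin N → Matrix κ κ ℂ, PhiF k c d x A' (A + B) =
      PhiF k c d x A' A + PhiF k c d x A' B := by
    intro A B A'
    unfold PhiF
    simp only [← Finset.sum_add_distrib]
    refine Finset.sum_congr rfl fun s _ => Finset.sum_congr rfl fun α _ =>
      Finset.sum_congr rfl fun β _ => ?_
    simp only [Pi.add_apply, add_mul, mul_add, Matrix.trace_add]
    ring
  have hsmul1 : ∀ (a : ℂ) (A A' : Fin N → Matrix κ κ ℂ), PhiF k c d x (a • A) A' =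
      a * PhiF k c d x A A' := by
    intro a A A'
    unfold PhiF
    simp only [Finset.mul_sum]
    refine Finset.sum_congr rfl fun s _ => Finset.sum_congr rfl fun α _ =>
      Finset.sum_congr rfl fun β _ => ?_
    simp only [Pi.smul_apply, Matrix.smul_mul, Matrix.trace_smul, smul_eq_mul]
    ring
  have hsmul2 : ∀ (a : ℂ) (A A' : Fin N → Matrix κ κ ℂ), PhiF k c d x A' (a • A) =
      a * PhiF k c d x A' A := by
    intro a A A'
    unfold PhiF
    simp only [Finset.mul_sum]
    refine Finset.sum_congr rfl fun s _ => Finset.sum_congr rfl fun α _ =>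
      Finset.sum_congr rfl fun β _ => ?_
    simp only [Pi.smul_apply, Matrix.smul_mul, Matrix.mul_smul, Matrix.trace_smul, smul_eq_mul]
    ring
  have h1 : ∀ Q : List (Fin N), 2 ≤ Q.length → Q.length ≤ 2 * l + 1 → ∀ P : List (Fin N),
      PhiF k c d x (grad x P) (grad x Q) = 0 := by
    intro Q hQ1 hQ2 P
    have hmem := grad_mem_span hs P
    generalize grad x P = A at hmem ⊢
    induction hmem using Submodule.span_induction with
    | mem A hA =>
      obtain ⟨w, hw1, hw2, rfl⟩ := hA
      exact h w Q hw1 hw2 hQ1 hQ2
    | zero =>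
      have := hsmul1 0 0 (grad x Q)
      simpa using this
    | add A B _ _ hA hB => rw [hadd1, hA, hB, add_zero]
    | smul a A _ hA => rw [hsmul1, hA, mul_zero]
  have hmem := grad_mem_span hs Q
  generalize grad x Q = A at hmem ⊢
  induction hmem using Submodule.span_induction with
  | mem A hA =>
    obtain ⟨w, hw1, hw2, rfl⟩ := hA
    exact h1 w hw1 hw2 P
  | zero =>
    have := hsmul2 0 0 (grad x P)
    simpa using this
  | add A B _ _ hA hB => rw [hadd2, hA, hB, add_zero]
  | smul a A _ hA => rw [hsmul2, hA, mul_zero]

lemma grad_mapT (φ : R →ₐ[ℂ] R') (x : Fin N → Matrix κ κ R) (P : List (Fin N)) (α : Fin N) :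
    grad (mapT φ x) P α = (grad x P α).map φ := by
  unfold grad
  induction cyc α P with
  | nil => ext i j; simp
  | cons w l ih =>
    rw [List.map_cons, List.sum_cons, List.map_cons, List.sum_cons, ih, wv_mapT]
    exact (Matrix.map_add φ (map_add φ) _ _).symm

lemma PhiF_mapT (k : ℕ) (c d : Fin N → Fin N → Shape N → ℂ) (φ : R →ₐ[ℂ] R')
    (x : Fin N → Matrix κ κ R) (P Q : List (Fin N)) :
    PhiF k c d (mapT φ x) (grad (mapT φ x) P) (grad (mapT φ x) Q) =
      φ (PhiF k c d x (grad x P) (grad x Q)) := by
  unfold PhiF
  rw [map_sum]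
  refine Finset.sum_congr rfl fun s _ => ?_
  rw [map_sum]
  refine Finset.sum_congr rfl fun α _ => ?_
  rw [map_sum]
  refine Finset.sum_congr rfl fun β _ => ?_
  simp only [map_mul, map_add, TE_mapT, grad_mapT, wv_mapT, AlgHom.commutes]
  have h1 : ∀ A B : Matrix κ κ R, (A.map φ) * (B.map φ) = (A * B).map φ := fun A B =>
    (Matrix.map_mul (f := (φ : R →+* R'))).symm
  rw [h1, h1, h1, h1, trace_map', trace_map', trace_map']

end

end Pool.Agent.Helper93Trace
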