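import Pool.Agent.Helper93_Trace.FFT

open MvPolynomial

set_option linter.unusedSectionVars false

namespace Pool.Agent.Helper93Trace

section
variable {m N : ℕ}

/-- Equivariance of a 4-tensor of polynomial functions, in coordinates. -/
def Equivariant (F : Fin m → Fin m → Fin m → Fin m → PolyFun m N) : Prop :=
  ∀ (g : GL (Fin m) ℂ) (i j i' j' : Fin m), conj g (F i j i' j') =
    ∑ a, ∑ b, ∑ a', ∑ b', (gE g i a * gI g b j * (gE g i' a' * gI g b' j')) • F a b a' b'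

/-- Adjoining two letters. -/
noncomputable def ren : PolyFun m N →ₐ[ℂ] PF m (Fin N ⊕ Bool) :=
  rename (fun p => (Sum.inl p.1, p.2))

lemma gconj_ren (g : GL (Fin m) ℂ) (f : PolyFun m N) : gconj g (ren f) = ren (conj g f) := by
  have : (gconj g).comp (ren (m := m) (N := N)) = ren.comp (conj g) := by
    apply MvPolynomial.algHom_ext
    rintro ⟨α, i, j⟩
    rw [AlgHom.comp_apply, AlgHom.comp_apply, conj_X_sum, ren, rename_X, gconj, aeval_X,
      Fintype.sum_prod_type]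
    simp only [map_sum, map_smul, rename_X, hker]
  exact congrArg (fun φ => φ f) this

/-- The constant matrix `g`. -/
noncomputable def cg (𝒜 : Type) (g : Matrix (Fin m) (Fin m) ℂ) : Matrix (Fin m) (Fin m) (PF m 𝒜) :=
  g.map C

lemma cg_mul (𝒜 : Type) (g h : Matrix (Fin m) (Fin m) ℂ) : cg 𝒜 g * cg 𝒜 h = cg 𝒜 (g * h) := by
  simp only [cg]
  exact (Matrix.map_mul).symm

lemma cg_inv_mul (𝒜 : Type) (g : GL (Fin m) ℂ) :
    cg 𝒜 ((g⁻¹ : GL (Fin m) ℂ) : Matrix (Fin m) (Fin m) ℂ) *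
      cg 𝒜 (g : Matrix (Fin m) (Fin m) ℂ) = 1 := by
  rw [cg_mul, ← Units.val_mul, inv_mul_cancel, Units.val_one]
  exact Matrix.map_one _ (map_zero _) (map_one _)

/-- The matrix `g Y g⁻¹`. -/
noncomputable def gmat {𝒜 : Type} (g : GL (Fin m) ℂ) (Y : Matrix (Fin m) (Fin m) (PF m 𝒜)) :
    Matrix (Fin m) (Fin m) (PF m 𝒜) :=
  cg 𝒜 (g : Matrix (Fin m) (Fin m) ℂ) * Y *
    cg 𝒜 ((g⁻¹ : GL (Fin m) ℂ) : Matrix (Fin m) (Fin m) ℂ)

lemma gconj_gvar {𝒜 : Type} [Fintype 𝒜] [DecidableEq 𝒜] (g : GL (Fin m) ℂ) (a : 𝒜) (i j : Fin m) :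
    gconj g (X (a, i, j) : PF m 𝒜) = gmat g (gvar a) i j := by
  rw [gconj, aeval_X, Fintype.sum_prod_type, gmat, Matrix.mul_assoc, Matrix.mul_apply]
  refine Finset.sum_congr rfl fun x _ => ?_
  rw [Matrix.mul_apply, Finset.mul_sum]
  refine Finset.sum_congr rfl fun y _ => ?_
  simp only [hker, cg, gvar, Matrix.map_apply, Matrix.of_apply, MvPolynomial.smul_eq_C_mul, C_mul]
  ring

lemma sandwich {𝒜 : Type} (g : GL (Fin m) ℂ) (Y : Matrix (Fin m) (Fin m) (PF m 𝒜))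
    (φ : Fin m → Fin m → PF m 𝒜) :
    ∑ i, ∑ j, gmat g Y j i *
        (∑ a, ∑ b, (gE g i a * gI g b j) • φ a b) = ∑ i, ∑ j, Y j i * φ i j := by
  unfold gmat
  set G := cg 𝒜 (g : Matrix (Fin m) (Fin m) ℂ)
  set G' := cg 𝒜 ((g⁻¹ : GL (Fin m) ℂ) : Matrix (Fin m) (Fin m) ℂ)
  have hG : G' * G = 1 := cg_inv_mul 𝒜 g
  have h1 : ∀ i j, (∑ a, ∑ b, (gE g i a * gI g b j) • φ a b) =
      (G * Matrix.of φ * G') i j := by
    intro i j
    rw [Matrix.mul_assoc, Matrix.mul_apply]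
    refine Finset.sum_congr rfl fun x _ => ?_
    rw [Matrix.mul_apply, Finset.mul_sum]
    refine Finset.sum_congr rfl fun y _ => ?_
    simp only [G, G', cg, Matrix.map_apply, Matrix.of_apply, MvPolynomial.smul_eq_C_mul, C_mul]
    ring
  simp only [h1]
  have h2 : ∀ (U V : Matrix (Fin m) (Fin m) (PF m 𝒜)),
      ∑ i, ∑ j, U j i * V i j = Matrix.trace (U * V) := by
    intro U V
    rw [Finset.sum_comm]
    simp only [Matrix.trace, Matrix.diag, Matrix.mul_apply]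
  have h3 : ∑ i, ∑ j, Y j i * φ i j = Matrix.trace (Y * Matrix.of φ) := h2 Y (Matrix.of φ)
  rw [h2, h3]
  have h4 : G * Y * G' * (G * Matrix.of φ * G') = G * (Y * Matrix.of φ * G') := by
    calc G * Y * G' * (G * Matrix.of φ * G') = G * Y * (G' * G) * Matrix.of φ * G' := by
          simp only [mul_assoc]
      _ = G * (Y * Matrix.of φ * G') := by rw [hG]; simp only [mul_assoc, mul_one]
  rw [h4, Matrix.trace_mul_comm, mul_assoc, hG, mul_one]

lemma sum_comm4 {M : Type} [AddCommMonoid M] {ι κ : Type} [Fintype ι] [Fintype κ]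
    (f : ι → ι → κ → κ → M) :
    ∑ i, ∑ j, ∑ a, ∑ b, f i j a b = ∑ a, ∑ b, ∑ i, ∑ j, f i j a b := by
  calc ∑ i, ∑ j, ∑ a, ∑ b, f i j a b = ∑ i, ∑ a, ∑ j, ∑ b, f i j a b :=
        Finset.sum_congr rfl fun i _ => Finset.sum_comm
    _ = ∑ a, ∑ i, ∑ j, ∑ b, f i j a b := Finset.sum_comm
    _ = ∑ a, ∑ i, ∑ b, ∑ j, f i j a b :=
        Finset.sum_congr rfl fun a _ => Finset.sum_congr rfl fun i _ => Finset.sum_comm
    _ = ∑ a, ∑ b, ∑ i, ∑ j, f i j a b := Finset.sum_congr rfl fun a _ => Finset.sum_comm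

/-- The invariant attached to a 4-tensor. -/
noncomputable def psi (F : Fin m → Fin m → Fin m → Fin m → PolyFun m N) :
    PF m (Fin N ⊕ Bool) :=
  ∑ i', ∑ j', X (Sum.inr true, j', i') * ∑ i, ∑ j, X (Sum.inr false, j, i) * ren (F i j i' j')

lemma psi_inv (F : Fin m → Fin m → Fin m → Fin m → PolyFun m N) (hF : Equivariant F)
    (g : GL (Fin m) ℂ) : gconj g (psi F) = psi F := by
  unfold psi
  simp only [map_sum, map_mul, gconj_gvar, gconj_ren, hF g]
  have h1 : ∀ i' j', ∑ i, ∑ j, gmat g (gvar (Sum.inr false)) j i *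
        ∑ a, ∑ b, ∑ a', ∑ b', ren ((gE g i a * gI g b j * (gE g i' a' * gI g b' j')) •
          F a b a' b') =
      ∑ a', ∑ b', (gE g i' a' * gI g b' j') •
        ∑ i, ∑ j, X (Sum.inr false, j, i) * ren (F i j a' b') := by
    intro i' j'
    have h2 : ∀ i j, ∑ a, ∑ b, ∑ a', ∑ b', ren ((gE g i a * gI g b j *
        (gE g i' a' * gI g b' j')) • F a b a' b') =
        ∑ a, ∑ b, (gE g i a * gI g b j) • ∑ a', ∑ b', (gE g i' a' * gI g b' j') •
          ren (F a b a' b') := by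
      intro i j
      simp only [map_smul, Finset.smul_sum, smul_smul]
    simp only [h2]
    rw [sandwich]
    simp only [Finset.smul_sum, Finset.mul_sum, mul_smul_comm]
    rw [sum_comm4]
    rfl
  rw [Finset.sum_congr rfl (fun i' _ => Finset.sum_congr rfl (fun j' _ => by rw [h1 i' j']))]
  exact sandwich g (gvar (Sum.inr true))
    (fun a' b' => ∑ i, ∑ j, X (Sum.inr false, j, i) * ren (F i j a' b'))

end

end Pool.Agent.Helper93Trace
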