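import Pool.Agent.Helper93_Trace.Defs

open MvPolynomial

namespace Pool.Agent.Helper93Trace

/-- A shape: a multiset of words (whose traces are taken) together with two further words. -/
abbrev Shape (N : ℕ) : Type := Multiset (List (Fin N)) × List (Fin N) × List (Fin N)

/-- The total number of letters of a shape. -/
def Shape.length {N : ℕ} (s : Shape N) : ℕ :=
  (s.1.map List.length).sum + s.2.1.length + s.2.2.length

/-- The shapes `(T, u, v)` of total length `k`, all words of the multiset `T` being nonempty. -/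
def shapeSet (N k : ℕ) : Set (Shape N) := {s | (∀ w ∈ s.1, w ≠ []) ∧ s.length = k}

lemma shapeSet_finite (N k : ℕ) : (shapeSet N k).Finite := by
  classical
  -- words of length at most `k`
  have hW : {w : List (Fin N) | w.length ≤ k}.Finite := List.finite_length_le (Fin N) k
  let W : Finset (List (Fin N)) := hW.toFinset
  have hmemW : ∀ w : List (Fin N), w.length ≤ k → w ∈ W := fun w hw => by
    rw [Set.Finite.mem_toFinset]; exact hw
  let MW : Finset (Multiset (List (Fin N))) := (k • W.val).powerset.toFinset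
  refine Set.Finite.subset (Finset.finite_toSet (MW ×ˢ (W ×ˢ W))) ?_
  rintro ⟨T, u, v⟩ ⟨h1, h2⟩
  simp only [Shape.length] at h2
  rw [Finset.mem_coe, Finset.mem_product, Finset.mem_product]
  refine ⟨?_, hmemW _ (by simp only; omega), hmemW _ (by simp only; omega)⟩
  rw [Multiset.mem_toFinset, Multiset.mem_powerset]
  have hT : ∀ w ∈ T, w.length ≤ k := by
    intro w hw
    have := Multiset.single_le_sum (s := T.map List.length) (fun _ _ => Nat.zero_le _) w.length
      (Multiset.mem_map_of_mem _ hw)
    omega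
  have hcard : Multiset.card T ≤ k := by
    have h3 : ∀ S : Multiset (List (Fin N)), (∀ w ∈ S, w ≠ []) →
        Multiset.card S ≤ (S.map List.length).sum := by
      intro S
      induction S using Multiset.induction_on with
      | empty => simp
      | cons a S ih =>
        intro h
        have h4 := ih (fun w hw => h w (Multiset.mem_cons_of_mem hw))
        have h5 : 1 ≤ a.length := List.length_pos_iff.mpr (h a (Multiset.mem_cons_self _ _))
        rw [Multiset.card_cons, Multiset.map_cons, Multiset.sum_cons]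
        omega
    have := h3 T h1
    omega
  rw [Multiset.le_iff_count]
  intro w
  by_cases hw : w ∈ T
  · rw [Multiset.count_nsmul, Multiset.count_eq_one_of_mem W.nodup (hmemW w (hT w hw)), mul_one]
    exact le_trans (Multiset.count_le_card _ _) hcard
  · rw [Multiset.count_eq_zero_of_notMem hw]
    exact Nat.zero_le _

/-- The finite set of all shapes of total length `k`. -/
noncomputable def shapes (N k : ℕ) : Finset (Shape N) := (shapeSet_finite N k).toFinset

lemma mem_shapes {N k : ℕ} {s : Shape N} :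
    s ∈ shapes N k ↔ (∀ w ∈ s.1, w ≠ []) ∧ s.length = k := by
  rw [shapes, Set.Finite.mem_toFinset]
  rfl

/-- The product of the traces `tr (x_w)` over the words `w` of a multiset. -/
noncomputable def traceProd {m N : ℕ} (T : Multiset (List (Fin N))) : PolyFun m N :=
  (T.map fun w => Matrix.trace (wordMat w : Matrix (Fin m) (Fin m) (PolyFun m N))).prod

/-- The bracket has the general form in degree `k`: there are constants `c^{T,u,v}_{αβ}` and
`d^{T,u,v}_{αβ}`, indexed by the finitely many shapes `(T,u,v)` of total length `k`, with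
`{x^j_{i,α}, x^{j'}_{i',β}} = ∑ (∏_{w ∈ T} tr w) (c^{T,u,v}_{αβ} (u)^{j'}_i (v)^j_{i'} +
  d^{T,u,v}_{αβ} (u)^j_i (v)^{j'}_{i'})`. -/
def IsGeneralForm {m N : ℕ} (B : PoissonBracket m N) (k : ℕ) : Prop :=
  ∃ c d : Fin N → Fin N → Shape N → ℂ, ∀ (α β : Fin N) (i j i' j' : Fin m),
    B.br (X (α, i, j)) (X (β, i', j')) = ∑ s ∈ shapes N k, traceProd s.1 *
      (C (c α β s) * (wordMat s.2.1 i j' * wordMat s.2.2 i' j) +
        C (d α β s) * (wordMat s.2.1 i j * wordMat s.2.2 i' j'))

/-- The tensor of form (*) with given constants `c^{u,v}_{αβ}`: its entry at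
`a = (α, i, j)`, `b = (β, i', j')` is `∑_{|u|+|v|=k} c^{u,v}_{αβ} (u)^{j'}_i (v)^j_{i'}`. -/
noncomputable def starTensor (m : ℕ) {N : ℕ} (k : ℕ)
    (c : Fin N → Fin N → List (Fin N) → List (Fin N) → ℂ) (a b : Fin N × Fin m × Fin m) :
    PolyFun m N :=
  ∑ l : Fin (k + 1), ∑ u : Fin l → Fin N, ∑ v : Fin (k - l) → Fin N,
    C (c a.1 b.1 (List.ofFn u) (List.ofFn v)) *
      (wordMat (List.ofFn u) a.2.1 b.2.2 * wordMat (List.ofFn v) b.2.1 a.2.2)

/-- The value on `f, g` of the biderivation given by the tensor of form (*) with given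
constants. -/
noncomputable def starBr (m : ℕ) {N : ℕ} (k : ℕ)
    (c : Fin N → Fin N → List (Fin N) → List (Fin N) → ℂ) (f g : PolyFun m N) : PolyFun m N :=
  ∑ a : Fin N × Fin m × Fin m, ∑ b : Fin N × Fin m × Fin m,
    pderiv a f * starTensor m k c a b * pderiv b g

/-- Agreement on traces with a biderivation of form (*): there are constants `c^{u,v}_{αβ}` with
`{tr P₁, tr P₂} = ∑ ∂(tr P₁)/∂x^j_{i,α} (∑ c^{u,v}_{αβ} (u)^{j'}_i (v)^j_{i'})
∂(tr P₂)/∂x^{j'}_{i',β}` for all matrix polynomials `P₁`, `P₂`. -/
def AgreesOnTraces {m N : ℕ} (B : PoissonBracket m N) (k : ℕ) : Prop :=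
  ∃ c : Fin N → Fin N → List (Fin N) → List (Fin N) → ℂ, ∀ P₁ P₂ : FreeAlgebra ℂ (Fin N),
    B.br (Matrix.trace (matPoly P₁)) (Matrix.trace (matPoly P₂)) =
      starBr m k c (Matrix.trace (matPoly P₁)) (Matrix.trace (matPoly P₂))

end Pool.Agent.Helper93Trace
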