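import Pool.Agent.Helper93_Trace.General
import Pool.Agent.Helper93_Trace.Shapes

open MvPolynomial

set_option linter.unusedSectionVars false

namespace Pool.Agent.Helper93Trace

section
variable {m N : ℕ}

lemma psi_homog (k : ℕ) (F : Fin m → Fin m → Fin m → Fin m → PolyFun m N)
    (hF : ∀ i j i' j', (F i j i' j').IsHomogeneous k) : (psi F).IsHomogeneous (k + 2) := by
  unfold psi
  apply IsHomogeneous.sum; intro i' _
  apply IsHomogeneous.sum; intro j' _
  have e : k + 2 = 1 + (1 + k) := by ring
  rw [e]
  apply (isHomogeneous_X _ _).mul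
  apply IsHomogeneous.sum; intro i _
  apply IsHomogeneous.sum; intro j _
  exact (isHomogeneous_X _ _).mul (IsHomogeneous.rename_isHomogeneous (hF _ _ _ _))

/-- The weight counting a special letter. -/
def wt (b : Bool) (p : (Fin N ⊕ Bool) × Fin m × Fin m) : ℕ := if p.1 = Sum.inr b then 1 else 0

lemma ren_weight (b : Bool) (f : PolyFun m N) : IsWeightedHomogeneous (wt b) (ren f) 0 := by
  induction f using MvPolynomial.induction_on with
  | C a =>
    rw [ren, rename_C]
    exact isWeightedHomogeneous_C _ _
  | add p q hp hq => rw [map_add]; exact hp.add hq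
  | mul_X p i hp =>
    rw [map_mul]
    have h1 : IsWeightedHomogeneous (wt b) (ren (X i : PolyFun m N)) 0 := by
      rw [ren, rename_X]
      have := isWeightedHomogeneous_X ℂ (wt (m := m) (N := N) b) (Sum.inl i.1, i.2)
      have h2 : wt (m := m) (N := N) b (Sum.inl i.1, i.2) = 0 := by simp [wt]
      rwa [h2] at this
    simpa using hp.mul h1

lemma psi_weight (b : Bool) (F : Fin m → Fin m → Fin m → Fin m → PolyFun m N) :
    IsWeightedHomogeneous (wt b) (psi F) 1 := by
  unfold psi
  have hX : ∀ (c : Bool) (y : Fin m × Fin m), IsWeightedHomogeneous (wt (m := m) (N := N) b)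
      (X (Sum.inr c, y) : PF m (Fin N ⊕ Bool)) (if c = b then 1 else 0) := by
    intro c y
    have := isWeightedHomogeneous_X ℂ (wt (m := m) (N := N) b) (Sum.inr c, y)
    have h2 : wt (m := m) (N := N) b (Sum.inr c, y) = if c = b then 1 else 0 := by simp [wt]
    rwa [h2] at this
  apply IsWeightedHomogeneous.sum; intro i' _
  apply IsWeightedHomogeneous.sum; intro j' _
  have e : 1 = (if true = b then 1 else 0) + ((if false = b then 1 else 0) + 0) := by
    cases b <;> simp
  rw [e]
  apply (hX true _).mul
  apply IsWeightedHomogeneous.sum; intro i _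
  apply IsWeightedHomogeneous.sum; intro j _
  exact (hX false _).mul (ren_weight b _)

lemma weight_typ {n : ℕ} (b : Bool) (Q : Fin n → (Fin N ⊕ Bool) × Fin m × Fin m) :
    Finsupp.weight (wt b) (typ Q) = (Finset.univ.filter fun t => (Q t).1 = Sum.inr b).card := by
  rw [typ, map_sum, Finset.card_filter]
  refine Finset.sum_congr rfl fun t _ => ?_
  rw [Finsupp.weight_single, one_smul]
  rfl

/-- Substituting matrix units for the special letters. -/
noncomputable def matS (i j i' j' : Fin m) (a : Fin N ⊕ Bool) : Matrix (Fin m) (Fin m) (PolyFun m N) :=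
  match a with
  | Sum.inl α => matVar α
  | Sum.inr false => Matrix.single j i 1
  | Sum.inr true => Matrix.single j' i' 1

/-- The substitution homomorphism. -/
noncomputable def theta (i j i' j' : Fin m) : PF m (Fin N ⊕ Bool) →ₐ[ℂ] PolyFun m N :=
  aeval fun p => matS i j i' j' p.1 p.2.1 p.2.2

lemma theta_ren (i j i' j' : Fin m) (f : PolyFun m N) : theta i j i' j' (ren f) = f := by
  have : (theta i j i' j').comp (ren (m := m) (N := N)) = AlgHom.id ℂ _ := by
    apply MvPolynomial.algHom_ext
    rintro ⟨α, a, b⟩
    rw [AlgHom.comp_apply, ren, rename_X, theta, aeval_X]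
    rfl
  exact congrArg (fun φ => φ f) this

lemma theta_psi (F : Fin m → Fin m → Fin m → Fin m → PolyFun m N) (i j i' j' : Fin m) :
    theta i j i' j' (psi F) = F i j i' j' := by
  unfold psi
  simp only [map_sum, map_mul, theta_ren]
  have h0 : ∀ a b, theta i j i' j' (X (Sum.inr false, a, b) : PF m (Fin N ⊕ Bool)) =
      if j = a ∧ i = b then 1 else 0 := by
    intro a b
    rw [theta, aeval_X]
    simp [matS, Matrix.single_apply]
  have h1 : ∀ a b, theta i j i' j' (X (Sum.inr true, a, b) : PF m (Fin N ⊕ Bool)) =
      if j' = a ∧ i' = b then 1 else 0 := by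
    intro a b
    rw [theta, aeval_X]
    simp [matS, Matrix.single_apply]
  simp only [h0, h1]
  rw [Finset.sum_eq_single i', Finset.sum_eq_single j', Finset.sum_eq_single i,
    Finset.sum_eq_single j]
  · simp
  · intro b _ hb; simp [hb.symm]
  · simp
  · intro b _ hb
    apply Finset.sum_eq_zero; intro c _
    simp [hb.symm]
  · simp
  · intro b _ hb; simp [hb.symm]
  · simp
  · intro b _ hb
    apply Finset.sum_eq_zero; intro c _
    simp [hb.symm]
  · simp

lemma theta_ctr {n : ℕ} (i j i' j' : Fin m) (γ : Fin n → Fin N ⊕ Bool) (σ : Equiv.Perm (Fin n)) :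
    theta i j i' j' (ctr σ (fun t => gvar (γ t))) = ctr σ (fun t => matS i j i' j' (γ t)) := by
  unfold ctr
  rw [map_sum]
  refine Finset.sum_congr rfl fun P _ => ?_
  rw [map_prod]
  refine Finset.prod_congr rfl fun t _ => ?_
  simp only [gvar, Matrix.of_apply, theta, aeval_X]

/-! ### Words containing the special letters exactly once -/

/-- A word without special letters. -/
lemma exists_map_inl (w : List (Fin N ⊕ Bool)) (h0 : Sum.inr false ∉ w) (h1 : Sum.inr true ∉ w) :
    ∃ w' : List (Fin N), w = w'.map Sum.inl := by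
  induction w with
  | nil => exact ⟨[], rfl⟩
  | cons a w ih =>
    rw [List.mem_cons, not_or] at h0 h1
    obtain ⟨w', rfl⟩ := ih h0.2 h1.2
    rcases a with α | b
    · exact ⟨α :: w', rfl⟩
    · cases b
      · exact absurd rfl h0.1
      · exact absurd rfl h1.1

lemma mw_map_inl (i j i' j' : Fin m) (w : List (Fin N)) :
    mw (matS i j i' j') (w.map Sum.inl) = wordMat w := by
  rw [mw, List.map_map, wordMat]
  rfl

lemma trProd_perm {A : Type} {R : Type} [CommRing R] (mat : A → Matrix (Fin m) (Fin m) R)
    {T T' : List (List A)} (h : T.Perm T') : trProd mat T = trProd mat T' := by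
  unfold trProd
  exact (h.map _).prod_eq

lemma trProd_cons {A : Type} {R : Type} [CommRing R] (mat : A → Matrix (Fin m) (Fin m) R)
    (w : List A) (T : List (List A)) :
    trProd mat (w :: T) = Matrix.trace (mw mat w) * trProd mat T := by
  simp [trProd]

lemma single_sandwich' {R : Type*} [CommRing R] (A B : Matrix (Fin m) (Fin m) R) (s r i j : Fin m) :
    (A * Matrix.single s r 1 * B : Matrix (Fin m) (Fin m) R) i j = A i s * B r j := by
  rw [Matrix.mul_assoc, Matrix.mul_apply, Finset.sum_eq_single s]
  · congr 1
    rw [Matrix.mul_apply, Finset.sum_eq_single r]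
    · simp
    · intro b _ hb; simp [hb.symm]
    · simp
  · intro b _ hb
    rw [Matrix.mul_apply]
    rw [Finset.sum_eq_zero, mul_zero]
    intro c _
    simp [hb.symm]
  · simp

lemma trace_single_word {A : Type} {R : Type} [CommRing R] (mat : A → Matrix (Fin m) (Fin m) R)
    (a : A) (s r : Fin m) (ha : mat a = Matrix.single s r 1) (b c : List A) :
    Matrix.trace (mw mat (b ++ a :: c)) = mw mat (c ++ b) r s := by
  have h1 : mw mat (b ++ a :: c) = mw mat b * (Matrix.single s r 1 * mw mat c) := by
    rw [mw_append, ← ha]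
    simp [mw]
  rw [h1, Matrix.trace_mul_comm, Matrix.mul_assoc, ← mw_append, Matrix.trace]
  rw [Finset.sum_eq_single s]
  · rw [Matrix.diag_apply, Matrix.mul_apply, Finset.sum_eq_single r]
    · simp
    · intro b _ hb; simp [hb.symm]
    · simp
  · intro b _ hb
    rw [Matrix.diag_apply, Matrix.mul_apply]
    apply Finset.sum_eq_zero
    intro c _
    simp [hb.symm]
  · simp

lemma trProd_map_inl (i j i' j' : Fin m) (T : List (List (Fin N))) :
    trProd (matS i j i' j') (T.map (List.map Sum.inl)) = traceProd (T : Multiset (List (Fin N))) := by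
  rw [trProd, traceProd, List.map_map, Multiset.map_coe, Multiset.prod_coe]
  congr 1
  apply List.map_congr_left
  intro w _
  simp only [Function.comp_apply, mw_map_inl]

lemma exists_map_inl_list (T : List (List (Fin N ⊕ Bool))) (h0 : Sum.inr false ∉ T.flatten)
    (h1 : Sum.inr true ∉ T.flatten) :
    ∃ T' : List (List (Fin N)), T = T'.map (List.map Sum.inl) := by
  induction T with
  | nil => exact ⟨[], rfl⟩
  | cons w T ih =>
    rw [List.flatten_cons, List.mem_append, not_or] at h0 h1
    obtain ⟨T', rfl⟩ := ih h0.2 h1.2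
    obtain ⟨w', rfl⟩ := exists_map_inl w h0.1 h1.1
    exact ⟨w' :: T', rfl⟩

lemma flatten_perm_split {A : Type} [DecidableEq A] (T : List (List A)) (x : A)
    (hx : x ∈ T.flatten) : ∃ (a b : List A) (T₁ : List (List A)), T.Perm ((a ++ x :: b) :: T₁) := by
  obtain ⟨w, hw, hw0⟩ := List.mem_flatten.mp hx
  obtain ⟨a, b, hab⟩ := List.append_of_mem hw0
  obtain ⟨T₁, hT₁⟩ : ∃ T₁, T.Perm (w :: T₁) := by
    obtain ⟨s, t, rfl⟩ := List.append_of_mem hw
    exact ⟨s ++ t, List.perm_middle⟩
  exact ⟨a, b, T₁, hab ▸ hT₁⟩

lemma perm_flatten_coe {A : Type} {T T' : List (List A)} (h : T.Perm T') :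
    (T.flatten : Multiset A) = (T'.flatten : Multiset A) :=
  Multiset.coe_eq_coe.mpr h.flatten

lemma length_map_inl (T : List (List (Fin N))) :
    ((T : Multiset (List (Fin N))).map List.length).sum =
      (T.map (List.map (Sum.inl : Fin N → Fin N ⊕ Bool))).flatten.length := by
  rw [Multiset.map_coe, Multiset.sum_coe, List.length_flatten, List.map_map]
  congr 1
  apply List.map_congr_left
  intro w _
  simp

theorem special_words (T : List (List (Fin N ⊕ Bool))) (hT : ∀ w ∈ T, w ≠ [])
    (h0 : (T.flatten : Multiset (Fin N ⊕ Bool)).count (Sum.inr false) = 1)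
    (h1 : (T.flatten : Multiset (Fin N ⊕ Bool)).count (Sum.inr true) = 1) :
    ∃ s : Shape N,
      (∀ w ∈ s.1, w ≠ []) ∧ s.length + 2 = T.flatten.length ∧
      ((∀ (m : ℕ) (i j i' j' : Fin m), trProd (matS i j i' j') T =
          traceProd s.1 * (wordMat s.2.1 i j' * wordMat s.2.2 i' j)) ∨
       (∀ (m : ℕ) (i j i' j' : Fin m), trProd (matS i j i' j') T =
          traceProd s.1 * (wordMat s.2.1 i j * wordMat s.2.2 i' j'))) := by
  have hmem : Sum.inr false ∈ T.flatten := by
    have : 0 < (T.flatten : Multiset (Fin N ⊕ Bool)).count (Sum.inr false) := by omega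
    exact Multiset.mem_coe.mp (Multiset.count_pos.mp this)
  obtain ⟨a, b, T₁, hperm⟩ := flatten_perm_split T _ hmem
  have hflat := perm_flatten_coe hperm
  have hlen := hperm.flatten.length_eq
  rw [hflat] at h0 h1
  simp only [List.flatten_cons, ← Multiset.coe_add, ← Multiset.cons_coe, Multiset.count_add,
    Multiset.count_cons_self, Multiset.count_cons_of_ne (show (Sum.inr true : Fin N ⊕ Bool) ≠
      Sum.inr false by simp)] at h0 h1
  have ha0 : Sum.inr false ∉ a := fun h => by
    have := Multiset.count_pos.mpr (Multiset.mem_coe.mpr h); omega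
  have hb0 : Sum.inr false ∉ b := fun h => by
    have := Multiset.count_pos.mpr (Multiset.mem_coe.mpr h); omega
  have hT0 : Sum.inr false ∉ T₁.flatten := fun h => by
    have := Multiset.count_pos.mpr (Multiset.mem_coe.mpr h); omega
  have hT₁ne : ∀ w ∈ T₁, w ≠ [] := fun w hw => hT w (hperm.mem_iff.mpr (List.mem_cons_of_mem _ hw))
  have htr : ∀ (m : ℕ) (i j i' j' : Fin m), trProd (matS i j i' j') T =
      mw (matS i j i' j') (b ++ a) i j * trProd (matS i j i' j') T₁ := by
    intro m i j i' j'
    rw [trProd_perm _ hperm, trProd_cons,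
      trace_single_word (matS i j i' j') (Sum.inr false) j i rfl]
  by_cases hs1 : Sum.inr true ∈ b ++ a
  · -- the two special letters are in one word
    obtain ⟨c, d, hcd⟩ := List.append_of_mem hs1
    have hcount : (b : Multiset (Fin N ⊕ Bool)).count (Sum.inr true) +
        (a : Multiset (Fin N ⊕ Bool)).count (Sum.inr true) =
        (c : Multiset (Fin N ⊕ Bool)).count (Sum.inr true) +
        ((d : Multiset (Fin N ⊕ Bool)).count (Sum.inr true) + 1) := by
      have := congrArg (fun l : List (Fin N ⊕ Bool) => (l : Multiset (Fin N ⊕ Bool)).count (Sum.inr true)) hcd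
      simpa only [← Multiset.coe_add, ← Multiset.cons_coe, Multiset.count_add,
        Multiset.count_cons_self] using this
    have hc1 : Sum.inr true ∉ c := fun h => by
      have := Multiset.count_pos.mpr (Multiset.mem_coe.mpr h); omega
    have hd1 : Sum.inr true ∉ d := fun h => by
      have := Multiset.count_pos.mpr (Multiset.mem_coe.mpr h); omega
    have hT1 : Sum.inr true ∉ T₁.flatten := fun h => by
      have := Multiset.count_pos.mpr (Multiset.mem_coe.mpr h); omega
    have hc0 : Sum.inr false ∉ c := fun h => by
      have : Sum.inr false ∈ b ++ a := by rw [hcd]; simp [h]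
      rcases List.mem_append.mp this with h | h
      · exact hb0 h
      · exact ha0 h
    have hd0 : Sum.inr false ∉ d := fun h => by
      have : Sum.inr false ∈ b ++ a := by rw [hcd]; simp [h]
      rcases List.mem_append.mp this with h | h
      · exact hb0 h
      · exact ha0 h
    obtain ⟨c', rfl⟩ := exists_map_inl c hc0 hc1
    obtain ⟨d', rfl⟩ := exists_map_inl d hd0 hd1
    obtain ⟨T', rfl⟩ := exists_map_inl_list T₁ hT0 hT1
    refine ⟨(T', c', d'), ?_, ?_, Or.inl ?_⟩
    · intro w hw h
      subst h
      exact hT₁ne _ (List.mem_map_of_mem (f := List.map (Sum.inl : Fin N → Fin N ⊕ Bool))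
        (Multiset.mem_coe.mp hw)) rfl
    · have hl := congrArg List.length hcd
      simp only [List.length_append, List.length_cons, List.length_map, List.flatten_cons]
        at hl hlen
      simp only [Shape.length, length_map_inl]
      omega
    · intro m i j i' j'
      rw [htr, hcd, trProd_map_inl, mul_comm]
      congr 1
      have h2 : mw (matS i j i' j') (c'.map Sum.inl ++ Sum.inr true :: d'.map Sum.inl) =
          (wordMat c' : Matrix (Fin m) (Fin m) (PolyFun m N)) * Matrix.single j' i' 1 *
            wordMat d' := by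
        rw [mw_append, ← mw_map_inl i j i' j' c', ← mw_map_inl i j i' j' d', mul_assoc]
        simp [mw, matS]
      rw [h2, single_sandwich']
  · obtain ⟨v', hv'⟩ := exists_map_inl (b ++ a) (by
      intro h
      rcases List.mem_append.mp h with h | h
      · exact hb0 h
      · exact ha0 h) hs1
    have ha1 : (a : Multiset (Fin N ⊕ Bool)).count (Sum.inr true) = 0 :=
      Multiset.count_eq_zero.mpr fun h => hs1 (List.mem_append.mpr (Or.inr (Multiset.mem_coe.mp h)))
    have hb1 : (b : Multiset (Fin N ⊕ Bool)).count (Sum.inr true) = 0 :=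
      Multiset.count_eq_zero.mpr fun h => hs1 (List.mem_append.mpr (Or.inl (Multiset.mem_coe.mp h)))
    have hmem1 : Sum.inr true ∈ T₁.flatten := by
      have : 0 < (T₁.flatten : Multiset (Fin N ⊕ Bool)).count (Sum.inr true) := by omega
      exact Multiset.mem_coe.mp (Multiset.count_pos.mp this)
    obtain ⟨a₁, b₁, T₂, hperm₁⟩ := flatten_perm_split T₁ _ hmem1
    have hflat₁ := perm_flatten_coe hperm₁
    have hlen₁ := hperm₁.flatten.length_eq
    have hT0' := hT0
    rw [← Multiset.mem_coe, hflat₁, Multiset.mem_coe] at hT0'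
    rw [hflat₁] at h1
    simp only [List.flatten_cons, ← Multiset.coe_add, ← Multiset.cons_coe, Multiset.count_add,
      Multiset.count_cons_self] at h1
    have ha1' : Sum.inr true ∉ a₁ := fun h => by
      have := Multiset.count_pos.mpr (Multiset.mem_coe.mpr h); omega
    have hb1' : Sum.inr true ∉ b₁ := fun h => by
      have := Multiset.count_pos.mpr (Multiset.mem_coe.mpr h); omega
    have hT1' : Sum.inr true ∉ T₂.flatten := fun h => by
      have := Multiset.count_pos.mpr (Multiset.mem_coe.mpr h); omega
    simp only [List.flatten_cons, List.mem_append, List.mem_cons, not_or] at hT0'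
    obtain ⟨⟨ha0', -, hb0'⟩, hT0''⟩ := hT0'
    obtain ⟨u', hu'⟩ := exists_map_inl (b₁ ++ a₁) (by
      intro h
      rcases List.mem_append.mp h with h | h
      · exact hb0' h
      · exact ha0' h) (by
      intro h
      rcases List.mem_append.mp h with h | h
      · exact hb1' h
      · exact ha1' h)
    obtain ⟨T', rfl⟩ := exists_map_inl_list T₂ hT0'' hT1'
    refine ⟨(T', v', u'), ?_, ?_, Or.inr ?_⟩
    · intro w hw h
      subst h
      exact hT₁ne _ (hperm₁.mem_iff.mpr (List.mem_cons_of_mem _
        (List.mem_map_of_mem (f := List.map (Sum.inl : Fin N → Fin N ⊕ Bool))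
          (Multiset.mem_coe.mp hw)))) rfl
    · have hl := congrArg List.length hv'
      have hl' := congrArg List.length hu'
      simp only [List.length_append, List.length_cons, List.length_map, List.flatten_cons]
        at hl hl' hlen hlen₁
      simp only [Shape.length, length_map_inl]
      omega
    · intro m i j i' j'
      rw [htr, hv', trProd_perm _ hperm₁, trProd_cons,
        trace_single_word (matS i j i' j') (Sum.inr true) j' i' rfl, hu',
        mw_map_inl, mw_map_inl, trProd_map_inl]
      ring

end

end Pool.Agent.Helper93Trace
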