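import Pool.Agent.Helper93_Trace.General2

open MvPolynomial

set_option linter.unusedSectionVars false

namespace Pool.Agent.Helper93Trace

section
variable {m N : ℕ}

/-- The tensor of general form with given constants. -/
noncomputable def genT (m : ℕ) {N : ℕ} (k : ℕ) (c d : Shape N → ℂ) (i j i' j' : Fin m) :
    PolyFun m N :=
  ∑ s ∈ shapes N k, traceProd s.1 *
      (C (c s) * (wordMat s.2.1 i j' * wordMat s.2.2 i' j) +
        C (d s) * (wordMat s.2.1 i j * wordMat s.2.2 i' j'))

lemma genT_sum {ι : Type} (t : Finset ι) (k : ℕ) (c d : ι → Shape N → ℂ) (i j i' j' : Fin m) :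
    ∑ x ∈ t, genT m k (c x) (d x) i j i' j' =
      genT m k (fun s => ∑ x ∈ t, c x s) (fun s => ∑ x ∈ t, d x s) i j i' j' := by
  unfold genT
  rw [Finset.sum_comm]
  refine Finset.sum_congr rfl fun s _ => ?_
  rw [← Finset.mul_sum, Finset.sum_add_distrib, ← Finset.sum_mul, ← Finset.sum_mul, map_sum,
    map_sum]

lemma genT_zero (k : ℕ) (i j i' j' : Fin m) :
    genT m (N := N) k (fun _ => 0) (fun _ => 0) i j i' j' = 0 := by
  unfold genT
  apply Finset.sum_eq_zero
  intro s _
  simp

lemma genT_single_left (k : ℕ) (s₀ : Shape N) (hs : s₀ ∈ shapes N k) (r : ℂ) (i j i' j' : Fin m) :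
    genT m k (Function.update (fun _ => 0) s₀ r) (fun _ => 0) i j i' j' =
      C r * (traceProd s₀.1 * (wordMat s₀.2.1 i j' * wordMat s₀.2.2 i' j)) := by
  classical
  unfold genT
  rw [Finset.sum_eq_single s₀]
  · rw [Function.update_self, C_0, zero_mul, add_zero]; ring
  · intro s _ hs
    rw [Function.update_of_ne hs]
    simp
  · intro h; exact absurd hs h

lemma genT_single_right (k : ℕ) (s₀ : Shape N) (hs : s₀ ∈ shapes N k) (r : ℂ)
    (i j i' j' : Fin m) :
    genT m k (fun _ => 0) (Function.update (fun _ => 0) s₀ r) i j i' j' =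
      C r * (traceProd s₀.1 * (wordMat s₀.2.1 i j * wordMat s₀.2.2 i' j')) := by
  classical
  unfold genT
  rw [Finset.sum_eq_single s₀]
  · rw [Function.update_self, C_0, zero_mul, zero_add]; ring
  · intro s _ hs
    rw [Function.update_of_ne hs]
    simp
  · intro h; exact absurd hs h

/-- Every equivariant homogeneous 4-tensor has the general form. -/
theorem tensor_general (k : ℕ) (F : Fin m → Fin m → Fin m → Fin m → PolyFun m N)
    (hF : Equivariant F) (hh : ∀ i j i' j', (F i j i' j').IsHomogeneous k) :
    ∃ c d : Shape N → ℂ, ∀ i j i' j', F i j i' j' = genT m k c d i j i' j' := by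
  classical
  obtain ⟨r, hr0, hr⟩ := fft (k + 2) (psi F) (psi_homog k F hh) (psi_inv F hF)
  have hkey : ∀ (γ : Fin (k + 2) → Fin N ⊕ Bool) (σ : Equiv.Perm (Fin (k + 2))),
      ∃ c d : Shape N → ℂ, ∀ i j i' j' : Fin m,
        C (r γ σ) * ctr σ (fun t => matS (m := m) i j i' j' (γ t)) =
          genT m k c d i j i' j' := by
    intro γ σ
    by_cases hz : r γ σ = 0
    · refine ⟨fun _ => 0, fun _ => 0, fun i j i' j' => ?_⟩
      rw [genT_zero, hz, C_0, zero_mul]
    · -- the word `γ` contains each special letter once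
      have hex : ∃ p q : Fin (k + 2) → Fin m,
          coeff (typ fun t => (γ t, p t, q t)) (psi F) ≠ 0 := by
        by_contra hcon
        push Not at hcon
        exact hz (hr0 γ hcon σ)
      obtain ⟨p, q, hpq⟩ := hex
      have hcount : ∀ b : Bool, (Finset.univ.filter fun t => γ t = Sum.inr b).card = 1 := by
        intro b
        have := psi_weight b F hpq
        rw [weight_typ] at this
        exact this
      obtain ⟨T, hT1, hT2, hT3⟩ := ctr_words (fun t => [γ t]) σ (fun t => by simp)
      have hflat : (T.flatten : Multiset (Fin N ⊕ Bool)) = Finset.univ.val.map γ := by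
        rw [hT2]
        simp only [Multiset.coe_singleton]
        exact Finset.sum_multiset_singleton (Finset.univ : Finset (Fin (k + 2))) |> fun h => by
          rw [← Multiset.sum_map_singleton (Finset.univ.val.map γ), Multiset.map_map]
          rfl
      have hc : ∀ b : Bool, (T.flatten : Multiset (Fin N ⊕ Bool)).count (Sum.inr b) = 1 := by
        intro b
        rw [hflat, Multiset.count_map, ← hcount b, Finset.card_def, Finset.filter_val]
        congr 1
        apply Multiset.filter_congr
        intro x _
        exact eq_comm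
      have hlen : T.flatten.length = k + 2 := by
        have := congrArg Multiset.card hflat
        simpa using this
      obtain ⟨s, hs1, hs2, hs3⟩ := special_words T hT1 (hc false) (hc true)
      have hs : s ∈ shapes N k := mem_shapes.mpr ⟨hs1, by omega⟩
      have hctr : ∀ i j i' j' : Fin m, ctr σ (fun t => matS (m := m) i j i' j' (γ t)) =
          trProd (matS i j i' j') T := by
        intro i j i' j'
        rw [← hT3]
        simp [mw]
      rcases hs3 with h | h
      · refine ⟨Function.update (fun _ => 0) s (r γ σ), fun _ => 0, fun i j i' j' => ?_⟩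
        rw [genT_single_left k s hs, hctr, h]
      · refine ⟨fun _ => 0, Function.update (fun _ => 0) s (r γ σ), fun i j i' j' => ?_⟩
        rw [genT_single_right k s hs, hctr, h]
  choose c d hcd using hkey
  refine ⟨fun s => ∑ x : (Fin (k + 2) → Fin N ⊕ Bool) × Equiv.Perm (Fin (k + 2)), c x.1 x.2 s,
    fun s => ∑ x : (Fin (k + 2) → Fin N ⊕ Bool) × Equiv.Perm (Fin (k + 2)), d x.1 x.2 s,
    fun i j i' j' => ?_⟩
  rw [← genT_sum Finset.univ k (fun x : (Fin (k + 2) → Fin N ⊕ Bool) × Equiv.Perm (Fin (k + 2)) =>
    c x.1 x.2) (fun x => d x.1 x.2), Fintype.sum_prod_type]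
  have h1 := congrArg (theta i j i' j') hr
  rw [theta_psi, map_sum] at h1
  rw [h1]
  refine Finset.sum_congr rfl fun γ _ => ?_
  rw [map_sum]
  refine Finset.sum_congr rfl fun σ _ => ?_
  rw [map_mul, theta_ctr, ← hcd]
  congr 1
  rw [← MvPolynomial.algebraMap_eq, AlgHom.commutes, MvPolynomial.algebraMap_eq]

/-- Every homogeneous bracket satisfying (1) has the general form. -/
theorem bracket_general (B : PoissonBracket m N) (k : ℕ)
    (hB : ∀ (g : GL (Fin m) ℂ) (f h : PolyFun m N), B.br (conj g f) (conj g h) = conj g (B.br f h))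
    (hk : IsHomogeneousBracket B k) : IsGeneralForm B k := by
  have h : ∀ α β : Fin N, ∃ c d : Shape N → ℂ, ∀ i j i' j',
      B.br (X (α, i, j)) (X (β, i', j')) = genT m k c d i j i' j' := fun α β =>
    tensor_general k (fun i j i' j' => B.br (X (α, i, j)) (X (β, i', j')))
      (fun g i j i' j' => conj_br B hB g α β i j i' j') (fun i j i' j' => hk _ _)
  choose c d hcd using h
  exact ⟨c, d, fun α β i j i' j' => hcd α β i j i' j'⟩

end

end Pool.Agent.Helper93Trace
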