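import Pool.Agent.Helper93_Trace.General3
import Pool.Agent.Helper93_Trace.OneVar

open MvPolynomial

set_option linter.unusedSectionVars false

namespace Pool.Agent.Helper93Trace

section
variable {m N : ℕ}

lemma wordMat_cons (α : Fin N) (w : List (Fin N)) :
    (wordMat (α :: w) : MatR m N) = matVar α * wordMat w := by
  simp [wordMat]

lemma conjMat_wordMat (g : GL (Fin m) ℂ) (w : List (Fin N)) :
    conjMat g (wordMat w : MatR m N) = constMat (g : Matrix (Fin m) (Fin m) ℂ) * wordMat w *
      constMat ((g⁻¹ : GL (Fin m) ℂ) : Matrix (Fin m) (Fin m) ℂ) := by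
  induction w with
  | nil =>
    simp only [wordMat, List.map_nil, List.prod_nil]
    rw [map_one, mul_one, constMat_mul_inv]
  | cons α w ih =>
    rw [wordMat_cons, map_mul, ih, conjMat_matVar]
    set G : MatR m N := constMat (g : Matrix (Fin m) (Fin m) ℂ)
    set G' : MatR m N := constMat ((g⁻¹ : GL (Fin m) ℂ) : Matrix (Fin m) (Fin m) ℂ)
    have h : G' * G = 1 := constMat_inv_mul g
    calc G * matVar α * G' * (G * wordMat w * G') =
        G * matVar α * (G' * G) * wordMat w * G' := by simp only [mul_assoc]
      _ = G * (matVar α * wordMat w) * G' := by rw [h, mul_one]; simp only [mul_assoc]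

lemma conj_wordMat_entry (g : GL (Fin m) ℂ) (w : List (Fin N)) (i j : Fin m) :
    conj g ((wordMat w : MatR m N) i j) =
      ∑ a, ∑ b, (gE g i a * gI g b j) • (wordMat w : MatR m N) a b := by
  rw [← conjMat_apply, conjMat_wordMat, Matrix.mul_assoc, Matrix.mul_apply]
  refine Finset.sum_congr rfl fun a _ => ?_
  rw [Matrix.mul_apply, Finset.mul_sum]
  refine Finset.sum_congr rfl fun b _ => ?_
  simp only [constMat, Matrix.map_apply, MvPolynomial.algebraMap_eq,
    MvPolynomial.smul_eq_C_mul, C_mul]
  ring

lemma conj_trace_word (g : GL (Fin m) ℂ) (w : List (Fin N)) :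
    conj g (Matrix.trace (wordMat w : MatR m N)) = Matrix.trace (wordMat w : MatR m N) := by
  have : conj g (Matrix.trace (wordMat w : MatR m N)) =
      Matrix.trace (conjMat g (wordMat w : MatR m N)) := by
    simp [Matrix.trace, conjMat_apply]
  rw [this, conjMat_wordMat, Matrix.trace_mul_comm, ← mul_assoc, constMat_inv_mul, one_mul]

lemma conj_traceProd (g : GL (Fin m) ℂ) (T : Multiset (List (Fin N))) :
    conj g (traceProd T : PolyFun m N) = traceProd T := by
  rw [traceProd, map_multiset_prod, Multiset.map_map]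
  congr 1
  apply Multiset.map_congr rfl
  intro w _
  exact conj_trace_word g w

lemma sum_mul_sum4 {R : Type} [CommRing R] [Algebra ℂ R] (x y z w : Fin m → ℂ)
    (U V : Fin m → Fin m → R) :
    (∑ a, ∑ b', (x a * y b') • U a b') * (∑ a', ∑ b, (z a' * w b) • V a' b) =
      ∑ a, ∑ b, ∑ a', ∑ b', (x a * w b * (z a' * y b')) • (U a b' * V a' b) := by
  rw [Finset.sum_mul]
  refine Finset.sum_congr rfl fun a _ => ?_
  rw [Finset.sum_mul_sum]
  simp only [Finset.mul_sum]
  rw [Finset.sum_congr rfl (fun b' _ => Finset.sum_comm), Finset.sum_comm]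
  refine Finset.sum_congr rfl fun b _ => ?_
  rw [Finset.sum_comm]
  refine Finset.sum_congr rfl fun a' _ => Finset.sum_congr rfl fun b' _ => ?_
  rw [smul_mul_smul_comm]
  congr 1
  ring

lemma conj_C (g : GL (Fin m) ℂ) (a : ℂ) : conj g (C a : PolyFun m N) = C a := by
  rw [← MvPolynomial.algebraMap_eq]; exact (conj g).commutes _

lemma conj_genT (g : GL (Fin m) ℂ) (k : ℕ) (c d : Shape N → ℂ) (i j i' j' : Fin m) :
    conj g (genT m k c d i j i' j') =
      ∑ a, ∑ b, ∑ a', ∑ b', (gE g i a * gI g b j * (gE g i' a' * gI g b' j')) •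
        genT m k c d a b a' b' := by
  have hs : ∀ s : Shape N, conj g (traceProd s.1 *
      (C (c s) * (wordMat s.2.1 i j' * wordMat s.2.2 i' j) +
        C (d s) * (wordMat s.2.1 i j * wordMat s.2.2 i' j'))) =
      ∑ a, ∑ b, ∑ a', ∑ b', (gE g i a * gI g b j * (gE g i' a' * gI g b' j')) •
        (traceProd s.1 * (C (c s) * (wordMat s.2.1 a b' * wordMat s.2.2 a' b) +
        C (d s) * (wordMat s.2.1 a b * wordMat s.2.2 a' b')) : PolyFun m N) := by
    intro s
    rw [map_mul, map_add, map_mul, map_mul, map_mul, map_mul, conj_C, conj_C, conj_traceProd,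
      conj_wordMat_entry, conj_wordMat_entry, conj_wordMat_entry, conj_wordMat_entry]
    rw [sum_mul_sum4 (gE g i) (fun b' => gI g b' j') (gE g i') (fun b => gI g b j)]
    have h2 : (∑ a, ∑ b, (gE g i a * gI g b j) • (wordMat s.2.1 : MatR m N) a b) *
        (∑ a', ∑ b', (gE g i' a' * gI g b' j') • (wordMat s.2.2 : MatR m N) a' b') =
        ∑ a, ∑ b, ∑ a', ∑ b', (gE g i a * gI g b j * (gE g i' a' * gI g b' j')) •
          ((wordMat s.2.1 : MatR m N) a b * (wordMat s.2.2 : MatR m N) a' b') := by
      rw [Finset.sum_mul]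
      refine Finset.sum_congr rfl fun a _ => ?_
      rw [Finset.sum_mul]
      refine Finset.sum_congr rfl fun b _ => ?_
      rw [Finset.mul_sum]
      refine Finset.sum_congr rfl fun a' _ => ?_
      rw [Finset.mul_sum]
      refine Finset.sum_congr rfl fun b' _ => ?_
      rw [smul_mul_smul_comm]
    rw [h2]
    simp only [Finset.mul_sum, mul_add, smul_add, Finset.sum_add_distrib, mul_smul_comm]
  unfold genT
  rw [map_sum]
  simp only [hs, Finset.smul_sum]
  rw [Finset.sum_comm]
  refine Finset.sum_congr rfl fun a _ => ?_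
  rw [Finset.sum_comm]
  refine Finset.sum_congr rfl fun b _ => ?_
  rw [Finset.sum_comm]
  refine Finset.sum_congr rfl fun a' _ => ?_
  rw [Finset.sum_comm]

lemma wordMat_homog (w : List (Fin N)) (i j : Fin m) :
    ((wordMat w : MatR m N) i j).IsHomogeneous w.length := by
  induction w generalizing i j with
  | nil =>
    simp only [wordMat, List.map_nil, List.prod_nil, List.length_nil]
    exact one_homog i j
  | cons α w ih =>
    rw [wordMat_cons, List.length_cons]
    exact matVar_mul_homog ih α i j

lemma traceProd_homog (T : Multiset (List (Fin N))) :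
    (traceProd T : PolyFun m N).IsHomogeneous (T.map List.length).sum := by
  induction T using Multiset.induction_on with
  | empty =>
    simp only [traceProd, Multiset.map_zero, Multiset.prod_zero, Multiset.sum_zero]
    exact isHomogeneous_one _ _
  | cons w T ih =>
    have : (traceProd (w ::ₘ T) : PolyFun m N) =
        Matrix.trace (wordMat w : MatR m N) * traceProd T := by
      simp [traceProd]
    rw [this, Multiset.map_cons, Multiset.sum_cons]
    refine IsHomogeneous.mul ?_ ih
    unfold Matrix.trace
    exact IsHomogeneous.sum _ _ _ fun i _ => wordMat_homog w i i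

lemma genT_homog (k : ℕ) (c d : Shape N → ℂ) (i j i' j' : Fin m) :
    (genT m k c d i j i' j').IsHomogeneous k := by
  unfold genT
  apply IsHomogeneous.sum
  intro s hs
  have hk := (mem_shapes.mp hs).2
  rw [← hk, Shape.length, add_assoc]
  refine (traceProd_homog s.1).mul (IsHomogeneous.add ?_ ?_)
  · have := ((isHomogeneous_C _ (c s)).mul ((wordMat_homog (m := m) s.2.1 i j').mul
      (wordMat_homog s.2.2 i' j)))
    rwa [zero_add] at this
  · have := ((isHomogeneous_C _ (d s)).mul ((wordMat_homog (m := m) s.2.1 i j).mul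
      (wordMat_homog s.2.2 i' j')))
    rwa [zero_add] at this

/-- A Poisson bracket has the general form in degree `k` exactly when it is homogeneous of degree
`k` and invariant under simultaneous conjugation. -/
theorem generalForm_iff (B : PoissonBracket m N) (k : ℕ) :
    IsGeneralForm B k ↔
      (∀ (g : GL (Fin m) ℂ) (f h : PolyFun m N), B.br (conj g f) (conj g h) = conj g (B.br f h)) ∧
        IsHomogeneousBracket B k := by
  constructor
  · rintro ⟨c, d, hcd⟩
    have hcd' : ∀ (α β : Fin N) (i j i' j' : Fin m), B.br (X (α, i, j)) (X (β, i', j')) =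
        genT m k (c α β) (d α β) i j i' j' := hcd
    refine ⟨fun g f h => ?_, ?_⟩
    · apply equivariant_of_X
      rintro ⟨α, i, j⟩ ⟨β, i', j'⟩
      rw [hcd', conj_genT, conj_X_sum g α]
      have h1 : ∀ Y : PolyFun m N, B.br (∑ a, ∑ b, (gE g i a * gI g b j) • X (α, a, b)) Y =
          ∑ a, ∑ b, (gE g i a * gI g b j) • B.br (X (α, a, b)) Y := by
        intro Y
        simp only [map_sum, LinearMap.sum_apply, map_smul, LinearMap.smul_apply]
      rw [h1]
      refine Finset.sum_congr rfl fun a _ => Finset.sum_congr rfl fun b _ => ?_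
      rw [conj_X_sum]
      simp only [map_sum, map_smul, Finset.smul_sum, smul_smul, hcd']
    · rintro ⟨α, i, j⟩ ⟨β, i', j'⟩
      rw [hcd']
      exact genT_homog k _ _ i j i' j'
  · rintro ⟨h1, h2⟩
    exact bracket_general B k h1 h2

end

end Pool.Agent.Helper93Trace
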