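import Pool.Agent.Helper93_Trace.Counter

open MvPolynomial

namespace Pool.Agent.Helper93Trace

variable {m N : ℕ}

/-! ### Biderivations on the polynomial ring -/

/-- The biderivation with prescribed values on the variables. -/
noncomputable def biDer (lam : (Fin N × Fin m × Fin m) → (Fin N × Fin m × Fin m) → PolyFun m N) :
    PolyFun m N →ₗ[ℂ] PolyFun m N →ₗ[ℂ] PolyFun m N :=
  ∑ a, ∑ b, ((LinearMap.mul ℂ (PolyFun m N)).compl₁₂
      ((LinearMap.mulRight ℂ (lam a b)) ∘ₗ (pderiv a : Derivation ℂ (PolyFun m N) _).toLinearMap)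
      (pderiv b : Derivation ℂ (PolyFun m N) _).toLinearMap)

lemma biDer_apply (lam : (Fin N × Fin m × Fin m) → (Fin N × Fin m × Fin m) → PolyFun m N)
    (f g) : biDer lam f g = ∑ a, ∑ b, pderiv a f * lam a b * pderiv b g := by
  simp [biDer, LinearMap.sum_apply]

lemma biDer_X (lam : (Fin N × Fin m × Fin m) → (Fin N × Fin m × Fin m) → PolyFun m N)
    (a b) : biDer lam (X a) (X b) = lam a b := by
  rw [biDer_apply, Finset.sum_eq_single a, Finset.sum_eq_single b]
  · simp
  · intro c _ hc
    rw [pderiv_X_of_ne hc.symm, mul_zero]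
  · simp
  · intro c _ hc
    apply Finset.sum_eq_zero
    intro d _
    rw [pderiv_X_of_ne hc.symm, zero_mul, zero_mul]
  · simp

lemma biDer_leibniz (lam : (Fin N × Fin m × Fin m) → (Fin N × Fin m × Fin m) → PolyFun m N)
    (f g h) : biDer lam f (g * h) = biDer lam f g * h + g * biDer lam f h := by
  simp only [biDer_apply, Derivation.leibniz, smul_eq_mul, Finset.sum_mul, Finset.mul_sum,
    ← Finset.sum_add_distrib]
  refine Finset.sum_congr rfl fun a _ => Finset.sum_congr rfl fun b _ => ?_
  ring

lemma biDer_skew (lam : (Fin N × Fin m × Fin m) → (Fin N × Fin m × Fin m) → PolyFun m N)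
    (hs : ∀ a b, lam a b = - lam b a) (f g) : biDer lam f g = - biDer lam g f := by
  rw [biDer_apply, biDer_apply, Finset.sum_comm, ← Finset.sum_neg_distrib]
  refine Finset.sum_congr rfl fun a _ => ?_
  rw [← Finset.sum_neg_distrib]
  refine Finset.sum_congr rfl fun b _ => ?_
  rw [hs b a]
  ring

/-- A skew biderivation whose Jacobiator vanishes on variables satisfies the Jacobi identity. -/
lemma jacobi_of_X (B : PolyFun m N →ₗ[ℂ] PolyFun m N →ₗ[ℂ] PolyFun m N)
    (skew : ∀ f g, B f g = - B g f) (leib : ∀ f g h, B f (g * h) = B f g * h + g * B f h)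
    (hX : ∀ a b c, B (X a) (B (X b) (X c)) + B (X b) (B (X c) (X a)) +
      B (X c) (B (X a) (X b)) = 0) (f g h) :
    B f (B g h) + B g (B h f) + B h (B f g) = 0 := by
  have leib' : ∀ f g h, B (f * g) h = B f h * g + f * B g h := by
    intro f g h
    rw [skew, leib, skew h f, skew h g]; ring
  have hone : ∀ f, B f 1 = 0 := by
    intro f
    have := leib f 1 1
    rw [mul_one, mul_one, one_mul] at this
    exact left_eq_add.mp this
  have hC : ∀ f (a : ℂ), B f (C a) = 0 := by
    intro f a
    have : (C a : PolyFun m N) = a • 1 := by rw [MvPolynomial.smul_eq_C_mul, mul_one]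
    rw [this, map_smul, hone, smul_zero]
  have hC' : ∀ f (a : ℂ), B (C a) f = 0 := by
    intro f a; rw [skew, hC, neg_zero]
  -- the Leibniz rule for the Jacobiator in the first argument
  have key : ∀ g h : PolyFun m N, (∀ a, B (X a) (B g h) + B g (B h (X a)) + B h (B (X a) g) = 0) →
      ∀ f, B f (B g h) + B g (B h f) + B h (B f g) = 0 := by
    intro g h hgh f
    induction f using MvPolynomial.induction_on with
    | C a => rw [hC', hC, hC', map_zero, map_zero]; simp
    | add p q hp hq =>
      simp only [map_add, LinearMap.add_apply]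
      linear_combination hp + hq
    | mul_X p i hp =>
      have hi := hgh i
      have e1 : B (p * X i) (B g h) = B p (B g h) * X i + p * B (X i) (B g h) := leib' _ _ _
      have e2 : B g (B h (p * X i)) = B g (B h p) * X i + B h p * B g (X i) +
          (B g p * B h (X i) + p * B g (B h (X i))) := by
        rw [leib, map_add, leib, leib]
      have e3 : B h (B (p * X i) g) = B h (B p g) * X i + B p g * B h (X i) +
          (B h p * B (X i) g + p * B h (B (X i) g)) := by
        rw [leib', map_add, leib, leib]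
      rw [e1, e2, e3, skew p g, skew (X i) g, map_neg, map_neg]
      rw [skew p g, skew (X i) g, map_neg, map_neg] at *
      linear_combination (X i) * hp + p * hi
  apply key
  intro a
  have h1 : ∀ b, B (X a) (B (X b) h) + B (X b) (B h (X a)) + B h (B (X a) (X b)) = 0 := by
    intro b
    have := key (X a) (X b) (fun c => by
      have := hX a b c
      linear_combination this) h
    linear_combination this
  have := key h (X a) (fun b => by
    have := h1 b
    linear_combination this) g
  linear_combination this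

/-! ### The Lie–Poisson bracket of `gl_m` (one matrix variable) -/

/-- `{x_{ij}, x_{i'j'}} = x_{ij'} δ_{i'j} - x_{i'j} δ_{ij'}`. -/
noncomputable def lpCoef (m : ℕ) (a b : Fin 1 × Fin m × Fin m) : PolyFun m 1 :=
  X (0, a.2.1, b.2.2) * (1 : MatR m 1) b.2.1 a.2.2 -
    X (0, b.2.1, a.2.2) * (1 : MatR m 1) a.2.1 b.2.2

lemma lpCoef_skew (m : ℕ) (a b) : lpCoef m a b = - lpCoef m b a := by
  simp only [lpCoef]; ring

lemma B_const (B : PolyFun m N →ₗ[ℂ] PolyFun m N →ₗ[ℂ] PolyFun m N)
    (leib : ∀ f g h, B f (g * h) = B f g * h + g * B f h) (f) (i j : Fin m) :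
    B f ((1 : MatR m N) i j) = 0 := by
  have hone : B f 1 = 0 := by
    have := leib f 1 1
    rw [mul_one, mul_one, one_mul] at this
    exact left_eq_add.mp this
  rw [Matrix.one_apply]
  split_ifs
  · exact hone
  · exact map_zero _

lemma lp_jacobi_X (m : ℕ) (a b c) :
    biDer (lpCoef m) (X a) (biDer (lpCoef m) (X b) (X c)) +
      biDer (lpCoef m) (X b) (biDer (lpCoef m) (X c) (X a)) +
      biDer (lpCoef m) (X c) (biDer (lpCoef m) (X a) (X b)) = 0 := by
  have h : ∀ a b c, biDer (lpCoef m) (X a) (biDer (lpCoef m) (X b) (X c)) =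
      lpCoef m a (0, b.2.1, c.2.2) * (1 : MatR m 1) c.2.1 b.2.2 -
      lpCoef m a (0, c.2.1, b.2.2) * (1 : MatR m 1) b.2.1 c.2.2 := by
    intro a b c
    rw [biDer_X]
    conv_lhs => rw [lpCoef]
    rw [map_sub, biDer_leibniz, biDer_leibniz, B_const _ (biDer_leibniz _),
      B_const _ (biDer_leibniz _), biDer_X, biDer_X]
    ring
  rw [h, h, h]
  simp only [lpCoef]
  ring

/-- The Lie–Poisson bracket. -/
noncomputable def lpBracket (m : ℕ) : PoissonBracket m 1 where
  br := biDer (lpCoef m)
  skew := biDer_skew _ (lpCoef_skew m)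
  leibniz := biDer_leibniz _
  jacobi := jacobi_of_X _ (biDer_skew _ (lpCoef_skew m)) (biDer_leibniz _) (lp_jacobi_X m)

/-- Multiplying a Poisson bracket by a Casimir element. -/
noncomputable def casimirMul (B : PoissonBracket m N) (c : PolyFun m N) (hc : ∀ f, B.br f c = 0) :
    PoissonBracket m N where
  br := c • B.br
  skew f g := by
    simp only [LinearMap.smul_apply]
    rw [B.skew]; simp
  leibniz f g h := by
    simp only [LinearMap.smul_apply, B.leibniz, smul_eq_mul]; ring
  jacobi f g h := by
    simp only [LinearMap.smul_apply, smul_eq_mul, B.leibniz, hc]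
    have := B.jacobi f g h
    linear_combination c ^ 2 * this

/-- Derivation `B f ·`. -/
noncomputable def hamDer (B : PoissonBracket m N) (f : PolyFun m N) :
    Derivation ℂ (PolyFun m N) (PolyFun m N) :=
  Derivation.mk' (B.br f) (fun g h => by rw [B.leibniz]; simp only [smul_eq_mul]; ring)

lemma hamDer_apply (B : PoissonBracket m N) (f g : PolyFun m N) : hamDer B f g = B.br f g := rfl

/-- If the derivation `D` acts on the matrix variables as the commutator with a constant matrix,
it kills traces of matrix polynomials. -/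
lemma trace_zero_of_comm (D : Derivation ℂ (PolyFun m N) (PolyFun m N)) (E : MatR m N)
    (h : ∀ α, dMat D (matVar α) = matVar α * E - E * matVar α) (P : FreeAlgebra ℂ (Fin N)) :
    dMat D (matPoly P) = matPoly P * E - E * matPoly P := by
  induction P using FreeAlgebra.induction with
  | grade0 r =>
    rw [AlgHom.commutes]
    have h : dMat D (algebraMap ℂ (MatR m N) r) = 0 := by
      ext1 i j
      rw [dMat_apply, Matrix.algebraMap_matrix_apply]
      split_ifs
      · rw [Derivation.map_algebraMap]; rfl
      · rw [map_zero]; rfl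
    rw [h, Algebra.commutes, sub_self]
  | grade1 α =>
    have : (matPoly (FreeAlgebra.ι ℂ α) : MatR m N) = matVar α := by simp [matPoly]
    rw [this, h]
  | mul a b ha hb =>
    rw [map_mul, dMat_mul, ha, hb]
    noncomm_ring
  | add a b ha hb =>
    rw [map_add, dMat_add, ha, hb]
    noncomm_ring

lemma lp_hamDer_X (m : ℕ) (a : Fin 1 × Fin m × Fin m) (α : Fin 1) :
    dMat (hamDer (lpBracket m) (X a)) (matVar α) =
      matVar α * (-(Matrix.single a.2.2 a.2.1 1)) - (-(Matrix.single a.2.2 a.2.1 1)) * matVar α := by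
  ext1 k l
  rw [dMat_apply, hamDer_apply]
  have hα : α = 0 := Subsingleton.elim _ _
  subst hα
  simp only [lpBracket, matVar, Matrix.of_apply, biDer_X, lpCoef, Matrix.sub_apply,
    Matrix.mul_neg, Matrix.neg_mul, Matrix.neg_apply]
  rw [Matrix.mul_apply, Matrix.mul_apply, Finset.sum_eq_single a.2.2, Finset.sum_eq_single a.2.1]
  · simp only [Matrix.of_apply, Matrix.single_apply, Matrix.one_apply]
    by_cases h1 : k = a.2.2 <;> by_cases h2 : a.2.1 = l <;>
      simp [h1, h2, eq_comm] <;> ring
  · intro b _ hb
    simp [hb.symm]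
  · simp
  · intro b _ hb
    simp [hb.symm]
  · simp

lemma lp_trace_casimir (m : ℕ) (f : PolyFun m 1) (P : FreeAlgebra ℂ (Fin 1)) :
    (lpBracket m).br f (Matrix.trace (matPoly P)) = 0 := by
  have hX : ∀ a, (lpBracket m).br (X a) (Matrix.trace (matPoly P)) = 0 := by
    intro a
    rw [← hamDer_apply, trace_dMat, trace_zero_of_comm _ _ (lp_hamDer_X m a),
      Matrix.trace_sub, Matrix.trace_mul_comm, sub_self]
  change biDer (lpCoef m) f _ = 0
  have hX' : ∀ a, ∑ b, lpCoef m a b * pderiv b (Matrix.trace (matPoly P)) = 0 := by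
    intro a
    have := hX a
    change biDer (lpCoef m) (X a) _ = 0 at this
    rw [biDer_apply, Finset.sum_eq_single a] at this
    · simpa using this
    · intro c _ hc
      apply Finset.sum_eq_zero
      intro d _
      rw [pderiv_X_of_ne hc.symm, zero_mul, zero_mul]
    · simp
  rw [biDer_apply]
  apply Finset.sum_eq_zero
  intro a _
  simp only [mul_assoc]
  rw [← Finset.mul_sum, hX' a, mul_zero]

end Pool.Agent.Helper93Trace
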