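import Pool.Agent.Helper93_Trace.Density

open MvPolynomial

set_option linter.unusedSectionVars false

namespace Pool.Agent.Helper93Trace

section
variable {m N : ℕ}

lemma wordMat_eq_wv (w : List (Fin N)) : (wordMat w : MatR m N) = wv matVar w := rfl

lemma TE_XT (T : Multiset (List (Fin N))) (hT : ∀ w ∈ T, w ≠ []) :
    TE (matVar : Fin N → MatR m N) (XT T) = traceProd T := by
  rw [XT, traceProd, map_multiset_prod, Multiset.map_map]
  congr 1
  apply Multiset.map_congr rfl
  intro w hw
  rw [Function.comp_apply, TE_X, tw_of_ne _ (hT w hw)]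
  rfl

lemma dMat_wordMat (D : Derivation ℂ (PolyFun m N) (PolyFun m N)) (w : List (Fin N)) :
    dMat D (wordMat w : MatR m N) = dl matVar (fun α => dMat D (matVar α)) w := by
  induction w with
  | nil =>
    simp only [wordMat, List.map_nil, List.prod_nil]
    rw [dMat_one]
    rfl
  | cons a w ih =>
    rw [wordMat_cons, dMat_mul, ih]
    rfl

lemma der_trace (D : Derivation ℂ (PolyFun m N) (PolyFun m N)) (w : List (Fin N)) :
    D (Matrix.trace (wordMat w : MatR m N)) =
      ∑ α, Matrix.trace (grad matVar w α * dMat D (matVar α)) := by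
  rw [trace_dMat, dMat_wordMat, trace_dl]

lemma der_trace' (D : Derivation ℂ (PolyFun m N) (PolyFun m N)) (w : List (Fin N)) :
    D (Matrix.trace (wordMat w : MatR m N)) =
      ∑ α, ∑ i, ∑ j, (grad matVar w α : MatR m N) j i * D (X (α, i, j)) := by
  rw [der_trace]
  refine Finset.sum_congr rfl fun α _ => ?_
  rw [Matrix.trace, Finset.sum_comm]
  refine Finset.sum_congr rfl fun j _ => ?_
  rw [Matrix.diag_apply, Matrix.mul_apply]
  rfl

lemma br_trace (B : PoissonBracket m N) (P Q : List (Fin N)) :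
    B.br (Matrix.trace (wordMat P)) (Matrix.trace (wordMat Q)) =
      ∑ β, ∑ i', ∑ j', (grad matVar Q β : MatR m N) j' i' *
        ∑ α, ∑ i, ∑ j, (grad matVar P α : MatR m N) j i * B.br (X (α, i, j)) (X (β, i', j')) := by
  rw [← hamDer_apply, der_trace']
  refine Finset.sum_congr rfl fun β _ => Finset.sum_congr rfl fun i' _ =>
    Finset.sum_congr rfl fun j' _ => ?_
  congr 1
  rw [hamDer_apply, B.skew, ← hamDer_apply, der_trace']
  simp only [← Finset.sum_neg_distrib]
  refine Finset.sum_congr rfl fun α _ => Finset.sum_congr rfl fun i _ =>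
    Finset.sum_congr rfl fun j _ => ?_
  rw [hamDer_apply, B.skew, mul_neg, neg_neg]

lemma trace4 (A U A' V : MatR m N) : Matrix.trace (A * U * A' * V) =
    ∑ i', ∑ j', ∑ i, ∑ j, A' j' i' * (A j i * (U i j' * V i' j)) := by
  simp only [Matrix.trace, Matrix.diag_apply, Matrix.mul_apply, Finset.sum_mul]
  calc ∑ j, ∑ i', ∑ j', ∑ i, A j i * U i j' * A' j' i' * V i' j =
      ∑ i', ∑ j, ∑ j', ∑ i, A j i * U i j' * A' j' i' * V i' j := Finset.sum_comm
    _ = ∑ i', ∑ j', ∑ j, ∑ i, A j i * U i j' * A' j' i' * V i' j :=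
        Finset.sum_congr rfl fun i' _ => Finset.sum_comm
    _ = ∑ i', ∑ j', ∑ i, ∑ j, A j i * U i j' * A' j' i' * V i' j :=
        Finset.sum_congr rfl fun i' _ => Finset.sum_congr rfl fun j' _ => Finset.sum_comm
    _ = _ := by
        refine Finset.sum_congr rfl fun i' _ => Finset.sum_congr rfl fun j' _ =>
          Finset.sum_congr rfl fun i _ => Finset.sum_congr rfl fun j _ => ?_
        ring

lemma trace22 (A U A' V : MatR m N) : Matrix.trace (A * U) * Matrix.trace (A' * V) =
    ∑ i', ∑ j', ∑ i, ∑ j, A' j' i' * (A j i * (U i j * V i' j')) := by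
  simp only [Matrix.trace, Matrix.diag_apply, Matrix.mul_apply]
  rw [Finset.sum_mul_sum, Finset.sum_comm]
  have h1 : ∀ j' j, (∑ i, A j i * U i j) * ∑ i', A' j' i' * V i' j' =
      ∑ i', ∑ i, A' j' i' * (A j i * (U i j * V i' j')) := by
    intro j' j
    rw [Finset.sum_mul_sum, Finset.sum_comm]
    refine Finset.sum_congr rfl fun i' _ => Finset.sum_congr rfl fun i _ => ?_
    ring
  simp only [h1]
  calc ∑ j', ∑ j, ∑ i', ∑ i, A' j' i' * (A j i * (U i j * V i' j')) =
      ∑ j', ∑ i', ∑ j, ∑ i, A' j' i' * (A j i * (U i j * V i' j')) :=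
        Finset.sum_congr rfl fun j' _ => Finset.sum_comm
    _ = ∑ i', ∑ j', ∑ j, ∑ i, A' j' i' * (A j i * (U i j * V i' j')) := Finset.sum_comm
    _ = ∑ i', ∑ j', ∑ i, ∑ j, A' j' i' * (A j i * (U i j * V i' j')) :=
        Finset.sum_congr rfl fun i' _ => Finset.sum_congr rfl fun j' _ => Finset.sum_comm

/-- The contraction of a tensor of general form with two covectors. -/
lemma contract_genT (k : ℕ) (c d : Fin N → Fin N → Shape N → ℂ) (A A' : Fin N → MatR m N) :
    ∑ β, ∑ i', ∑ j', A' β j' i' *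
        ∑ α, ∑ i, ∑ j, A α j i * genT m k (c α β) (d α β) i j i' j' =
      PhiF k c d matVar A A' := by
  have h1 : ∀ α β, ∑ i', ∑ j', ∑ i, ∑ j, A' β j' i' * (A α j i *
      genT m k (c α β) (d α β) i j i' j') =
      ∑ s ∈ shapes N k, TE matVar (XT s.1) *
        (algebraMap ℂ (PolyFun m N) (c α β s) *
          Matrix.trace (A α * wv matVar s.2.1 * A' β * wv matVar s.2.2) +
        algebraMap ℂ (PolyFun m N) (d α β s) * (Matrix.trace (A α * wv matVar s.2.1) *
          Matrix.trace (A' β * wv matVar s.2.2))) := by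
    intro α β
    have h2 : ∀ i' j' i j, A' β j' i' * (A α j i * genT m k (c α β) (d α β) i j i' j') =
        ∑ s ∈ shapes N k, (traceProd s.1 * (C (c α β s) * (A' β j' i' * (A α j i *
          (wordMat s.2.1 i j' * wordMat s.2.2 i' j))) +
          C (d α β s) * (A' β j' i' * (A α j i * (wordMat s.2.1 i j * wordMat s.2.2 i' j'))))) := by
      intro i' j' i j
      rw [genT, Finset.mul_sum, Finset.mul_sum]
      refine Finset.sum_congr rfl fun s _ => ?_
      ring
    simp only [h2]
    rw [Finset.sum_congr rfl (fun i' _ => Finset.sum_congr rfl (fun j' _ =>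
      Finset.sum_congr rfl (fun i _ => Finset.sum_comm)))]
    rw [Finset.sum_congr rfl (fun i' _ => Finset.sum_congr rfl (fun j' _ => Finset.sum_comm))]
    rw [Finset.sum_congr rfl (fun i' _ => Finset.sum_comm)]
    rw [Finset.sum_comm]
    refine Finset.sum_congr rfl fun s hs => ?_
    rw [TE_XT s.1 (mem_shapes.mp hs).1, trace4, trace22]
    simp only [Finset.mul_sum, mul_add, Finset.sum_add_distrib, wordMat_eq_wv,
      MvPolynomial.algebraMap_eq]
  calc ∑ β, ∑ i', ∑ j', A' β j' i' * ∑ α, ∑ i, ∑ j, A α j i *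
        genT m k (c α β) (d α β) i j i' j' =
      ∑ β, ∑ i', ∑ j', ∑ α, ∑ i, ∑ j, A' β j' i' * (A α j i *
        genT m k (c α β) (d α β) i j i' j') := by
        simp only [Finset.mul_sum]
    _ = ∑ β, ∑ i', ∑ α, ∑ j', ∑ i, ∑ j, A' β j' i' * (A α j i *
        genT m k (c α β) (d α β) i j i' j') :=
        Finset.sum_congr rfl fun β _ => Finset.sum_congr rfl fun i' _ => Finset.sum_comm
    _ = ∑ β, ∑ α, ∑ i', ∑ j', ∑ i, ∑ j, A' β j' i' * (A α j i *
        genT m k (c α β) (d α β) i j i' j') :=
        Finset.sum_congr rfl fun β _ => Finset.sum_comm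
    _ = ∑ α, ∑ β, ∑ i', ∑ j', ∑ i, ∑ j, A' β j' i' * (A α j i *
        genT m k (c α β) (d α β) i j i' j') := Finset.sum_comm
    _ = ∑ α, ∑ β, ∑ s ∈ shapes N k, TE matVar (XT s.1) *
        (algebraMap ℂ (PolyFun m N) (c α β s) *
          Matrix.trace (A α * wv matVar s.2.1 * A' β * wv matVar s.2.2) +
        algebraMap ℂ (PolyFun m N) (d α β s) * (Matrix.trace (A α * wv matVar s.2.1) *
          Matrix.trace (A' β * wv matVar s.2.2))) :=
        Finset.sum_congr rfl fun α _ => Finset.sum_congr rfl fun β _ => h1 α β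
    _ = PhiF k c d matVar A A' := by
        unfold PhiF
        rw [Finset.sum_congr rfl (fun α _ => Finset.sum_comm), Finset.sum_comm]

/-- Brackets of traces of words, for a bracket of general form. -/
theorem br_trace_PhiF (B : PoissonBracket m N) (k : ℕ) (c d : Fin N → Fin N → Shape N → ℂ)
    (hcd : ∀ (α β : Fin N) (i j i' j' : Fin m), B.br (X (α, i, j)) (X (β, i', j')) =
      genT m k (c α β) (d α β) i j i' j') (P Q : List (Fin N)) :
    B.br (Matrix.trace (wordMat P)) (Matrix.trace (wordMat Q)) =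
      PhiF k c d matVar (grad matVar P) (grad matVar Q) := by
  rw [br_trace, ← contract_genT]
  simp only [hcd]

/-- Noncommutative polynomials are combinations of words. -/
lemma matPoly_words (P : FreeAlgebra ℂ (Fin N)) : ∃ a : List (Fin N) →₀ ℂ,
    (matPoly P : MatR m N) = a.sum fun w r => r • wordMat w := by
  have h : (matPoly P : MatR m N) ∈ Submodule.span ℂ (Set.range fun w : List (Fin N) =>
      (wordMat w : MatR m N)) := by
    induction P using FreeAlgebra.induction with
    | grade0 r =>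
      rw [AlgHom.commutes, Algebra.algebraMap_eq_smul_one]
      apply Submodule.smul_mem
      apply Submodule.subset_span
      exact ⟨[], by simp [wordMat]⟩
    | grade1 α =>
      apply Submodule.subset_span
      exact ⟨[α], by simp [wordMat, matPoly]⟩
    | add a b ha hb => rw [map_add]; exact Submodule.add_mem _ ha hb
    | mul a b ha hb =>
      rw [map_mul]
      have h1 := Submodule.mul_mem_mul ha hb
      rw [Submodule.span_mul_span] at h1
      refine Submodule.span_mono ?_ h1
      rintro _ ⟨_, ⟨u, rfl⟩, _, ⟨v, rfl⟩, rfl⟩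
      exact ⟨u ++ v, by simp [wordMat]⟩
  rw [Finsupp.mem_span_range_iff_exists_finsupp] at h
  obtain ⟨a, ha⟩ := h
  exact ⟨a, ha.symm⟩

end

end Pool.Agent.Helper93Trace
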