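import Pool.Agent.Helper93_Trace.Main1

open MvPolynomial

set_option linter.unusedSectionVars false

namespace Pool.Agent.Helper93Trace

section
variable {m N : ℕ}

/-- The part of the constants with trace factors. -/
noncomputable def c0 (c : Fin N → Fin N → Shape N → ℂ) : Fin N → Fin N → Shape N → ℂ :=
  fun α β s => by classical exact if s.1 = 0 then 0 else c α β s

/-- The part of the constants without trace factors. -/
noncomputable def c1 (c : Fin N → Fin N → Shape N → ℂ) : Fin N → Fin N → Shape N → ℂ :=
  fun α β s => by classical exact if s.1 = 0 then c α β s else 0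

lemma c_split (c : Fin N → Fin N → Shape N → ℂ) (α β : Fin N) (s : Shape N) :
    c α β s = c1 c α β s + c0 c α β s := by
  unfold c0 c1
  split_ifs <;> simp

lemma fE_split (k : ℕ) (c d : Fin N → Fin N → Shape N → ℂ) (P Q : List (Fin N)) :
    fE k c d P Q = fE k (c1 c) (fun _ _ _ => 0) P Q + fE k (c0 c) d P Q := by
  unfold fE
  simp only [← Finset.sum_add_distrib]
  refine Finset.sum_congr rfl fun s _ => Finset.sum_congr rfl fun α _ =>
    Finset.sum_congr rfl fun β _ => ?_
  rw [c_split c α β s, C_add, C_0]
  ring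

lemma TY_X {κ : Type} [Fintype κ] [DecidableEq κ] (x : Fin N → Matrix κ κ ℂ) (w : List (Fin N)) :
    TY x (X w) = Polynomial.C (tw x w) * Polynomial.X := by
  rw [TY, aeval_X]

lemma list_sum_mem_span {ι : Type} (l : List ι) (f : ι → Polynomial ℂ)
    (V : Submodule ℂ (Polynomial ℂ)) (h : ∀ i ∈ l, f i ∈ V) : (l.map f).sum ∈ V := by
  induction l with
  | nil => simp
  | cons i l ih =>
    rw [List.map_cons, List.sum_cons]
    exact V.add_mem (h i List.mem_cons_self) (ih fun j hj => h j (List.mem_cons_of_mem _ hj))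

lemma C_mul_mem (V : Submodule ℂ (Polynomial ℂ)) (a : ℂ) (p : Polynomial ℂ) (h : p ∈ V) :
    Polynomial.C a * p ∈ V := by
  rw [← Polynomial.smul_eq_C_mul]; exact V.smul_mem a h

lemma TY_C {κ : Type} [Fintype κ] [DecidableEq κ] (x : Fin N → Matrix κ κ ℂ) (a : ℂ) :
    TY x (C a) = Polynomial.C a := by
  rw [TY, aeval_C]; rfl

/-- The single-trace part is linear in the trace-counting variable. -/
lemma TY_c1_mem {κ : Type} [Fintype κ] [DecidableEq κ] (x : Fin N → Matrix κ κ ℂ) (k : ℕ)
    (c : Fin N → Fin N → Shape N → ℂ) (P Q : List (Fin N)) :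
    TY x (fE k (c1 c) (fun _ _ _ => 0) P Q) ∈ Submodule.span ℂ {(Polynomial.X : Polynomial ℂ)} := by
  classical
  set V := Submodule.span ℂ {(Polynomial.X : Polynomial ℂ)}
  unfold fE
  rw [map_sum]
  apply V.sum_mem; intro s _
  rw [map_sum]
  apply V.sum_mem; intro α _
  rw [map_sum]
  apply V.sum_mem; intro β _
  by_cases hs : s.1 = 0
  · rw [C_0, zero_mul, add_zero, map_mul, map_mul, TY_C]
    have h1 : TY x (XT s.1) = 1 := by
      rw [hs, XT, Multiset.map_zero, Multiset.prod_zero, map_one]
    rw [h1, one_mul]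
    apply C_mul_mem
    rw [map_list_sum, List.map_map]
    apply list_sum_mem_span
    intro p _
    rw [Function.comp_apply, map_list_sum, List.map_map]
    apply list_sum_mem_span
    intro q _
    rw [Function.comp_apply, TY_X]
    apply C_mul_mem
    exact Submodule.mem_span_singleton_self _
  · have : c1 c α β s = 0 := by
      unfold c1; rw [if_neg hs]
    rw [this, C_0, zero_mul, zero_mul, add_zero, mul_zero, map_zero]
    exact V.zero_mem

lemma list_sum_dvd {ι : Type} (l : List ι) (f : ι → Polynomial ℂ) (a : Polynomial ℂ)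
    (h : ∀ i ∈ l, a ∣ f i) : a ∣ (l.map f).sum := by
  induction l with
  | nil => simp
  | cons i l ih =>
    rw [List.map_cons, List.sum_cons]
    exact dvd_add (h i List.mem_cons_self) (ih fun j hj => h j (List.mem_cons_of_mem _ hj))

/-- The multi-trace part is divisible by the square of the trace-counting variable. -/
lemma TY_c0_dvd {κ : Type} [Fintype κ] [DecidableEq κ] (x : Fin N → Matrix κ κ ℂ) (k : ℕ)
    (c d : Fin N → Fin N → Shape N → ℂ) (P Q : List (Fin N)) :
    (Polynomial.X : Polynomial ℂ) ^ 2 ∣ TY x (fE k (c0 c) d P Q) := by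
  classical
  unfold fE
  rw [map_sum]
  apply Finset.dvd_sum; intro s _
  rw [map_sum]
  apply Finset.dvd_sum; intro α _
  rw [map_sum]
  apply Finset.dvd_sum; intro β _
  rw [map_mul, map_add, mul_add]
  have hX : ∀ w : List (Fin N), (Polynomial.X : Polynomial ℂ) ∣ TY x (X w) := by
    intro w
    rw [TY_X]
    exact Dvd.intro_left _ rfl
  apply dvd_add
  · by_cases hs : s.1 = 0
    · have : c0 c α β s = 0 := by
        unfold c0; rw [if_pos hs]
      rw [this, C_0, zero_mul, map_zero, mul_zero]
      exact dvd_zero _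
    · rw [sq]
      apply mul_dvd_mul
      · obtain ⟨w, hw⟩ := Multiset.exists_mem_of_ne_zero hs
        obtain ⟨T, hT⟩ := Multiset.exists_cons_of_mem hw
        have : XT s.1 = X w * XT T := by rw [hT]; simp [XT]
        rw [this, map_mul]
        exact Dvd.dvd.mul_right (hX w) _
      · rw [map_mul]
        apply Dvd.dvd.mul_left
        rw [map_list_sum, List.map_map]
        apply list_sum_dvd
        intro p _
        rw [Function.comp_apply, map_list_sum, List.map_map]
        apply list_sum_dvd
        intro q _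
        exact hX _
  · apply Dvd.dvd.mul_left
    rw [map_mul]
    apply Dvd.dvd.mul_left
    rw [map_mul, sq]
    apply mul_dvd_mul
    · rw [map_list_sum, List.map_map]
      apply list_sum_dvd
      intro p _
      exact hX _
    · rw [map_list_sum, List.map_map]
      apply list_sum_dvd
      intro p _
      exact hX _

/-- The multi-trace part of the bracket of two traces of short words vanishes formally. -/
theorem formal_vanish (B : PoissonBracket m N) (k : ℕ) (hB : IsTraceBracket B)
    (c d : Fin N → Fin N → Shape N → ℂ)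
    (hcd : ∀ (α β : Fin N) (i j i' j' : Fin m), B.br (X (α, i, j)) (X (β, i', j')) =
      genT m k (c α β) (d α β) i j i' j') (P Q : List (Fin N)) (hP : 2 ≤ P.length)
    (hQ : 2 ≤ Q.length) (hm : P.length + Q.length + k ≤ m + 2)
    (κ : Type) [Fintype κ] [DecidableEq κ] (x : Fin N → Matrix κ κ ℂ) :
    TE x (fE k (c0 c) d P Q) = 0 := by
  classical
  obtain ⟨n, hn⟩ : ∃ n, n + 2 = P.length + Q.length + k := ⟨P.length + Q.length + k - 2, by omega⟩
  have hnm : n ≤ m := by omega
  -- the bracket as a formal polynomial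
  have h1 : B.br (Matrix.trace (wordMat P)) (Matrix.trace (wordMat Q)) =
      TE (matVar : Fin N → MatR m N) (fE k c d P Q) := by
    rw [br_trace_PhiF B k c d hcd, TE_fE k c d matVar P Q hP hQ]
  have hX1 : ∀ (α : Fin N) (i j : Fin m), ((matVar α : MatR m N) i j).IsHomogeneous 1 := by
    intro α i j
    exact isHomogeneous_X _ _
  have h2 : (TE (matVar : Fin N → MatR m N) (fE k c d P Q)).IsHomogeneous n :=
    TE_homog _ hX1 _ n (fE_weight k c d P Q n hn)
  -- the third polynomial
  have hmat : ∀ w : List (Fin N), ∃ P' : FreeAlgebra ℂ (Fin N),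
      (matPoly P' : MatR m N) = wordMat w := by
    intro w
    induction w with
    | nil => exact ⟨1, by simp [wordMat]⟩
    | cons a w ih =>
      obtain ⟨P', hP'⟩ := ih
      exact ⟨FreeAlgebra.ι ℂ a * P', by rw [map_mul, hP', wordMat_cons]; simp [matPoly]⟩
  obtain ⟨P₁, hP₁⟩ := hmat P
  obtain ⟨P₂, hP₂⟩ := hmat Q
  obtain ⟨P₃, hP₃⟩ := hB.2 P₁ P₂
  rw [hP₁, hP₂, h1] at hP₃
  obtain ⟨a, ha⟩ := matPoly_words (m := m) P₃
  have htr : Matrix.trace (matPoly P₃ : MatR m N) =
      a.sum fun w r => r • Matrix.trace (wordMat w : MatR m N) := by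
    rw [ha, Finsupp.sum, Finsupp.sum, Matrix.trace_sum]
    exact Finset.sum_congr rfl fun w _ => Matrix.trace_smul _ _
  let E₃ : MvPolynomial (List (Fin N)) ℂ := a.sum fun w r => if w.length = n then C r * X w else 0
  have hwh : ∀ w : List (Fin N), (Matrix.trace (wordMat w : MatR m N)).IsHomogeneous w.length := by
    intro w
    unfold Matrix.trace
    exact IsHomogeneous.sum _ _ _ fun i _ => wordMat_homog w i i
  have h3 : TE (matVar : Fin N → MatR m N) (fE k c d P Q) = TE (matVar : Fin N → MatR m N) E₃ := by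
    have h4 := homogeneousComponent_of_mem (m := n) (mem_homogeneousSubmodule n _ |>.mpr h2)
    rw [if_pos rfl] at h4
    rw [← h4, hP₃, htr, Finsupp.sum, map_sum]
    simp only [E₃]
    rw [Finsupp.sum, map_sum]
    refine Finset.sum_congr rfl fun w _ => ?_
    rw [map_smul]
    have h5 := homogeneousComponent_of_mem (m := n)
      (mem_homogeneousSubmodule w.length _ |>.mpr (hwh w))
    rw [h5]
    by_cases hw : w.length = n
    · rw [if_pos hw.symm, if_pos hw, map_mul, TE_X, tw_of_ne, TE, aeval_C,
        MvPolynomial.algebraMap_eq, MvPolynomial.smul_eq_C_mul]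
      · rfl
      · intro h
        rw [h, List.length_nil] at hw
        omega
    · rw [if_neg (Ne.symm hw), if_neg hw, smul_zero, map_zero]
  -- weighted homogeneity
  have hE₃ : IsWeightedHomogeneous (List.length : List (Fin N) → ℕ) E₃ n := by
    simp only [E₃]
    apply IsWeightedHomogeneous.sum
    intro w _
    by_cases hw : w.length = n
    · simp only [if_pos hw]
      apply IsWeightedHomogeneous.C_mul
      have := isWeightedHomogeneous_X ℂ (List.length : List (Fin N) → ℕ) w
      rwa [hw] at this
    · simp only [if_neg hw]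
      exact isWeightedHomogeneous_zero _ _ _
  have hE' : IsWeightedHomogeneous (List.length : List (Fin N) → ℕ) (fE k c d P Q - E₃) n :=
    (fE_weight k c d P Q n hn).sub hE₃
  have hvan : ∀ x : Fin N → Matrix (Fin m) (Fin m) ℂ, TE x (fE k c d P Q - E₃) = 0 := by
    intro x
    have h4 : TE (matVar : Fin N → MatR m N) (fE k c d P Q - E₃) = 0 := by
      rw [map_sub, h3, sub_self]
    have h5 := TE_mapT (aeval (fun p : Fin N × Fin m × Fin m => x p.1 p.2.1 p.2.2) :
      PolyFun m N →ₐ[ℂ] ℂ) (matVar : Fin N → MatR m N) (fE k c d P Q - E₃)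
    have h6 : mapT (aeval (fun p : Fin N × Fin m × Fin m => x p.1 p.2.1 p.2.2) :
        PolyFun m N →ₐ[ℂ] ℂ) (matVar : Fin N → MatR m N) = x := by
      funext α
      ext i j
      simp [mapT, matVar]
    rw [h6, h4, map_zero] at h5
    exact h5
  have hall : ∀ (κ : Type) [Fintype κ] [DecidableEq κ] (x : Fin N → Matrix κ κ ℂ),
      TE x (fE k c d P Q - E₃) = 0 := fun κ _ _ x => stable_all _ n m hE' hnm hvan x
  have hTY := TY_zero _ hall x
  -- separate the number of traces
  rw [fE_split] at hTY
  have e : fE k (c1 c) (fun _ _ _ => 0) P Q + fE k (c0 c) d P Q - E₃ =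
      (fE k (c1 c) (fun _ _ _ => 0) P Q - E₃) + fE k (c0 c) d P Q := by ring
  rw [e, map_add, map_sub] at hTY
  have hmem : TY x (fE k (c1 c) (fun _ _ _ => 0) P Q) - TY x E₃ ∈
      Submodule.span ℂ {(Polynomial.X : Polynomial ℂ)} := by
    apply Submodule.sub_mem _ (TY_c1_mem x k c P Q)
    simp only [E₃]
    rw [Finsupp.sum, map_sum]
    apply Submodule.sum_mem
    intro w _
    by_cases hw : w.length = n
    · rw [if_pos hw, map_mul, TY_C, TY_X]
      apply C_mul_mem
      apply C_mul_mem
      exact Submodule.mem_span_singleton_self _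
    · rw [if_neg hw, map_zero]
      exact Submodule.zero_mem _
  obtain ⟨r, hr⟩ := Submodule.mem_span_singleton.mp hmem
  obtain ⟨g, hg⟩ := TY_c0_dvd x k c d P Q
  rw [← hr, hg] at hTY
  have hr0 : r = 0 := by
    have := congrArg (fun p => Polynomial.coeff p 1) hTY
    simp only [Polynomial.coeff_add, Polynomial.coeff_smul, Polynomial.coeff_X_one, smul_eq_mul,
      mul_one, Polynomial.coeff_zero] at this
    have h0 : (Polynomial.X ^ 2 * g).coeff 1 = 0 := by
      rw [Polynomial.coeff_X_pow_mul']
      simp
    rw [h0, add_zero] at this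
    exact this
  rw [hr0, zero_smul, zero_add] at hTY
  rw [← TY_eval_one, hg, hTY, Polynomial.eval_zero]

end

end Pool.Agent.Helper93Trace
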