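import Pool.Agent.Helper93_Trace.Main2

open MvPolynomial

set_option linter.unusedSectionVars false

namespace Pool.Agent.Helper93Trace

section
variable {m n : ℕ}

lemma TE_vanish_square (B : PoissonBracket m (n + 2)) (k : ℕ) (hB : IsTraceBracket B)
    (c d : Fin (n + 2) → Fin (n + 2) → Shape (n + 2) → ℂ)
    (hcd : ∀ (α β : Fin (n + 2)) (i j i' j' : Fin m), B.br (X (α, i, j)) (X (β, i', j')) =
      genT m k (c α β) (d α β) i j i' j') (s : ℕ) (hs : 16 * s + k ≤ m)
    (P Q : List (Fin (n + 2))) (hP : 2 ≤ P.length) (hQ : 2 ≤ Q.length)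
    (x : Fin (n + 2) → Matrix (Fin s × Fin s) (Fin s × Fin s) ℂ) :
    TE x (fE k (c0 c) d P Q) = 0 := by
  apply density (ptB s) (4 * s) (ptB_span s) (fun x => TE x (fE k (c0 c) d P Q))
    (fun y => TE y (fE k (c0 c) d P Q)) (fun t y => TE_mapT (Polynomial.aeval t) y _)
  intro x hx
  rw [TE_fE k _ _ x P Q hP hQ]
  apply PhiF_zero_of_span k _ _ x (4 * s) hx
  intro P' Q' h1 h2 h3 h4
  rw [← TE_fE k _ _ x P' Q' h1 h3]
  exact formal_vanish B k hB c d hcd P' Q' h1 h3 (by omega) _ x

lemma TE_vanish_m (B : PoissonBracket m (n + 2)) (k : ℕ) (hB : IsTraceBracket B)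
    (c d : Fin (n + 2) → Fin (n + 2) → Shape (n + 2) → ℂ)
    (hcd : ∀ (α β : Fin (n + 2)) (i j i' j' : Fin m), B.br (X (α, i, j)) (X (β, i', j')) =
      genT m k (c α β) (d α β) i j i' j') (s : ℕ) (hs : 16 * s + k ≤ m) (hms : m ≤ s * s)
    (P Q : List (Fin (n + 2))) (hP : 2 ≤ P.length) (hQ : 2 ≤ Q.length)
    (x : Fin (n + 2) → Matrix (Fin m) (Fin m) ℂ) :
    TE x (fE k (c0 c) d P Q) = 0 := by
  obtain ⟨e⟩ : Nonempty (Fin m ↪ Fin s × Fin s) := by
    apply Function.Embedding.nonempty_of_card_le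
    rw [Fintype.card_fin, Fintype.card_prod, Fintype.card_fin]
    exact hms
  let J : Matrix (Fin s × Fin s) (Fin m) ℂ := Matrix.of fun p a => if p = e a then 1 else 0
  have hJ : J.transpose * J = 1 := by
    ext a b
    rw [Matrix.mul_apply, Matrix.one_apply]
    simp only [J, Matrix.transpose_apply, Matrix.of_apply, ite_mul, one_mul, zero_mul,
      Finset.sum_ite_eq', Finset.mem_univ, if_true]
    by_cases hab : a = b
    · subst hab; simp
    · rw [if_neg hab, if_neg]
      intro h
      exact hab (e.injective h)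
  have h1 : ∀ w, tw (fun α => J * x α * J.transpose) w = tw x w := by
    apply tw_compress
    intro α
    rw [hJ, mul_one]
  rw [← TE_congr _ _ h1]
  exact TE_vanish_square B k hB c d hcd s hs P Q hP hQ _

lemma PhiF_vanish (B : PoissonBracket m (n + 2)) (k : ℕ) (hB : IsTraceBracket B)
    (c d : Fin (n + 2) → Fin (n + 2) → Shape (n + 2) → ℂ)
    (hcd : ∀ (α β : Fin (n + 2)) (i j i' j' : Fin m), B.br (X (α, i, j)) (X (β, i', j')) =
      genT m k (c α β) (d α β) i j i' j') (s : ℕ) (hs : 16 * s + k ≤ m) (hms : m ≤ s * s)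
    (P Q : List (Fin (n + 2))) :
    PhiF k (c0 c) d (matVar : Fin (n + 2) → MatR m (n + 2)) (grad matVar P) (grad matVar Q) = 0 := by
  have hall : ∀ x : Fin (n + 2) → Matrix (Fin m) (Fin m) ℂ,
      PhiF k (c0 c) d x (grad x P) (grad x Q) = 0 := by
    apply density (ptA m) (2 * m + 1) (ptA_span m)
      (fun x => PhiF k (c0 c) d x (grad x P) (grad x Q))
      (fun y => PhiF k (c0 c) d y (grad y P) (grad y Q))
      (fun t y => PhiF_mapT k _ _ (Polynomial.aeval t) y P Q)
    intro x hx
    apply PhiF_zero_of_span k _ _ x _ hx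
    intro P' Q' h1 _ h3 _
    rw [← TE_fE k _ _ x P' Q' h1 h3]
    exact TE_vanish_m B k hB c d hcd s hs hms P' Q' h1 h3 x
  apply MvPolynomial.funext
  intro x
  have h5 := PhiF_mapT k (c0 c) d (aeval x : PolyFun m (n + 2) →ₐ[ℂ] ℂ)
    (matVar : Fin (n + 2) → MatR m (n + 2)) P Q
  rw [hall] at h5
  rw [map_zero]
  exact h5.symm

end

section
variable {m N : ℕ}

lemma PhiF_split {κ : Type} [Fintype κ] [DecidableEq κ] {R : Type} [CommRing R] [Algebra ℂ R]
    (k : ℕ) (c d : Fin N → Fin N → Shape N → ℂ) (x : Fin N → Matrix κ κ R)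
    (A A' : Fin N → Matrix κ κ R) :
    PhiF k c d x A A' = PhiF k (c1 c) (fun _ _ _ => 0) x A A' + PhiF k (c0 c) d x A A' := by
  unfold PhiF
  simp only [← Finset.sum_add_distrib]
  refine Finset.sum_congr rfl fun s _ => Finset.sum_congr rfl fun α _ =>
    Finset.sum_congr rfl fun β _ => ?_
  rw [c_split c α β s, map_add, map_zero]
  ring

lemma exists_ofFn {A : Type} (v : List A) (n : ℕ) (h : v.length = n) :
    ∃ f : Fin n → A, List.ofFn f = v := by
  subst h
  exact ⟨v.get, List.ofFn_get v⟩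

lemma starTensor_eq (k : ℕ) (c : Fin N → Fin N → Shape N → ℂ) (α β : Fin N)
    (i j i' j' : Fin m) :
    starTensor m k (fun α β u v => c α β (0, u, v)) (α, i, j) (β, i', j') =
      genT m k (c1 c α β) (fun _ => 0) i j i' j' := by
  classical
  have h1 : genT m k (c1 c α β) (fun _ => 0) i j i' j' =
      ∑ s ∈ (shapes N k).filter (fun s => s.1 = 0),
        C (c α β s) * (wordMat s.2.1 i j' * wordMat s.2.2 i' j : PolyFun m N) := by
    rw [genT, Finset.sum_filter]
    refine Finset.sum_congr rfl fun s _ => ?_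
    rw [C_0, zero_mul, add_zero]
    by_cases hs : s.1 = 0
    · rw [if_pos hs, hs]
      have : c1 c α β s = c α β s := by unfold c1; rw [if_pos hs]
      rw [this, traceProd, Multiset.map_zero, Multiset.prod_zero, one_mul]
    · rw [if_neg hs]
      have : c1 c α β s = 0 := by unfold c1; rw [if_neg hs]
      rw [this, C_0, zero_mul, mul_zero]
  rw [h1]
  unfold starTensor
  have h2 : ∀ l : Fin (k + 1), (∑ u : Fin l → Fin N, ∑ v : Fin (k - l) → Fin N,
      (C (c α β (0, List.ofFn u, List.ofFn v)) *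
        (wordMat (List.ofFn u) i j' * wordMat (List.ofFn v) i' j) : PolyFun m N)) =
      ∑ p : (Fin l → Fin N) × (Fin (k - l) → Fin N),
        C (c α β (0, List.ofFn p.1, List.ofFn p.2)) *
        (wordMat (List.ofFn p.1) i j' * wordMat (List.ofFn p.2) i' j) := by
    intro l
    rw [Fintype.sum_prod_type]
  simp only
  rw [Finset.sum_congr rfl (fun l _ => h2 l)]
  rw [← Fintype.sum_sigma' (fun (l : Fin (k + 1)) (p : (Fin l → Fin N) × (Fin (k - l) → Fin N)) =>
    (C (c α β (0, List.ofFn p.1, List.ofFn p.2)) *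
        (wordMat (List.ofFn p.1) i j' * wordMat (List.ofFn p.2) i' j) : PolyFun m N))]
  apply Finset.sum_nbij (fun x => ((0 : Multiset (List (Fin N))), List.ofFn x.2.1, List.ofFn x.2.2))
  · rintro ⟨l, u, v⟩ _
    rw [Finset.mem_filter, mem_shapes]
    refine ⟨⟨by simp, ?_⟩, rfl⟩
    simp only [Shape.length, Multiset.map_zero, Multiset.sum_zero, List.length_ofFn]
    omega
  · rintro ⟨l, u, v⟩ _ ⟨l', u', v'⟩ _ h
    simp only [Prod.mk.injEq, true_and] at h
    obtain ⟨h3, h4⟩ := h
    have hl : l = l' := by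
      apply Fin.ext
      have := congrArg List.length h3
      simpa using this
    subst hl
    have hu : u = u' := List.ofFn_injective h3
    have hv : v = v' := List.ofFn_injective h4
    rw [hu, hv]
  · rintro ⟨T, u, v⟩ hs
    rw [Finset.mem_coe, Finset.mem_filter, mem_shapes] at hs
    obtain ⟨⟨_, hlen⟩, hT⟩ := hs
    simp only at hT
    subst hT
    simp only [Shape.length, Multiset.map_zero, Multiset.sum_zero, zero_add] at hlen
    obtain ⟨f, hf⟩ := exists_ofFn u u.length rfl
    obtain ⟨g, hg⟩ := exists_ofFn v (k - u.length) (by omega)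
    refine ⟨⟨⟨u.length, by omega⟩, f, g⟩, by simp, ?_⟩
    simp only [hf, hg]
  · intro x _
    rfl

lemma pderiv_trace (α : Fin N) (i j : Fin m) (P : List (Fin N)) :
    pderiv (α, i, j) (Matrix.trace (wordMat P : MatR m N)) = (grad matVar P α : MatR m N) j i := by
  classical
  rw [der_trace', Finset.sum_eq_single α, Finset.sum_eq_single i, Finset.sum_eq_single j]
  · rw [pderiv_X_self, mul_one]
  · intro b _ hb
    rw [pderiv_X_of_ne (by intro h; exact hb (by simpa using h)), mul_zero]
  · simp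
  · intro b _ hb
    apply Finset.sum_eq_zero; intro c _
    rw [pderiv_X_of_ne (by intro h; exact hb (by
      have := congrArg (fun p => p.2.1) h; simpa using this)), mul_zero]
  · simp
  · intro b _ hb
    apply Finset.sum_eq_zero; intro c _
    apply Finset.sum_eq_zero; intro d _
    rw [pderiv_X_of_ne (by intro h; exact hb (by
      have := congrArg (fun p => p.1) h; simpa using this)), mul_zero]
  · simp

lemma starBr_eq (k : ℕ) (c : Fin N → Fin N → List (Fin N) → List (Fin N) → ℂ)
    (f g : PolyFun m N) : starBr m k c f g = biDer (starTensor m k c) f g := by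
  rw [biDer_apply]; rfl

lemma starBr_trace (k : ℕ) (c : Fin N → Fin N → Shape N → ℂ) (P Q : List (Fin N)) :
    starBr m k (fun α β u v => c α β (0, u, v)) (Matrix.trace (wordMat P))
      (Matrix.trace (wordMat Q)) =
      PhiF k (c1 c) (fun _ _ _ => 0) (matVar : Fin N → MatR m N) (grad matVar P)
        (grad matVar Q) := by
  rw [← contract_genT, starBr, Finset.sum_comm]
  rw [Fintype.sum_prod_type]
  refine Finset.sum_congr rfl fun β _ => ?_
  rw [Fintype.sum_prod_type]
  refine Finset.sum_congr rfl fun i' _ => Finset.sum_congr rfl fun j' _ => ?_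
  rw [Fintype.sum_prod_type, Finset.mul_sum]
  refine Finset.sum_congr rfl fun α _ => ?_
  rw [Fintype.sum_prod_type, Finset.mul_sum]
  refine Finset.sum_congr rfl fun i _ => ?_
  rw [Finset.mul_sum]
  refine Finset.sum_congr rfl fun j _ => ?_
  rw [pderiv_trace, pderiv_trace, starTensor_eq]
  ring

lemma bilinear_words (F G : PolyFun m N →ₗ[ℂ] PolyFun m N →ₗ[ℂ] PolyFun m N)
    (h : ∀ P Q : List (Fin N), F (Matrix.trace (wordMat P)) (Matrix.trace (wordMat Q)) =
      G (Matrix.trace (wordMat P)) (Matrix.trace (wordMat Q))) (P₁ P₂ : FreeAlgebra ℂ (Fin N)) :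
    F (Matrix.trace (matPoly P₁)) (Matrix.trace (matPoly P₂)) =
      G (Matrix.trace (matPoly P₁)) (Matrix.trace (matPoly P₂)) := by
  obtain ⟨a, ha⟩ := matPoly_words (m := m) P₁
  obtain ⟨b, hb⟩ := matPoly_words (m := m) P₂
  have htr : ∀ a : List (Fin N) →₀ ℂ,
      Matrix.trace (a.sum fun w r => r • wordMat w : MatR m N) =
      a.sum fun w r => r • Matrix.trace (wordMat w : MatR m N) := by
    intro a
    rw [Finsupp.sum, Finsupp.sum, Matrix.trace_sum]
    exact Finset.sum_congr rfl fun w _ => Matrix.trace_smul _ _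
  rw [ha, hb, htr, htr]
  simp only [Finsupp.sum, map_sum, map_smul, LinearMap.sum_apply, LinearMap.smul_apply, h]

theorem agrees_large (B : PoissonBracket m N) (k : ℕ) (hB : IsTraceBracket B)
    (hk : IsHomogeneousBracket B k) (hN : 2 ≤ N) (s : ℕ) (hs : 16 * s + k ≤ m)
    (hms : m ≤ s * s) : AgreesOnTraces B k := by
  obtain ⟨n, rfl⟩ : ∃ n, N = n + 2 := ⟨N - 2, by omega⟩
  obtain ⟨c, d, hcd⟩ := bracket_general B k hB.1 hk
  refine ⟨fun α β u v => c α β (0, u, v), ?_⟩
  intro P₁ P₂
  rw [starBr_eq]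
  apply bilinear_words
  intro P Q
  rw [br_trace_PhiF B k c d hcd, PhiF_split, PhiF_vanish B k hB c d hcd s hs hms, add_zero,
    ← starBr_eq, starBr_trace]

end

end Pool.Agent.Helper93Trace
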