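import Pool.Agent.Helper93_Trace.Main3

open MvPolynomial

set_option linter.unusedSectionVars false

namespace Pool.Agent.Helper93Trace

section
variable {m : ℕ}

lemma br_const (B : PoissonBracket m 1) (f : PolyFun m 1) (a : ℂ) : B.br f (C a) = 0 := by
  have hone : B.br f 1 = 0 := by
    have := B.leibniz f 1 1
    rw [mul_one, mul_one, one_mul] at this
    exact left_eq_add.mp this
  have : (C a : PolyFun m 1) = a • 1 := by rw [MvPolynomial.smul_eq_C_mul, mul_one]
  rw [this, map_smul, hone, smul_zero]

lemma cycAux_one (p q : List (Fin 1)) : (cycAux 0 p q).length = q.length := by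
  induction q generalizing p with
  | nil => rfl
  | cons a q ih =>
    have ha : a = 0 := Subsingleton.elim _ _
    rw [cycAux, if_pos ha, List.length_append, ih, List.length_singleton, List.length_cons]
    omega

lemma wv_one {N : ℕ} {κ : Type} [Fintype κ] [DecidableEq κ] (w : List (Fin N)) :
    wv (fun _ => (1 : Matrix κ κ ℂ)) w = 1 := by
  simp [wv]

lemma grad_one {κ : Type} [Fintype κ] [DecidableEq κ] (P : List (Fin 1)) :
    grad (fun _ => (1 : Matrix κ κ ℂ)) P = (P.length : ℂ) • (fun _ => (1 : Matrix κ κ ℂ)) := by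
  funext α
  have hα : α = 0 := Subsingleton.elim _ _
  subst hα
  have hlen : (cyc 0 P).length = P.length := cycAux_one [] P
  rw [grad, Pi.smul_apply, ← hlen]
  induction cyc 0 P with
  | nil => simp
  | cons w l ih =>
    rw [List.map_cons, List.sum_cons, wv_one, ih, List.length_cons]
    push_cast
    rw [add_smul, one_smul, add_comm]

lemma PhiF_smul {N : ℕ} {κ : Type} [Fintype κ] [DecidableEq κ] (k : ℕ)
    (c d : Fin N → Fin N → Shape N → ℂ) (x : Fin N → Matrix κ κ ℂ) (a b : ℂ)
    (A A' : Fin N → Matrix κ κ ℂ) :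
    PhiF k c d x (a • A) (b • A') = a * b * PhiF k c d x A A' := by
  unfold PhiF
  simp only [Finset.mul_sum]
  refine Finset.sum_congr rfl fun s _ => Finset.sum_congr rfl fun α _ =>
    Finset.sum_congr rfl fun β _ => ?_
  simp only [Pi.smul_apply, Matrix.smul_mul, Matrix.mul_smul, Matrix.trace_smul, smul_eq_mul]
  ring

/-- For one matrix variable, the traces of powers Poisson commute. -/
theorem traces_commute_one (hm : 1 ≤ m) (B : PoissonBracket m 1) (k : ℕ) (hB : IsTraceBracket B)
    (hk : IsHomogeneousBracket B k) (P Q : List (Fin 1)) :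
    B.br (Matrix.trace (wordMat P)) (Matrix.trace (wordMat Q)) = 0 := by
  classical
  by_cases hPQ : P = [] ∨ Q = []
  · have htr : ∀ P : List (Fin 1), P = [] →
        (Matrix.trace (wordMat P : MatR m 1)) = C (m : ℂ) := by
      rintro _ rfl
      simp [wordMat]
    rcases hPQ with h | h
    · rw [htr P h, B.skew, br_const, neg_zero]
    · rw [htr Q h, br_const]
  rw [not_or] at hPQ
  have hP1 : 1 ≤ P.length := List.length_pos_iff.mpr hPQ.1
  have hQ1 : 1 ≤ Q.length := List.length_pos_iff.mpr hPQ.2
  obtain ⟨c, d, hcd⟩ := bracket_general B k hB.1 hk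
  have hcd' : ∀ (α β : Fin 1) (i j i' j' : Fin m), B.br (X (α, i, j)) (X (β, i', j')) =
      genT m k (c α β) (d α β) i j i' j' := hcd
  set n := (Q.length - 1) + ((P.length - 1) + k) with hn
  -- homogeneity
  have hgrad : ∀ (P : List (Fin 1)) (α : Fin 1) (i j : Fin m),
      ((grad matVar P α : MatR m 1) i j).IsHomogeneous (P.length - 1) := by
    intro P α i j
    have : ∀ l : List (List (Fin 1)), (∀ w ∈ l, w.length + 1 = P.length) →
        (((l.map (wv (matVar : Fin 1 → MatR m 1))).sum) i j).IsHomogeneous (P.length - 1) := by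
      intro l
      induction l with
      | nil => intro _; simp only [List.map_nil, List.sum_nil]; exact isHomogeneous_zero _ _ _
      | cons w l ih =>
        intro h
        rw [List.map_cons, List.sum_cons, Matrix.add_apply]
        apply IsHomogeneous.add
        · have h1 := h w List.mem_cons_self
          have h2 := wordMat_homog (m := m) w i j
          have e : w.length = P.length - 1 := by omega
          rw [e] at h2
          exact h2
        · exact ih fun v hv => h v (List.mem_cons_of_mem _ hv)
    exact this _ (cyc_length α P)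
  have hhom : (B.br (Matrix.trace (wordMat P)) (Matrix.trace (wordMat Q))).IsHomogeneous n := by
    rw [br_trace]
    apply IsHomogeneous.sum; intro β _
    apply IsHomogeneous.sum; intro i' _
    apply IsHomogeneous.sum; intro j' _
    apply (hgrad Q β j' i').mul
    apply IsHomogeneous.sum; intro α _
    apply IsHomogeneous.sum; intro i _
    apply IsHomogeneous.sum; intro j _
    exact (hgrad P α j i).mul (hk _ _)
  -- the value is a multiple of one trace
  have hmat : ∀ w : List (Fin 1), ∃ P' : FreeAlgebra ℂ (Fin 1),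
      (matPoly P' : MatR m 1) = wordMat w := by
    intro w
    induction w with
    | nil => exact ⟨1, by simp [wordMat]⟩
    | cons a w ih =>
      obtain ⟨P', hP'⟩ := ih
      exact ⟨FreeAlgebra.ι ℂ a * P', by rw [map_mul, hP', wordMat_cons]; simp [matPoly]⟩
  obtain ⟨P₁, hP₁⟩ := hmat P
  obtain ⟨P₂, hP₂⟩ := hmat Q
  obtain ⟨P₃, hP₃⟩ := hB.2 P₁ P₂
  rw [hP₁, hP₂] at hP₃
  obtain ⟨a, ha⟩ := matPoly_words (m := m) P₃
  have htr : Matrix.trace (matPoly P₃ : MatR m 1) =
      a.sum fun w r => r • Matrix.trace (wordMat w : MatR m 1) := by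
    rw [ha, Finsupp.sum, Finsupp.sum, Matrix.trace_sum]
    exact Finset.sum_congr rfl fun w _ => Matrix.trace_smul _ _
  have hwh : ∀ w : List (Fin 1), (Matrix.trace (wordMat w : MatR m 1)).IsHomogeneous w.length := by
    intro w
    unfold Matrix.trace
    exact IsHomogeneous.sum _ _ _ fun i _ => wordMat_homog w i i
  have hval : B.br (Matrix.trace (wordMat P)) (Matrix.trace (wordMat Q)) =
      a (List.replicate n 0) • Matrix.trace (wordMat (List.replicate n 0) : MatR m 1) := by
    have h4 := homogeneousComponent_of_mem (m := n) (mem_homogeneousSubmodule n _ |>.mpr hhom)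
    rw [if_pos rfl] at h4
    rw [← h4, hP₃, htr, Finsupp.sum, map_sum]
    have h6 : ∀ w ∈ a.support, homogeneousComponent n (a w • Matrix.trace (wordMat w : MatR m 1)) =
        if w = List.replicate n 0 then
          a (List.replicate n 0) • Matrix.trace (wordMat (List.replicate n 0) : MatR m 1)
        else 0 := by
      intro w _
      rw [map_smul, homogeneousComponent_of_mem (m := n)
        (mem_homogeneousSubmodule w.length _ |>.mpr (hwh w))]
      by_cases hw : w = List.replicate n 0
      · rw [if_pos hw, hw, if_pos (by simp)]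
      · rw [if_neg hw, if_neg, smul_zero]
        intro h
        apply hw
        rw [List.eq_replicate_iff]
        exact ⟨h.symm, fun b _ => Subsingleton.elim _ _⟩
    rw [Finset.sum_congr rfl h6, Finset.sum_ite_eq']
    split_ifs with h7
    · rfl
    · rw [Finsupp.notMem_support_iff.mp h7, zero_smul]
  -- evaluate at the identity matrix
  let x1 : Fin 1 → Matrix (Fin m) (Fin m) ℂ := fun _ => 1
  let ev : PolyFun m 1 →ₐ[ℂ] ℂ := aeval fun p => (1 : Matrix (Fin m) (Fin m) ℂ) p.2.1 p.2.2
  have hev : mapT ev (matVar : Fin 1 → MatR m 1) = x1 := by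
    funext α
    ext i j
    simp [mapT, matVar, ev, x1]
  have hphi : ∀ P Q : List (Fin 1), ev (B.br (Matrix.trace (wordMat P))
      (Matrix.trace (wordMat Q))) = PhiF k c d x1 (grad x1 P) (grad x1 Q) := by
    intro P Q
    rw [br_trace_PhiF B k c d hcd', ← PhiF_mapT, hev]
  have hself : PhiF k c d x1 (fun _ => 1) (fun _ => 1) = 0 := by
    have h1 := hphi [0] [0]
    have h2 : B.br (Matrix.trace (wordMat [0])) (Matrix.trace (wordMat [0])) = 0 := by
      have := B.skew (Matrix.trace (wordMat [0])) (Matrix.trace (wordMat [0]))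
      have h3 : (2 : ℂ) • B.br (Matrix.trace (wordMat [0])) (Matrix.trace (wordMat [0])) = 0 := by
        rw [two_smul]; exact eq_neg_iff_add_eq_zero.mp this
      exact (smul_eq_zero.mp h3).resolve_left two_ne_zero
    rw [h2, map_zero, grad_one] at h1
    simp only [List.length_singleton, Nat.cast_one, one_smul] at h1
    exact h1.symm
  have h0 : ev (B.br (Matrix.trace (wordMat P)) (Matrix.trace (wordMat Q))) = 0 := by
    rw [hphi, grad_one, grad_one, PhiF_smul, hself, mul_zero]
  have htr1 : ev (Matrix.trace (wordMat (List.replicate n 0) : MatR m 1)) = (m : ℂ) := by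
    rw [← trace_map', wordMat_eq_wv, ← wv_mapT, hev]
    simp only [x1]
    rw [wv_one, Matrix.trace_one, Fintype.card_fin]
  rw [hval, map_smul, htr1, smul_eq_mul] at h0
  have hm' : (m : ℂ) ≠ 0 := by
    have : m ≠ 0 := by omega
    exact_mod_cast this
  rw [hval, (mul_eq_zero.mp h0).resolve_right hm', zero_smul]

theorem agrees_one (hm : 1 ≤ m) (B : PoissonBracket m 1) (k : ℕ) (hB : IsTraceBracket B)
    (hk : IsHomogeneousBracket B k) : (∀ P₁ P₂ : FreeAlgebra ℂ (Fin 1),
      B.br (Matrix.trace (matPoly P₁)) (Matrix.trace (matPoly P₂)) = 0) := by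
  intro P₁ P₂
  have := bilinear_words B.br 0 (fun P Q => by
    rw [traces_commute_one hm B k hB hk]; rfl) P₁ P₂
  rw [this]
  rfl

lemma starBr_zero {N : ℕ} (k : ℕ) (f g : PolyFun m N) :
    starBr m k (fun _ _ _ _ => 0) f g = 0 := by
  unfold starBr starTensor
  simp

/-- In the stable range, brackets of traces are those of a biderivation of form (*). -/
theorem agrees_stable {N : ℕ} (hm : 1 ≤ m) (hN : 1 ≤ N) (B : PoissonBracket m N) (k : ℕ)
    (hB : IsTraceBracket B) (hk : IsHomogeneousBracket B k) (h : N = 1 ∨ 2 * k + 400 ≤ m) :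
    AgreesOnTraces B k := by
  by_cases hN1 : N = 1
  · subst hN1
    refine ⟨fun _ _ _ _ => 0, fun P₁ P₂ => ?_⟩
    rw [agrees_one hm B k hB hk, starBr_zero]
  · have hm4 : 2 * k + 400 ≤ m := by
      rcases h with h | h
      · exact absurd h hN1
      · exact h
    set s := Nat.sqrt m + 1 with hs
    have h1 : m < s * s := by rw [hs]; exact Nat.lt_succ_sqrt m
    have h2 : Nat.sqrt m * Nat.sqrt m ≤ m := Nat.sqrt_le m
    apply agrees_large B k hB hk (by omega) s _ (le_of_lt h1)
    rw [hs]
    -- `16 (√m + 1) + k ≤ m`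
    have h3 : 32 * Nat.sqrt m + 32 + 2 * k ≤ 2 * m := by
      have h4 : 32 * Nat.sqrt m ≤ Nat.sqrt m * Nat.sqrt m + 256 := by
        have : (0 : ℤ) ≤ ((Nat.sqrt m : ℤ) - 16) ^ 2 := sq_nonneg _
        zify
        nlinarith
      omega
    omega

end

end Pool.Agent.Helper93Trace
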