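import Pool.Agent.Helper93_Trace.Counter

open MvPolynomial

namespace Pool.Agent.Helper93Trace

/-! ### The bracket `cBracket` is not of form (*) for `m ≥ 2`

We evaluate at matrices over the ring `ℂ[δ][ε]` with `δ² = ε² = 0`. -/

/-- The ring `ℂ[δ][ε]`, `δ² = ε² = 0`. -/
abbrev KK := DualNumber (DualNumber ℂ)

/-- The element `1 + n δ`. -/
noncomputable def bn (n : ℕ) : KK :=
  TrivSqZeroExt.inl (TrivSqZeroExt.inl 1 + TrivSqZeroExt.inr (n : ℂ))

/-- The element `ε`. -/
noncomputable def ee : KK := TrivSqZeroExt.inr 1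

/-- The coefficient of `ε δ`. -/
def cf (z : KK) : ℂ := TrivSqZeroExt.snd (TrivSqZeroExt.snd z)

lemma cf_add (x y : KK) : cf (x + y) = cf x + cf y := rfl
lemma cf_sub (x y : KK) : cf (x - y) = cf x - cf y := rfl
lemma cf_zero : cf 0 = 0 := rfl
lemma cf_smul (c : ℂ) (x : KK) : cf (c • x) = c * cf x := rfl
lemma cf_sum {ι : Type*} (s : Finset ι) (f : ι → KK) : cf (∑ i ∈ s, f i) = ∑ i ∈ s, cf (f i) := by
  classical
  induction s using Finset.induction_on with
  | empty => simp [cf_zero]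
  | insert a s ha ih => rw [Finset.sum_insert ha, Finset.sum_insert ha, cf_add, ih]

lemma bn_mul (a b : ℕ) : bn a * bn b = bn (a + b) := by
  simp only [bn]
  rw [← TrivSqZeroExt.inl_mul]
  congr 1
  ext
  · simp
  · simp; ring

lemma bn_zero : bn 0 = 1 := by
  simp only [bn]
  ext <;> simp

lemma ee_mul_ee : ee * ee = 0 := by
  simp [ee]

lemma cf_bn (n : ℕ) : cf (bn n) = 0 := by simp [cf, bn]

lemma cf_ee_bn (n : ℕ) : cf (ee * bn n) = n := by
  simp [cf, bn, ee]

/-- The first evaluation point: `x_1 = diag(1, 1+δ, 0, …)`, `x_2 = ε E_{01}`. -/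
noncomputable def pt1 (m' n : ℕ) : Fin (n + 2) × Fin (m' + 2) × Fin (m' + 2) → KK := fun p =>
  if p.1 = 0 ∧ p.2.1 = 0 ∧ p.2.2 = 0 then 1
  else if p.1 = 0 ∧ p.2.1 = 1 ∧ p.2.2 = 1 then bn 1
  else if p.1 = 1 ∧ p.2.1 = 0 ∧ p.2.2 = 1 then ee
  else 0

/-- The second evaluation point: `x_1 = diag(1, 1+δ, 0, …)`, `x_2 = ε E_{00}`. -/
noncomputable def pt2 (m' n : ℕ) : Fin (n + 2) × Fin (m' + 2) × Fin (m' + 2) → KK := fun p =>
  if p.1 = 0 ∧ p.2.1 = 0 ∧ p.2.2 = 0 then 1
  else if p.1 = 0 ∧ p.2.1 = 1 ∧ p.2.2 = 1 then bn 1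
  else if p.1 = 1 ∧ p.2.1 = 0 ∧ p.2.2 = 0 then ee
  else 0

section
variable {m' n : ℕ}

/-- Entry of a word at the first point. -/
noncomputable def e1 (w : List (Fin (n + 2))) (i j : Fin (m' + 2)) : KK :=
  aeval (pt1 m' n) ((wordMat w : MatR (m' + 2) (n + 2)) i j)

/-- Entry of a word at the second point. -/
noncomputable def e2 (w : List (Fin (n + 2))) (i j : Fin (m' + 2)) : KK :=
  aeval (pt2 m' n) ((wordMat w : MatR (m' + 2) (n + 2)) i j)

lemma wordMat_append {m N : ℕ} (w : List (Fin N)) (α : Fin N) :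
    (wordMat (w ++ [α]) : MatR m N) = wordMat w * matVar α := by
  simp [wordMat]

lemma e1_append (w : List (Fin (n + 2))) (α : Fin (n + 2)) (i j : Fin (m' + 2)) :
    e1 (w ++ [α]) i j = ∑ l, e1 w i l * pt1 m' n (α, l, j) := by
  simp only [e1, wordMat_append, Matrix.mul_apply, map_sum, map_mul, matVar, Matrix.of_apply,
    aeval_X]

lemma e2_append (w : List (Fin (n + 2))) (α : Fin (n + 2)) (i j : Fin (m' + 2)) :
    e2 (w ++ [α]) i j = ∑ l, e2 w i l * pt2 m' n (α, l, j) := by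
  simp only [e2, wordMat_append, Matrix.mul_apply, map_sum, map_mul, matVar, Matrix.of_apply,
    aeval_X]

lemma e1_append_00 (w : List (Fin (n + 2))) (α : Fin (n + 2)) (i : Fin (m' + 2)) :
    e1 (w ++ [α]) i 0 = if α = 0 then e1 w i 0 else 0 := by
  rw [e1_append, Finset.sum_eq_single 0]
  · by_cases h : α = 0 <;> simp [pt1, h]
  · intro b _ hb
    simp [pt1, hb]
  · simp

lemma e1_append_1 (w : List (Fin (n + 2))) (α : Fin (n + 2)) (i : Fin (m' + 2)) :
    e1 (w ++ [α]) i 1 = if α = 0 then e1 w i 1 * bn 1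
      else if α = 1 then e1 w i 0 * ee else 0 := by
  rw [e1_append]
  by_cases h : α = 0
  · rw [Finset.sum_eq_single 1]
    · simp [pt1, h]
    · intro b _ hb
      simp [pt1, hb, h]
    · simp
  · by_cases h1 : α = 1
    · rw [Finset.sum_eq_single 0]
      · simp [pt1, h1]
      · intro b _ hb
        simp [pt1, hb, h]
      · simp
    · rw [if_neg h, if_neg h1]
      apply Finset.sum_eq_zero
      intro b _
      simp [pt1, h, h1]

lemma e2_append_00 (w : List (Fin (n + 2))) (α : Fin (n + 2)) (i : Fin (m' + 2)) :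
    e2 (w ++ [α]) i 0 = if α = 0 then e2 w i 0 else if α = 1 then e2 w i 0 * ee else 0 := by
  rw [e2_append, Finset.sum_eq_single 0]
  · by_cases h : α = 0
    · simp [pt2, h]
    · by_cases h1 : α = 1 <;> simp [pt2, h, h1]
  · intro b _ hb
    simp [pt2, hb]
  · simp

lemma e2_append_1 (w : List (Fin (n + 2))) (α : Fin (n + 2)) (i : Fin (m' + 2)) :
    e2 (w ++ [α]) i 1 = if α = 0 then e2 w i 1 * bn 1 else 0 := by
  rw [e2_append, Finset.sum_eq_single 1]
  · by_cases h : α = 0 <;> simp [pt2, h]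
  · intro b _ hb
    simp [pt2, hb]
  · simp

/-- The possible values of the relevant entries of a word. -/
def WordType (w : List (Fin (n + 2))) (m' : ℕ) : Prop :=
  (∃ s : ℕ, e1 (m' := m') w 0 0 = 1 ∧ e1 (m' := m') w 0 1 = 0 ∧ e1 (m' := m') w 1 0 = 0 ∧
    e1 (m' := m') w 1 1 = bn s ∧ e2 (m' := m') w 0 0 = 1 ∧ e2 (m' := m') w 1 1 = bn s) ∨
  (∃ t : ℕ, e1 (m' := m') w 0 0 = 0 ∧ e1 (m' := m') w 0 1 = ee * bn t ∧
    e1 (m' := m') w 1 0 = 0 ∧ e1 (m' := m') w 1 1 = 0 ∧ e2 (m' := m') w 0 0 = ee ∧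
    e2 (m' := m') w 1 1 = 0) ∨
  (e1 (m' := m') w 0 0 = 0 ∧ e1 (m' := m') w 0 1 = 0 ∧
    e1 (m' := m') w 1 0 = 0 ∧ e1 (m' := m') w 1 1 = 0 ∧ e2 (m' := m') w 0 0 = 0 ∧
    e2 (m' := m') w 1 1 = 0)

lemma wordType (w : List (Fin (n + 2))) (m' : ℕ) : WordType w m' := by
  induction w using List.reverseRecOn with
  | nil =>
    left
    refine ⟨0, ?_⟩
    simp [e1, e2, wordMat, bn_zero]
  | append_singleton w α ih =>
    unfold WordType at ih ⊢
    simp only [e1_append_00, e1_append_1, e2_append_00, e2_append_1]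
    rcases ih with ⟨s, h1, h2, h3, h4, h5, h6⟩ | ⟨t, h1, h2, h3, h4, h5, h6⟩ |
      ⟨h1, h2, h3, h4, h5, h6⟩
    · by_cases hα : α = 0
      · left
        refine ⟨s + 1, ?_⟩
        simp [hα, h1, h2, h3, h4, h5, h6, bn_mul]
      · by_cases hα1 : α = 1
        · right; left
          refine ⟨0, ?_⟩
          simp [hα1, h1, h3, h5, bn_zero]
        · right; right
          simp [hα, hα1]
    · by_cases hα : α = 0
      · right; left
        refine ⟨t + 1, ?_⟩
        simp [hα, h1, h2, h3, h4, h5, h6, mul_assoc, bn_mul]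
      · by_cases hα1 : α = 1
        · right; right
          simp [hα1, h1, h3, h5, ee_mul_ee]
        · right; right
          simp [hα, hα1]
    · right; right
      by_cases hα : α = 0
      · simp [hα, h1, h2, h3, h4, h5, h6]
      · by_cases hα1 : α = 1
        · simp [hα1, h1, h3, h5]
        · simp [hα, hα1]

lemma pair_zero (u v : List (Fin (n + 2))) (m' : ℕ) :
    cf (e1 (m' := m') u 0 1 * e1 (m' := m') v 1 1) -
      cf (e1 (m' := m') u 0 1 * e1 (m' := m') v 0 0) -
      cf (e2 (m' := m') u 0 0 * e2 (m' := m') v 1 1) = 0 := by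
  rcases wordType u m' with ⟨s, h1, h2, h3, h4, h5, h6⟩ | ⟨t, h1, h2, h3, h4, h5, h6⟩ |
      ⟨h1, h2, h3, h4, h5, h6⟩ <;>
  rcases wordType v m' with ⟨s', g1, g2, g3, g4, g5, g6⟩ | ⟨t', g1, g2, g3, g4, g5, g6⟩ |
      ⟨g1, g2, g3, g4, g5, g6⟩ <;>
  rw [h2, h5, g1, g4, g6] <;>
  simp [cf_zero, cf_bn, mul_assoc, bn_mul, cf_ee_bn]

lemma powMat_eq_word (m k : ℕ) :
    (powMat m n k) = wordMat (List.replicate (k - 1) (0 : Fin (n + 2))) := by
  simp [powMat, wordMat]

lemma e1_replicate (s : ℕ) :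
    e1 (m' := m') (List.replicate s (0 : Fin (n + 2))) 0 0 = 1 ∧
      e1 (m' := m') (List.replicate s (0 : Fin (n + 2))) 1 1 = bn s := by
  induction s with
  | zero => simp [e1, wordMat, bn_zero]
  | succ s ih =>
    rw [List.replicate_succ', e1_append_00, e1_append_1]
    simp [ih.1, ih.2, bn_mul]

lemma cBracket_not_star' (m' n k : ℕ) (hk : 2 ≤ k) :
    ¬ IsFormStar (cBracket (m' + 2) n k) k := by
  rintro ⟨c, hc⟩
  have hstar : ∀ i j i' j', ∀ (pt : Fin (n + 2) × Fin (m' + 2) × Fin (m' + 2) → KK),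
      aeval pt ((cBracket (m' + 2) n k).br (X (1, i, j)) (X (1, i', j'))) =
        ∑ a : Fin (k + 1), ∑ u : Fin a → Fin (n + 2), ∑ v : Fin (k - a) → Fin (n + 2),
          (c 1 1 (List.ofFn u) (List.ofFn v)) •
            (aeval pt ((wordMat (List.ofFn u) : MatR (m' + 2) (n + 2)) i j') *
             aeval pt ((wordMat (List.ofFn v) : MatR (m' + 2) (n + 2)) i' j)) := by
    intro i j i' j' pt
    rw [hc 1 1 i j i' j']
    simp only [map_sum, map_mul, aeval_C]
    refine Finset.sum_congr rfl fun a _ => Finset.sum_congr rfl fun u _ =>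
      Finset.sum_congr rfl fun v _ => ?_
    exact (Algebra.smul_def _ _).symm
  have hzero : cf (aeval (pt1 m' n) ((cBracket (m' + 2) n k).br (X (1, 0, 1)) (X (1, 1, 1)))) -
      cf (aeval (pt1 m' n) ((cBracket (m' + 2) n k).br (X (1, 0, 0)) (X (1, 0, 1)))) -
      cf (aeval (pt2 m' n) ((cBracket (m' + 2) n k).br (X (1, 0, 1)) (X (1, 1, 0)))) = 0 := by
    rw [hstar, hstar, hstar]
    simp only [cf_sum, cf_smul, ← Finset.sum_sub_distrib]
    apply Finset.sum_eq_zero; intro a _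
    apply Finset.sum_eq_zero; intro u _
    apply Finset.sum_eq_zero; intro v _
    rw [← mul_sub, ← mul_sub]
    have := pair_zero (List.ofFn u) (List.ofFn v) m'
    simp only [e1, e2] at this
    rw [this, mul_zero]
  have hne : (0 : Fin (m' + 2)) ≠ 1 := by simp
  have hne' : (1 : Fin (m' + 2)) ≠ 0 := by simp
  have hK : aeval (pt1 m' n) ((matVar 1 * powMat (m' + 2) n k - powMat (m' + 2) n k * matVar 1 :
      MatR (m' + 2) (n + 2)) 0 1) = ee * bn (k - 1) - ee := by
    rw [Matrix.sub_apply, map_sub, Matrix.mul_apply, Matrix.mul_apply, map_sum, map_sum]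
    congr 1
    · rw [Finset.sum_eq_single 1]
      · rw [map_mul, powMat_eq_word]
        have := (e1_replicate (m' := m') (n := n) (k - 1)).2
        simp only [e1] at this
        rw [this]
        simp [matVar, pt1]
      · intro b _ hb
        simp [matVar, pt1, hb]
      · simp
    · rw [Finset.sum_eq_single 0]
      · rw [map_mul, powMat_eq_word]
        have := (e1_replicate (m' := m') (n := n) (k - 1)).1
        simp only [e1] at this
        rw [this]
        simp [matVar, pt1]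
      · intro b _ hb
        simp [matVar, pt1, hb]
      · simp
  simp only [cBracket, commBracket_apply, adDer, shiftDer, mkDerivation_X, if_true,
    Matrix.one_apply_eq, Matrix.one_apply_ne hne, Matrix.one_apply_ne hne', mul_one, mul_zero,
    zero_mul, one_mul, sub_zero, zero_sub, map_neg, map_zero, hK] at hzero
  have h1 : cf (ee * bn (k - 1) - ee) = ((k - 1 : ℕ) : ℂ) := by
    rw [cf_sub, cf_ee_bn]
    simp [cf, ee]
  have h2 : cf (-(ee * bn (k - 1) - ee)) = -((k - 1 : ℕ) : ℂ) := by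
    rw [← h1]; rfl
  rw [h1, h2, cf_zero] at hzero
  have h3 : (((k - 1 : ℕ) : ℂ)) = 0 := by linear_combination hzero / 2
  have h4 : k - 1 = 0 := by exact_mod_cast h3
  omega

end

end Pool.Agent.Helper93Trace
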