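import Pool.Agent.Helper93_Trace.Calc

open MvPolynomial

set_option linter.unusedSectionVars false

namespace Pool.Agent.Helper93Trace

section
variable {N : ℕ} {κ : Type} [Fintype κ] [DecidableEq κ]

lemma eq_zero_of_trace_mul (A : Matrix κ κ ℂ) (h : ∀ B : Matrix κ κ ℂ, Matrix.trace (A * B) = 0) :
    A = 0 := by
  ext i j
  have := h (Matrix.single j i 1)
  rw [Matrix.trace_mul_single] at this
  simpa using this

/-- The words of length between `1` and `l`. -/
def wordSpan (x : Fin N → Matrix κ κ ℂ) (l : ℕ) : Submodule ℂ (Matrix κ κ ℂ) :=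
  Submodule.span ℂ {A | ∃ w : List (Fin N), 1 ≤ w.length ∧ w.length ≤ l ∧ A = wv x w}

/-- The graph of the derivation. -/
def dGraph (x ξ : Fin N → Matrix κ κ ℂ) (l : ℕ) : Submodule ℂ (Matrix κ κ ℂ × Matrix κ κ ℂ) :=
  Submodule.span ℂ {A | ∃ w : List (Fin N), 1 ≤ w.length ∧ w.length ≤ l ∧ A = (wv x w, dl x ξ w)}

variable (x ξ : Fin N → Matrix κ κ ℂ) (l : ℕ)

lemma exists_mem_dGraph (hs : wordSpan x l = ⊤) (A : Matrix κ κ ℂ) :
    ∃ B, (A, B) ∈ dGraph x ξ l := by
  have hA : A ∈ wordSpan x l := by rw [hs]; trivial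
  unfold wordSpan at hA
  induction hA using Submodule.span_induction with
  | mem A hA =>
    obtain ⟨w, h1, h2, rfl⟩ := hA
    exact ⟨dl x ξ w, Submodule.subset_span ⟨w, h1, h2, rfl⟩⟩
  | zero => exact ⟨0, Submodule.zero_mem _⟩
  | add A A' _ _ h h' =>
    obtain ⟨B, hB⟩ := h
    obtain ⟨B', hB'⟩ := h'
    exact ⟨B + B', Submodule.add_mem _ hB hB'⟩
  | smul c A _ h =>
    obtain ⟨B, hB⟩ := h
    exact ⟨c • B, Submodule.smul_mem _ c hB⟩

lemma pair_one (hξ : ∀ w : List (Fin N), 2 ≤ w.length → w.length ≤ 2 * l + 1 →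
      Matrix.trace (dl x ξ w) = 0) {A B C E : Matrix κ κ ℂ} (h : (A, B) ∈ dGraph x ξ l)
    (h' : (C, E) ∈ dGraph x ξ l) : Matrix.trace (B * C) + Matrix.trace (A * E) = 0 := by
  have key : ∀ p ∈ dGraph x ξ l, ∀ q ∈ dGraph x ξ l,
      Matrix.trace (p.2 * q.1) + Matrix.trace (p.1 * q.2) = 0 := by
    intro p hp q hq
    unfold dGraph at hp hq
    induction hp using Submodule.span_induction with
    | mem p hp =>
      obtain ⟨w, h1, h2, rfl⟩ := hp
      induction hq using Submodule.span_induction with
      | mem q hq =>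
        obtain ⟨v, h3, h4, rfl⟩ := hq
        have := hξ (w ++ v) (by rw [List.length_append]; omega) (by rw [List.length_append]; omega)
        rwa [dl_append, Matrix.trace_add] at this
      | zero => simp
      | add p q _ _ hp hq =>
        simp only [Prod.fst_add, Prod.snd_add, mul_add, Matrix.trace_add] at *
        linear_combination hp + hq
      | smul c p _ hp =>
        simp only [Prod.smul_fst, Prod.smul_snd, Matrix.mul_smul, Matrix.trace_smul,
          smul_eq_mul] at *
        linear_combination c * hp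
    | zero => simp
    | add p q _ _ hp hq =>
      simp only [Prod.fst_add, Prod.snd_add, add_mul, Matrix.trace_add] at *
      linear_combination hp + hq
    | smul c p _ hp =>
      simp only [Prod.smul_fst, Prod.smul_snd, Matrix.smul_mul, Matrix.trace_smul,
        smul_eq_mul] at *
      linear_combination c * hp
  exact key (A, B) h (C, E) h'

lemma pair_two (hξ : ∀ w : List (Fin N), 2 ≤ w.length → w.length ≤ 2 * l + 1 →
      Matrix.trace (dl x ξ w) = 0) (α : Fin N) {A B C E : Matrix κ κ ℂ}
    (h : (A, B) ∈ dGraph x ξ l) (h' : (C, E) ∈ dGraph x ξ l) :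
    Matrix.trace ((ξ α * A + x α * B) * C) + Matrix.trace (x α * A * E) = 0 := by
  have key : ∀ p ∈ dGraph x ξ l, ∀ q ∈ dGraph x ξ l,
      Matrix.trace ((ξ α * p.1 + x α * p.2) * q.1) + Matrix.trace (x α * p.1 * q.2) = 0 := by
    intro p hp q hq
    unfold dGraph at hp hq
    induction hp using Submodule.span_induction with
    | mem p hp =>
      obtain ⟨w, h1, h2, rfl⟩ := hp
      induction hq using Submodule.span_induction with
      | mem q hq =>
        obtain ⟨v, h3, h4, rfl⟩ := hq
        have := hξ ((α :: w) ++ v) (by simp; omega) (by simp; omega)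
        rw [dl_append, Matrix.trace_add, dl, wv_cons] at this
        exact this
      | zero => simp
      | add p q _ _ hp hq =>
        simp only [Prod.fst_add, Prod.snd_add, mul_add, Matrix.trace_add] at *
        linear_combination hp + hq
      | smul c p _ hp =>
        simp only [Prod.smul_fst, Prod.smul_snd, Matrix.mul_smul, Matrix.trace_smul,
          smul_eq_mul] at *
        linear_combination c * hp
    | zero => simp
    | add p q _ _ hp hq =>
      simp only [Prod.fst_add, Prod.snd_add, add_mul, mul_add, Matrix.trace_add] at *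
      linear_combination hp + hq
    | smul c p _ hp =>
      simp only [Prod.smul_fst, Prod.smul_snd, Matrix.smul_mul, Matrix.mul_smul, add_mul,
        Matrix.trace_add, Matrix.trace_smul, smul_eq_mul] at *
      linear_combination c * hp
  exact key (A, B) h (C, E) h'

variable {x ξ l}

lemma dGraph_unique (hs : wordSpan x l = ⊤)
    (hξ : ∀ w : List (Fin N), 2 ≤ w.length → w.length ≤ 2 * l + 1 →
      Matrix.trace (dl x ξ w) = 0) {B : Matrix κ κ ℂ} (h : ((0 : Matrix κ κ ℂ), B) ∈ dGraph x ξ l) :
    B = 0 := by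
  apply eq_zero_of_trace_mul
  intro C
  obtain ⟨E, hE⟩ := exists_mem_dGraph x ξ l hs C
  have := pair_one x ξ l hξ h hE
  simpa using this

lemma dGraph_cons (hs : wordSpan x l = ⊤)
    (hξ : ∀ w : List (Fin N), 2 ≤ w.length → w.length ≤ 2 * l + 1 →
      Matrix.trace (dl x ξ w) = 0) (α : Fin N) {A B : Matrix κ κ ℂ} (h : (A, B) ∈ dGraph x ξ l) :
    (x α * A, ξ α * A + x α * B) ∈ dGraph x ξ l := by
  obtain ⟨B', hB'⟩ := exists_mem_dGraph x ξ l hs (x α * A)
  have : B' - (ξ α * A + x α * B) = 0 := by
    apply eq_zero_of_trace_mul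
    intro C
    obtain ⟨E, hE⟩ := exists_mem_dGraph x ξ l hs C
    have h1 := pair_one x ξ l hξ hB' hE
    have h2 := pair_two x ξ l hξ α h hE
    rw [sub_mul, Matrix.trace_sub]
    linear_combination h1 - h2
  rwa [← sub_eq_zero.mp this]

lemma dGraph_word (hs : wordSpan x l = ⊤)
    (hξ : ∀ w : List (Fin N), 2 ≤ w.length → w.length ≤ 2 * l + 1 →
      Matrix.trace (dl x ξ w) = 0) (w : List (Fin N)) {A B : Matrix κ κ ℂ}
    (h : (A, B) ∈ dGraph x ξ l) :
    (wv x w * A, dl x ξ w * A + wv x w * B) ∈ dGraph x ξ l := by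
  induction w with
  | nil => simpa [wv_nil, dl] using h
  | cons a w ih =>
    have := dGraph_cons hs hξ a ih
    rw [wv_cons, dl]
    have e1 : x a * wv x w * A = x a * (wv x w * A) := by rw [mul_assoc]
    have e2 : (ξ a * wv x w + x a * dl x ξ w) * A + x a * wv x w * B =
        ξ a * (wv x w * A) + x a * (dl x ξ w * A + wv x w * B) := by noncomm_ring
    rw [e1, e2]
    exact this

lemma dGraph_one (hs : wordSpan x l = ⊤)
    (hξ : ∀ w : List (Fin N), 2 ≤ w.length → w.length ≤ 2 * l + 1 →
      Matrix.trace (dl x ξ w) = 0) : ((1 : Matrix κ κ ℂ), 0) ∈ dGraph x ξ l := by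
  obtain ⟨B, hB⟩ := exists_mem_dGraph x ξ l hs 1
  have h1 : ∀ A : Matrix κ κ ℂ, A * B = 0 := by
    intro A
    have hA : A ∈ wordSpan x l := by rw [hs]; trivial
    unfold wordSpan at hA
    induction hA using Submodule.span_induction with
    | mem A hA =>
      obtain ⟨w, h1, h2, rfl⟩ := hA
      have h3 := dGraph_word hs hξ w hB
      have h4 : (wv x w, dl x ξ w) ∈ dGraph x ξ l := Submodule.subset_span ⟨w, h1, h2, rfl⟩
      have h5 := Submodule.sub_mem _ h3 h4
      rw [Prod.mk_sub_mk, mul_one, sub_self, mul_one] at h5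
      have := dGraph_unique hs hξ h5
      simpa using this
    | zero => simp
    | add A A' _ _ h h' => rw [add_mul, h, h', add_zero]
    | smul c A _ h => rw [Matrix.smul_mul, h, smul_zero]
  have h2 := h1 1
  rw [one_mul] at h2
  rwa [h2] at hB

/-- If all short words have trace-free derivative, so do all words. -/
lemma trace_dl_zero (hs : wordSpan x l = ⊤)
    (hξ : ∀ w : List (Fin N), 2 ≤ w.length → w.length ≤ 2 * l + 1 →
      Matrix.trace (dl x ξ w) = 0) (w : List (Fin N)) : Matrix.trace (dl x ξ w) = 0 := by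
  have h1 := dGraph_one hs hξ
  have h2 := dGraph_word hs hξ w h1
  rw [mul_one, mul_one, mul_zero, add_zero] at h2
  have := pair_one x ξ l hξ h2 h1
  simpa using this

/-- The span lemma: cyclic gradients of all words are spanned by those of the short words of length
at least two. -/
theorem grad_mem_span (hs : wordSpan x l = ⊤) (P : List (Fin N)) :
    grad x P ∈ Submodule.span ℂ {A | ∃ w : List (Fin N), 2 ≤ w.length ∧ w.length ≤ 2 * l + 1 ∧
      A = grad x w} := by
  by_contra hcon
  obtain ⟨f, hf1, hf2⟩ := Submodule.exists_dual_map_eq_bot_of_notMem hcon inferInstance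
  -- represent `f` by a tuple of matrices
  let ξ : Fin N → Matrix κ κ ℂ := fun α => Matrix.of fun i j =>
    f (Pi.single α (Matrix.single j i 1))
  have hfξ : ∀ A : Fin N → Matrix κ κ ℂ, f A = ∑ α, Matrix.trace (A α * ξ α) := by
    intro A
    have h1 : A = ∑ α, ∑ i, ∑ j, A α i j • (Pi.single α (Matrix.single i j (1 : ℂ)) :
        Fin N → Matrix κ κ ℂ) := by
      funext β
      rw [Finset.sum_apply, Finset.sum_eq_single β]
      · rw [Finset.sum_apply]
        ext i j
        rw [Matrix.sum_apply, Finset.sum_eq_single i]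
        · rw [Finset.sum_apply, Matrix.sum_apply, Finset.sum_eq_single j]
          · simp
          · intro b _ hb; simp [hb]
          · simp
        · intro b _ hb
          rw [Finset.sum_apply, Matrix.sum_apply]
          apply Finset.sum_eq_zero
          intro c _
          simp [hb]
        · simp
      · intro b _ hb
        rw [Finset.sum_apply]
        apply Finset.sum_eq_zero
        intro i _
        rw [Finset.sum_apply]
        apply Finset.sum_eq_zero
        intro j _
        simp [hb.symm]
      · simp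
    conv_lhs => rw [h1]
    simp only [map_sum, map_smul]
    refine Finset.sum_congr rfl fun α _ => ?_
    rw [Matrix.trace]
    refine Finset.sum_congr rfl fun i _ => ?_
    rw [Matrix.diag_apply, Matrix.mul_apply]
    rfl
  have hξ : ∀ w : List (Fin N), 2 ≤ w.length → w.length ≤ 2 * l + 1 →
      Matrix.trace (dl x ξ w) = 0 := by
    intro w h1 h2
    rw [trace_dl, ← hfξ]
    have h3 : f (grad x w) ∈ Submodule.map f (Submodule.span ℂ {A | ∃ w : List (Fin N),
        2 ≤ w.length ∧ w.length ≤ 2 * l + 1 ∧ A = grad x w}) :=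
      Submodule.mem_map_of_mem (Submodule.subset_span ⟨w, h1, h2, rfl⟩)
    rw [hf2] at h3
    simpa using h3
  apply hf1
  rw [hfξ, ← trace_dl]
  exact trace_dl_zero hs hξ P

end

end Pool.Agent.Helper93Trace
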