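import Pool.Agent.Helper93_Trace.SpanLemma

open MvPolynomial

set_option linter.unusedSectionVars false

namespace Pool.Agent.Helper93Trace

section
variable {N : ℕ} {κ κ' : Type} [Fintype κ] [DecidableEq κ] [Fintype κ'] [DecidableEq κ']
variable {R R' : Type} [CommRing R] [Algebra ℂ R] [CommRing R'] [Algebra ℂ R']

/-- The trace of a nonempty word; zero for the empty word. -/
def tw (x : Fin N → Matrix κ κ R) (w : List (Fin N)) : R :=
  if w = [] then 0 else Matrix.trace (wv x w)

/-- Evaluation of formal polynomials in traces of words. -/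
noncomputable def TE (x : Fin N → Matrix κ κ R) : MvPolynomial (List (Fin N)) ℂ →ₐ[ℂ] R :=
  aeval (tw x)

/-- Applying a homomorphism to a tuple of matrices. -/
def mapT (φ : R →ₐ[ℂ] R') (x : Fin N → Matrix κ κ R) : Fin N → Matrix κ κ R' :=
  fun α => (x α).map φ

lemma wv_mapT (φ : R →ₐ[ℂ] R') (x : Fin N → Matrix κ κ R) (w : List (Fin N)) :
    wv (mapT φ x) w = (wv x w).map φ := by
  induction w with
  | nil =>
    rw [wv_nil, wv_nil]
    exact (Matrix.map_one φ (map_zero φ) (map_one φ)).symm
  | cons a w ih =>
    rw [wv_cons, wv_cons, ih]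
    exact (Matrix.map_mul (f := (φ : R →+* R'))).symm

lemma trace_map' (φ : R →ₐ[ℂ] R') (A : Matrix κ κ R) :
    Matrix.trace (A.map φ) = φ (Matrix.trace A) := by
  simp [Matrix.trace]

lemma tw_mapT (φ : R →ₐ[ℂ] R') (x : Fin N → Matrix κ κ R) (w : List (Fin N)) :
    tw (mapT φ x) w = φ (tw x w) := by
  unfold tw
  split_ifs
  · rw [map_zero]
  · rw [wv_mapT, trace_map']

lemma TE_mapT (φ : R →ₐ[ℂ] R') (x : Fin N → Matrix κ κ R) (E : MvPolynomial (List (Fin N)) ℂ) :
    TE (mapT φ x) E = φ (TE x E) := by
  have : TE (mapT φ x) = φ.comp (TE x) := by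
    apply MvPolynomial.algHom_ext
    intro w
    rw [AlgHom.comp_apply, TE, TE, aeval_X, aeval_X, tw_mapT]
  rw [this]
  rfl

/-- Compression: if `x α * (U * V) = x α`, then `V x U` has the same traces of nonempty words. -/
lemma tw_compress (x : Fin N → Matrix κ κ R) (U : Matrix κ κ' R) (V : Matrix κ' κ R)
    (h : ∀ α, x α * (U * V) = x α) (w : List (Fin N)) :
    tw (fun α => V * x α * U) w = tw x w := by
  have h1 : ∀ w : List (Fin N), w ≠ [] → wv x w * (U * V) = wv x w := by
    intro w
    induction w with
    | nil => intro h; exact absurd rfl h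
    | cons a w ih =>
      intro _
      rw [wv_cons, mul_assoc]
      by_cases hw : w = []
      · subst hw
        rw [wv_nil, one_mul, mul_one, h]
      · rw [ih hw]
  have h2 : ∀ w : List (Fin N), w ≠ [] → wv (fun α => V * x α * U) w = V * wv x w * U := by
    intro w
    induction w with
    | nil => intro h; exact absurd rfl h
    | cons a w ih =>
      intro _
      rw [wv_cons, wv_cons]
      by_cases hw : w = []
      · subst hw
        rw [wv_nil, wv_nil, mul_one, mul_one]
      · rw [ih hw]
        calc V * x a * U * (V * wv x w * U) = V * (x a * (U * V)) * wv x w * U := by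
              simp only [Matrix.mul_assoc]
          _ = V * (x a * wv x w) * U := by rw [h]; simp only [Matrix.mul_assoc]
  unfold tw
  by_cases hw : w = []
  · rw [if_pos hw, if_pos hw]
  · rw [if_neg hw, if_neg hw, h2 w hw, Matrix.trace_mul_comm, ← Matrix.mul_assoc,
      Matrix.trace_mul_comm, h1 w hw]

lemma TE_congr (x : Fin N → Matrix κ κ R) (y : Fin N → Matrix κ' κ' R)
    (h : ∀ w, tw x w = tw y w) (E : MvPolynomial (List (Fin N)) ℂ) : TE x E = TE y E := by
  unfold TE
  rw [show tw x = tw y from funext h]

/-- Images of weighted homogeneous polynomials. -/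
lemma TE_homog {σ : Type} (x : Fin N → Matrix κ κ (MvPolynomial σ ℂ))
    (hx : ∀ α i j, (x α i j).IsHomogeneous 1) (E : MvPolynomial (List (Fin N)) ℂ) (n : ℕ)
    (hE : IsWeightedHomogeneous (List.length : List (Fin N) → ℕ) E n) :
    (TE x E).IsHomogeneous n := by
  have h1 : ∀ (w : List (Fin N)) (i j : κ), (wv x w i j).IsHomogeneous w.length := by
    intro w
    induction w with
    | nil =>
      intro i j
      rw [wv_nil, Matrix.one_apply, List.length_nil]
      split_ifs
      · exact isHomogeneous_one _ _
      · exact isHomogeneous_zero _ _ _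
    | cons a w ih =>
      intro i j
      rw [wv_cons, Matrix.mul_apply, List.length_cons, add_comm]
      exact IsHomogeneous.sum _ _ _ fun l _ => (hx a i l).mul (ih l j)
  have h2 : ∀ w : List (Fin N), (tw x w).IsHomogeneous w.length := by
    intro w
    unfold tw
    split_ifs
    · exact isHomogeneous_zero _ _ _
    · exact IsHomogeneous.sum _ _ _ fun i _ => h1 w i i
  have h3 : TE x E = ∑ d ∈ E.support, C (coeff d E) * ∏ w ∈ d.support, tw x w ^ d w := by
    conv_lhs => rw [E.as_sum]
    rw [map_sum]
    refine Finset.sum_congr rfl fun d _ => ?_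
    rw [TE, aeval_monomial]
    rfl
  rw [h3]
  apply IsHomogeneous.sum
  intro d hd
  have h4 : Finsupp.weight (List.length : List (Fin N) → ℕ) d = n := hE (mem_support_iff.mp hd)
  have h5 : ∑ w ∈ d.support, w.length * d w = n := by
    rw [← h4, Finsupp.weight_apply, Finsupp.sum]
    exact Finset.sum_congr rfl fun w _ => by rw [smul_eq_mul, mul_comm]
  have h6 : (∏ w ∈ d.support, tw x w ^ d w).IsHomogeneous (∑ w ∈ d.support, w.length * d w) :=
    IsHomogeneous.prod _ _ _ fun w _ => (h2 w).pow (d w)
  have h7 := (isHomogeneous_C σ (coeff d E)).mul h6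
  rwa [zero_add, h5] at h7

/-- A homogeneous polynomial of degree at most `m` which vanishes at all points with at most `m`
nonzero coordinates is zero. -/
lemma homog_vanish (G : MvPolynomial κ ℂ) (n m : ℕ) (hG : G.IsHomogeneous n) (hnm : n ≤ m)
    (h : ∀ J : Finset κ, J.card ≤ m → ∀ y : κ → ℂ, (∀ i ∉ J, y i = 0) → eval y G = 0) :
    G = 0 := by
  by_contra hne
  obtain ⟨d, hd⟩ := ne_zero_iff.mp hne
  have hdeg : d.degree = n := by
    have := hG hd
    rw [Finsupp.degree_eq_weight_one]
    exact this
  have hcard : d.support.card ≤ m := by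
    have h1 : d.support.card ≤ d.degree := by
      rw [Finsupp.degree_apply, Finset.card_eq_sum_ones]
      apply Finset.sum_le_sum
      intro i hi
      exact Nat.one_le_iff_ne_zero.mpr (Finsupp.mem_support_iff.mp hi)
    omega
  set J := d.support with hJ
  let φ : MvPolynomial κ ℂ →ₐ[ℂ] MvPolynomial κ ℂ := aeval fun i => if i ∈ J then X i else 0
  have h0 : φ G = 0 := by
    apply MvPolynomial.funext
    intro y
    rw [map_zero]
    have h1 : eval y (φ G) = eval (fun i => if i ∈ J then y i else 0) G := by
      have : (aeval y).comp φ = aeval (fun i => if i ∈ J then y i else (0 : ℂ)) := by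
        apply MvPolynomial.algHom_ext
        intro i
        simp only [φ, AlgHom.comp_apply, aeval_X]
        split_ifs <;> simp
      have h2 := congrArg (fun ψ => ψ G) this
      simpa [MvPolynomial.coe_aeval_eq_eval] using h2
    rw [h1]
    exact h J hcard _ fun i hi => if_neg hi
  have h2 : coeff d (φ G) = coeff d G := by
    conv_lhs => rw [G.as_sum]
    rw [map_sum, coeff_sum]
    rw [Finset.sum_eq_single d]
    · have : φ (monomial d (coeff d G)) = monomial d (coeff d G) := by
        rw [aeval_monomial, monomial_eq]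
        congr 1
        apply Finsupp.prod_congr
        intro i hi
        rw [if_pos hi]
      rw [this, coeff_monomial, if_pos rfl]
    · intro e _ hed
      by_cases hsub : e.support ⊆ J
      · have : φ (monomial e (coeff e G)) = monomial e (coeff e G) := by
          rw [aeval_monomial, monomial_eq]
          congr 1
          apply Finsupp.prod_congr
          intro i hi
          rw [if_pos (hsub hi)]
        rw [this, coeff_monomial, if_neg hed]
      · obtain ⟨i, hi, hiJ⟩ := Finset.not_subset.mp hsub
        have : φ (monomial e (coeff e G)) = 0 := by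
          rw [aeval_monomial, Finsupp.prod, Finset.prod_eq_zero hi, mul_zero]
          rw [if_neg hiJ, zero_pow (Finsupp.mem_support_iff.mp hi)]
        rw [this, coeff_zero]
    · intro hd'
      rw [notMem_support_iff] at hd'
      exact absurd hd' hd
  rw [h0, coeff_zero] at h2
  exact hd h2.symm

/-- Stable range: a formal trace identity of degree `n ≤ m` which holds for `m × m` matrices holds
for matrices of all sizes. -/
theorem stable_all (E : MvPolynomial (List (Fin N)) ℂ) (n m : ℕ)
    (hE : IsWeightedHomogeneous (List.length : List (Fin N) → ℕ) E n) (hnm : n ≤ m)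
    (h : ∀ x : Fin N → Matrix (Fin m) (Fin m) ℂ, TE x E = 0) (x : Fin N → Matrix κ κ ℂ) :
    TE x E = 0 := by
  -- weighted matrices
  let xX : Fin N → Matrix κ κ (MvPolynomial κ ℂ) := fun α =>
    Matrix.of fun i j => C (x α i j) * X j
  have hG : TE xX E = 0 := by
    apply homog_vanish (TE xX E) n m (TE_homog xX (fun α i j => by
      have := (isHomogeneous_C κ (x α i j)).mul (isHomogeneous_X ℂ j)
      rwa [zero_add] at this) E n hE) hnm
    intro J hJ y hy
    have h1 : eval y (TE xX E) = TE (fun α => Matrix.of fun i j => x α i j * y j) E := by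
      have h2 := TE_mapT (aeval y : MvPolynomial κ ℂ →ₐ[ℂ] ℂ) xX E
      have h3 : mapT (aeval y : MvPolynomial κ ℂ →ₐ[ℂ] ℂ) xX =
          fun α => Matrix.of fun i j => x α i j * y j := by
        funext α
        ext i j
        simp [mapT, xX]
      rw [h3] at h2
      rw [h2]
      rfl
    rw [h1]
    -- embed `J` into `Fin m`
    obtain ⟨e⟩ : Nonempty (J ↪ Fin m) := by
      apply Function.Embedding.nonempty_of_card_le
      rw [Fintype.card_coe, Fintype.card_fin]
      exact hJ
    let U : Matrix κ (Fin m) ℂ := Matrix.of fun i a =>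
      if h : i ∈ J then (if e ⟨i, h⟩ = a then 1 else 0) else 0
    have hU : U * U.transpose = Matrix.diagonal (fun i => if i ∈ J then 1 else 0) := by
      ext i j
      rw [Matrix.mul_apply, Matrix.diagonal_apply]
      simp only [U, Matrix.of_apply, Matrix.transpose_apply]
      by_cases hi : i ∈ J
      · by_cases hj : j ∈ J
        · simp only [dif_pos hi, dif_pos hj, ite_mul, one_mul, zero_mul, Finset.sum_ite_eq,
            Finset.mem_univ, if_true, if_pos hi]
          by_cases hij : i = j
          · subst hij; simp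
          · rw [if_neg hij, if_neg]
            intro he
            apply hij
            have := e.injective he
            exact (Subtype.mk.inj this).symm
        · have hij : i ≠ j := fun h => hj (h ▸ hi)
          simp [hj, hij]
      · simp [hi]
    have h4 : ∀ w, tw (fun α => U.transpose * (Matrix.of fun i j => x α i j * y j) * U) w =
        tw (fun α => Matrix.of fun i j => x α i j * y j) w := by
      apply tw_compress
      intro α
      rw [hU]
      ext i j
      rw [Matrix.mul_diagonal, Matrix.of_apply]
      by_cases hj : j ∈ J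
      · rw [if_pos hj, mul_one]
      · rw [hy j hj]; simp
    rw [← TE_congr _ _ h4]
    exact h _
  have h5 := TE_mapT (aeval (fun _ => (1 : ℂ)) : MvPolynomial κ ℂ →ₐ[ℂ] ℂ) xX E
  have h6 : mapT (aeval (fun _ => (1 : ℂ)) : MvPolynomial κ ℂ →ₐ[ℂ] ℂ) xX = x := by
    funext α
    ext i j
    simp [mapT, xX]
  rw [h6, hG, map_zero] at h5
  exact h5

/-! ### Separating the number of traces -/

/-- Substituting `Y · tr(w)` for the trace of `w`. -/
noncomputable def TY (x : Fin N → Matrix κ κ ℂ) :
    MvPolynomial (List (Fin N)) ℂ →ₐ[ℂ] Polynomial ℂ :=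
  aeval fun w => Polynomial.C (tw x w) * Polynomial.X

lemma wv_kron (p : ℕ) (x : Fin N → Matrix κ κ ℂ) (w : List (Fin N)) :
    wv (fun α => Matrix.kroneckerMap (· * ·) (x α) (1 : Matrix (Fin p) (Fin p) ℂ)) w =
      Matrix.kroneckerMap (· * ·) (wv x w) (1 : Matrix (Fin p) (Fin p) ℂ) := by
  induction w with
  | nil => rw [wv_nil, wv_nil]; exact (Matrix.one_kronecker_one).symm
  | cons a w ih =>
    rw [wv_cons, wv_cons, ih]
    have := Matrix.mul_kronecker_mul (x a) (wv x w) (1 : Matrix (Fin p) (Fin p) ℂ)
      (1 : Matrix (Fin p) (Fin p) ℂ)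
    rw [one_mul] at this
    exact this.symm

lemma tw_kron (p : ℕ) (x : Fin N → Matrix κ κ ℂ) (w : List (Fin N)) :
    tw (fun α => Matrix.kroneckerMap (· * ·) (x α) (1 : Matrix (Fin p) (Fin p) ℂ)) w =
      tw x w * p := by
  unfold tw
  split_ifs
  · rw [zero_mul]
  · rw [wv_kron]
    have := Matrix.trace_kronecker (wv x w) (1 : Matrix (Fin p) (Fin p) ℂ)
    rw [Matrix.trace_one, Fintype.card_fin] at this
    exact this

lemma TY_eval (p : ℕ) (x : Fin N → Matrix κ κ ℂ) (E : MvPolynomial (List (Fin N)) ℂ) :
    (TY x E).eval (p : ℂ) =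
      TE (fun α => Matrix.kroneckerMap (· * ·) (x α) (1 : Matrix (Fin p) (Fin p) ℂ)) E := by
  have : (Polynomial.aeval (p : ℂ)).comp (TY x) =
      TE (fun α => Matrix.kroneckerMap (· * ·) (x α) (1 : Matrix (Fin p) (Fin p) ℂ)) := by
    apply MvPolynomial.algHom_ext
    intro w
    rw [AlgHom.comp_apply, TY, TE, aeval_X, aeval_X, tw_kron]
    simp
  rw [← this]
  simp [Polynomial.coe_aeval_eq_eval]

lemma TY_eval_one (x : Fin N → Matrix κ κ ℂ) (E : MvPolynomial (List (Fin N)) ℂ) :
    (TY x E).eval (1 : ℂ) = TE x E := by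
  have : (Polynomial.aeval (1 : ℂ)).comp (TY x) = TE x := by
    apply MvPolynomial.algHom_ext
    intro w
    rw [AlgHom.comp_apply, TY, TE, aeval_X, aeval_X]
    simp
  rw [← this]
  simp [Polynomial.coe_aeval_eq_eval]

/-- If a formal trace polynomial vanishes at matrices of all sizes, so does `TY`. -/
lemma TY_zero (E : MvPolynomial (List (Fin N)) ℂ)
    (h : ∀ (κ : Type) [Fintype κ] [DecidableEq κ] (x : Fin N → Matrix κ κ ℂ), TE x E = 0)
    (x : Fin N → Matrix κ κ ℂ) : TY x E = 0 := by
  apply Polynomial.eq_zero_of_infinite_isRoot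
  apply Set.infinite_of_injective_forall_mem (f := fun p : ℕ => (p : ℂ)) Nat.cast_injective
  intro p
  change Polynomial.IsRoot _ _
  rw [Polynomial.IsRoot.def, TY_eval]
  exact h _ _

end

end Pool.Agent.Helper93Trace
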